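import Pool.Agent.Lib.MP_e54452_nt.DG.Defs3

/-!
# Depth filtration: definitions
-/

set_option autoImplicit false

/-- the rational span of the multiple zeta values of weight `k` and depth at most `R` -/
noncomputable def MPe54452.DZ (R k : ℕ) : Submodule ℚ ℝ :=
  Submodule.span ℚ {x : ℝ | ∃ l : List ℕ, MPe54452.Adm l ∧ l.sum = k ∧ l.length ≤ R ∧
    x = MPe54452.mzv l}

/-- the rational span of the multiple zeta values of weight at most `W` and depth at most `R` -/
noncomputable def MPe54452.DW (R W : ℕ) : Submodule ℚ ℝ :=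
  Submodule.span ℚ {x : ℝ | ∃ l : List ℕ, MPe54452.Adm l ∧ l.sum ≤ W ∧ l.length ≤ R ∧
    x = MPe54452.mzv l}

namespace MZG

open Finset
open scoped ENNReal Nat Polynomial

/-- finite suffix-closed families of good words of length at most `s` -/
structure Fam (F : Finset (List Bool)) (s : ℕ) : Prop where
  nil : [] ∈ F
  tail : ∀ a w, a :: w ∈ F → w ∈ F
  good : ∀ w ∈ F, good w = true
  len : ∀ w ∈ F, w.length ≤ s

/-- pairs (word of the family, exponent at most `n`) -/
abbrev IdF (F : Finset (List Bool)) (n : ℕ) : Type := {w : List Bool // w ∈ F} × Fin (n + 1)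

/-- coefficient of `x^k` of `∑ t_{w,i} x^i L_w(x)` -/
def cF {F : Finset (List Bool)} {n : ℕ} (t : IdF F n → ℚ) (k : ℕ) : ℚ :=
  ∑ x : IdF F n, t x * cc x.1 x.2 k

/-- `∫ U(x) V(1-x)` for `U = ∑ t_{w,i} x^i L_w`, `V = ∑ t'_{w,i} x^i L_w` -/
noncomputable def BF {A B : Finset (List Bool)} {n : ℕ} (t : IdF A n → ℚ) (t' : IdF B n → ℚ) : ℝ :=
  ∑ x : IdF A n, ∑ y : IdF B n, (t x : ℝ) * (t' y : ℝ) * sx x.2 y.2 x.1 y.1

/-- the small auxiliary functions (as integer vectors) -/
def TF (F : Finset (List Bool)) (s μ n : ℕ) : Set (IdF F n → ℚ) :=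
  {t | (∀ x, ∃ z : ℤ, t x = z) ∧
    (∀ k < μ * (n + 1), |((cF t k : ℚ) : ℝ)| ≤ 1 / 8 ^ (μ * (n + 1))) ∧
    ∀ x, |(t x : ℝ)| ≤ Real.exp (12 * s * ((n + 1 : ℕ) : ℝ))}

/-- the words that occur: a prefix (reversed and complemented word of `B`) followed by a suffix -/
def VW (A B : Finset (List Bool)) (z : List Bool) : Prop :=
  adm z = true ∧ ∃ u ∈ A, ∃ v ∈ B, z = dual v u

/-- integral combinations of values of the words satisfying `p`,
with sum of the absolute values of the coefficients at most `B`. -/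
def RepP (p : List Bool → Prop) (B x : ℝ) : Prop :=
  ∃ a : List Bool →₀ ℤ, (∀ z ∈ a.support, p z) ∧
    (a.sum fun _ t => |(t : ℝ)|) ≤ B ∧ x = a.sum fun z t => (t : ℝ) * zr z

/-- the rational span of the values of the words satisfying `p` -/
noncomputable def MP (p : List Bool → Prop) : Submodule ℚ ℝ :=
  Submodule.span ℚ {x : ℝ | ∃ z : List Bool, p z ∧ x = zr z}

/-- good words of length at most `s` with at most `r` letters `true` -/
def FA (s r : ℕ) : Finset (List Bool) := (GW s).filter (fun w => w.count true ≤ r)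

/-- good words of length at most `s` with at most `t` letters `false` -/
def FB (s t : ℕ) : Finset (List Bool) := (GW s).filter (fun w => w.count false ≤ t)

end MZG
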