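import Pool.Agent.Lib.MP_e54452_nt.DG.R1
import Pool.Agent.Lib.MP_e54452_nt.DF.Defs

/-!
# Row R1
-/

set_option autoImplicit false

namespace MZG

open Finset PowerSeries
open scoped ENNReal Nat Polynomial

lemma RepP.mono {p : List Bool → Prop} {B B' x : ℝ} (h : RepP p B x) (hB : B ≤ B') :
    RepP p B' x := by
  obtain ⟨a, h1, h2, h3⟩ := h
  exact ⟨a, h1, h2.trans hB, h3⟩

lemma RepP.nonneg {p : List Bool → Prop} {B x : ℝ} (h : RepP p B x) : 0 ≤ B := by
  obtain ⟨a, h1, h2, h3⟩ := h
  refine le_trans ?_ h2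
  exact Finset.sum_nonneg fun i _ => abs_nonneg _

lemma RepP.zero (p : List Bool → Prop) : RepP p 0 0 := by
  refine ⟨0, ?_, ?_, ?_⟩
  · simp
  · simp
  · simp

/-- the sum of two finsupps; `|s + t| ≤ |s| + |t|` -/
lemma RepP.add {p : List Bool → Prop} {B B' x y : ℝ} (h : RepP p B x) (h' : RepP p B' y) :
    RepP p (B + B') (x + y) := by
  obtain ⟨a, h1, h2, h3⟩ := h
  obtain ⟨b, h4, h5, h6⟩ := h'
  refine ⟨a + b, ?_, ?_, ?_⟩
  · intro z hz
    rcases Finset.mem_union.mp (Finsupp.support_add hz) with h | h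
    · exact h1 z h
    · exact h4 z h
  · exact (R1_norm_add a b).trans (add_le_add h2 h5)
  · rw [h3, h6, Finsupp.sum_add_index']
    · simp
    · intro z s t
      push_cast
      ring

lemma RepP.zsmul {p : List Bool → Prop} {B x : ℝ} (n : ℤ) (h : RepP p B x) : RepP p (|(n : ℝ)| * B) (n * x) := by
  obtain ⟨a, h1, h2, h3⟩ := h
  refine ⟨n • a, ?_, ?_, ?_⟩
  · intro z hz
    exact h1 z (Finsupp.support_smul hz)
  · rw [Finsupp.sum_smul_index' (by simp)]
    have h4 : (a.sum fun _ t => |((n • t : ℤ) : ℝ)|) = |(n : ℝ)| * (a.sum fun _ t => |(t : ℝ)|) := by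
      rw [Finsupp.sum, Finsupp.sum, Finset.mul_sum]
      apply Finset.sum_congr rfl
      intro z _
      rw [smul_eq_mul, Int.cast_mul, abs_mul]
    rw [h4]
    exact mul_le_mul_of_nonneg_left h2 (abs_nonneg _)
  · rw [Finsupp.sum_smul_index' (by simp), h3, Finsupp.sum, Finsupp.sum, Finset.mul_sum]
    apply Finset.sum_congr rfl
    intro z _
    rw [smul_eq_mul, Int.cast_mul, mul_assoc]

lemma RepP.sub {p : List Bool → Prop} {B B' x y : ℝ} (h : RepP p B x) (h' : RepP p B' y) :
    RepP p (B + B') (x - y) := by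
  have h1 := h.add (h'.zsmul (-1))
  have h2 : |((-1 : ℤ) : ℝ)| * B' = B' := by simp
  have h3 : x + ((-1 : ℤ) : ℝ) * y = x - y := by push_cast; ring
  rwa [h2, h3] at h1

lemma RepP.sum {ι : Type*} (s : Finset ι) {p : List Bool → Prop} (B x : ι → ℝ)
    (h : ∀ i ∈ s, RepP p (B i) (x i)) : RepP p (∑ i ∈ s, B i) (∑ i ∈ s, x i) := by
  classical
  induction s using Finset.induction_on with
  | empty => simpa using RepP.zero p
  | insert i s hi ih =>
    rw [Finset.sum_insert hi, Finset.sum_insert hi]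
    exact (h i (Finset.mem_insert_self i s)).add
      (ih fun j hj => h j (Finset.mem_insert_of_mem hj))

/-- `Finsupp.single z 1` -/
lemma RepP.zr {p : List Bool → Prop} (z : List Bool) (h : p z) :
    RepP p 1 (zr z) := by
  refine ⟨Finsupp.single z 1, ?_, ?_, ?_⟩
  · intro y hy
    have h1 : y = z := by
      have := Finsupp.support_single_subset hy
      simpa using this
    rw [h1]
    exact h
  · rw [Finsupp.sum_single_index (by simp)]
    simp
  · rw [Finsupp.sum_single_index (by simp)]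
    simp

/-- `zr [] = 1` -/
lemma RepP.int {p : List Bool → Prop} (hp : p []) (n : ℤ) : RepP p |(n : ℝ)| n := by
  have h1 := (RepP.zr (p := p) [] hp).zsmul n
  rwa [R1_zr_nil, mul_one, mul_one] at h1

end MZG
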