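import Pool.Agent.Lib.MP_e54452_nt.DG.CRa
import Pool.Agent.Lib.MP_e54452_nt.DG.CRb
import Pool.Agent.Lib.MP_e54452_nt.DF.R1F

/-!
# Row CRa, CRb: the criterion
-/

set_option autoImplicit false

namespace MZG

open Finset Module
open scoped ENNReal Nat Polynomial

/-- finitely many words of length at most `W` -/
theorem MP_finite (p : List Bool → Prop) (hfin : {z | p z}.Finite) :
    FiniteDimensional ℚ (MP p) := by
  unfold MP
  apply FiniteDimensional.span_of_finite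
  apply (hfin.image zr).subset
  rintro x ⟨z, hl, rfl⟩
  exact ⟨z, hl, rfl⟩

theorem CRF_mem {p : List Bool → Prop} (z : List Bool) (h : p z) : zr z ∈ MP p :=
  Submodule.subset_span ⟨z, h, rfl⟩

open Classical in
noncomputable def CRF_f (p : List Bool → Prop) (z : List Bool) : MP p :=
  if h : p z then ⟨zr z, CRF_mem z h⟩ else 0

theorem CRF_f_coe {p : List Bool → Prop} (z : List Bool) (h : p z) :
    ((CRF_f p z : MP p) : ℝ) = zr z := by
  unfold CRF_f
  rw [dif_pos h]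

theorem CRF_eq {p : List Bool → Prop} (a : List Bool →₀ ℤ)
    (ha : ∀ z ∈ a.support, p z) (x : MP p)
    (hx : (x : ℝ) = a.sum fun z t => (t : ℝ) * zr z) :
    x = ∑ z ∈ a.support, ((a z : ℤ) : ℚ) • CRF_f p z := by
  apply Subtype.ext
  rw [hx, Submodule.coe_sum, Finsupp.sum]
  apply Finset.sum_congr rfl
  intro z hz
  rw [Submodule.coe_smul, CRF_f_coe z (ha z hz), Rat.smul_def]
  push_cast
  rfl

/-- Let `d = finrank (MP p)`, `b` a basis of `MP p` indexed by `Fin d` (`Module.finBasis`), `q > 0` a common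
denominator of all coordinates of the finitely many `zr z` (`adm z`, `|z| ≤ W`), `C ≥ 1` larger than
all the integers `|q * coordinate|`. For `x = ∑ a_z zr z` (`Rep`) the numbers
`q * coordinate_j (x)` are integers of absolute value at most `C * H`. Here `ph j` is the `j`-th
coordinate of `b`, multiplied by `q`; jointly injective on `MP p`. -/
theorem coordsF (p : List Bool → Prop) (hfin : {z | p z}.Finite) :
    ∃ ph : Fin (finrank ℚ (MP p)) → (MP p →ₗ[ℚ] ℚ), ∃ C : ℝ, 1 ≤ C ∧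
    (∀ x : MP p, (∀ j, ph j x = 0) → x = 0) ∧
    ∀ (H : ℝ) (x : MP p), RepP p H (x : ℝ) → ∀ j, ∃ z : ℤ, ph j x = z ∧ |(z : ℝ)| ≤ C * H := by
  classical
  have := MP_finite p hfin
  let b := Module.finBasis ℚ (MP p)
  let S : Finset (List Bool) := hfin.toFinset
  let g : Fin (finrank ℚ (MP p)) → List Bool → ℚ := fun j z => b.coord j (CRF_f p z)
  let q : ℕ := ∏ z ∈ S, ∏ j, (g j z).den
  have hq : q ≠ 0 := by
    apply Finset.prod_ne_zero_iff.2
    intro z _
    apply Finset.prod_ne_zero_iff.2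
    intro j _
    exact (g j z).den_nz
  have hint : ∀ z ∈ S, ∀ j, ∃ t : ℤ, (q : ℚ) * g j z = t := by
    intro z hz j
    have h1 : (g j z).den ∣ q :=
      (Finset.dvd_prod_of_mem (fun j => (g j z).den) (Finset.mem_univ j)).trans
        (Finset.dvd_prod_of_mem (fun z => ∏ j, (g j z).den) hz)
    obtain ⟨k, hk⟩ := h1
    refine ⟨k * (g j z).num, ?_⟩
    rw [hk]
    push_cast
    have h2 : ((g j z).den : ℚ) * g j z = (g j z).num := Rat.den_mul_eq_num (g j z)
    calc ((g j z).den : ℚ) * k * g j z = k * (((g j z).den : ℚ) * g j z) := by ring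
      _ = k * (g j z).num := by rw [h2]
  let C : ℝ := 1 + ∑ z ∈ S, ∑ j, |(((q : ℚ) * g j z : ℚ) : ℝ)|
  have hC0 : ∀ z ∈ S, ∀ j, |(((q : ℚ) * g j z : ℚ) : ℝ)| ≤ C := by
    intro z hz j
    have h1 : |(((q : ℚ) * g j z : ℚ) : ℝ)| ≤ ∑ j, |(((q : ℚ) * g j z : ℚ) : ℝ)| :=
      Finset.single_le_sum (f := fun j => |(((q : ℚ) * g j z : ℚ) : ℝ)|)
        (fun _ _ => abs_nonneg _) (Finset.mem_univ j)
    have h2 : ∑ j, |(((q : ℚ) * g j z : ℚ) : ℝ)| ≤
        ∑ z ∈ S, ∑ j, |(((q : ℚ) * g j z : ℚ) : ℝ)| :=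
      Finset.single_le_sum (f := fun z => ∑ j, |(((q : ℚ) * g j z : ℚ) : ℝ)|)
        (fun _ _ => Finset.sum_nonneg fun _ _ => abs_nonneg _) hz
    show _ ≤ 1 + ∑ z ∈ S, ∑ j, |(((q : ℚ) * g j z : ℚ) : ℝ)|
    linarith
  have hC1 : 1 ≤ C := by
    have : 0 ≤ ∑ z ∈ S, ∑ j, |(((q : ℚ) * g j z : ℚ) : ℝ)| :=
      Finset.sum_nonneg fun _ _ => Finset.sum_nonneg fun _ _ => abs_nonneg _
    show 1 ≤ 1 + ∑ z ∈ S, ∑ j, |(((q : ℚ) * g j z : ℚ) : ℝ)|
    linarith
  refine ⟨fun j => (q : ℚ) • b.coord j, C, hC1, ?_, ?_⟩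
  · intro x hx
    apply b.ext_elem
    intro j
    have h1 := hx j
    rw [LinearMap.smul_apply, smul_eq_mul, mul_eq_zero] at h1
    rcases h1 with h1 | h1
    · exact absurd (by exact_mod_cast h1) hq
    · rw [Basis.coord_apply] at h1
      rw [h1]
      simp
  · rintro H x ⟨a, ha, hB, hx⟩ j
    have hxe := CRF_eq a ha x hx
    have hS : ∀ z ∈ a.support, z ∈ S := by
      intro z hz
      exact (Set.Finite.mem_toFinset _).2 (ha z hz)
    have hval : ((q : ℚ) • b.coord j) x = ∑ z ∈ a.support, ((a z : ℤ) : ℚ) * ((q : ℚ) * g j z) := by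
      conv_lhs => rw [hxe]
      rw [map_sum]
      apply Finset.sum_congr rfl
      intro z _
      rw [map_smul, LinearMap.smul_apply, smul_eq_mul, smul_eq_mul]
    choose! t ht using hint
    refine ⟨∑ z ∈ a.support, a z * t z j, ?_, ?_⟩
    · show ((q : ℚ) • b.coord j) x = _
      rw [hval]
      push_cast
      apply Finset.sum_congr rfl
      intro z hz
      rw [ht z (hS z hz) j]
    · push_cast
      calc |∑ z ∈ a.support, ((a z : ℤ) : ℝ) * (t z j : ℝ)|
          ≤ ∑ z ∈ a.support, |((a z : ℤ) : ℝ) * (t z j : ℝ)| := Finset.abs_sum_le_sum_abs _ _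
        _ ≤ ∑ z ∈ a.support, C * |((a z : ℤ) : ℝ)| := by
            apply Finset.sum_le_sum
            intro z hz
            rw [abs_mul, mul_comm]
            apply mul_le_mul_of_nonneg_right _ (abs_nonneg _)
            have h3 := hC0 z (hS z hz) j
            rw [ht z (hS z hz) j] at h3
            exact_mod_cast h3
        _ = C * ∑ z ∈ a.support, |((a z : ℤ) : ℝ)| := by rw [Finset.mul_sum]
        _ ≤ C * H := by
            apply mul_le_mul_of_nonneg_left _ (by linarith)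
            exact hB

/-- members of `MP p` -/
theorem RepP.mem {p : List Bool → Prop} {B x : ℝ} (h : RepP p B x) : x ∈ MP p := by
  obtain ⟨a, ha, _, hx⟩ := h
  rw [hx, Finsupp.sum]
  apply Submodule.sum_mem
  intro z hz
  have h1 := (MP p).smul_mem ((a z : ℤ) : ℚ) (CRF_mem z (ha z hz))
  rw [Rat.smul_def] at h1
  simpa using h1

/-- `coords`, `cramer_bound` for `V = MP p`, `e = 1` (`Rep W 1 1`, `Rep.int`), `G` = the set of the
`zr z`, `S` = the given set (inside `MP p` by `Rep.mem`), `A = C0 * H`. Then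
`1 = |∑ c_i y_i| ≤ d * d! (C0 H)^d ε`. Take `C = max C0 (d * d!)`. -/
theorem criterionF (p : List Bool → Prop) (hfin : {z | p z}.Finite) (hp0 : p []) : ∃ C : ℝ, 1 ≤ C ∧ ∀ (S : Set ℝ) (H ε : ℝ), 1 ≤ H → 0 ≤ ε →
    (∀ y ∈ S, RepP p H y) → (∀ y ∈ S, |y| ≤ ε) → (1 : ℝ) ∈ Submodule.span ℚ S →
    1 ≤ (C * H) ^ (finrank ℚ (MP p)) * (C * ε) := by
  classical
  have hfd := MP_finite p hfin
  obtain ⟨ph, C0, hC0, hinj, hint⟩ := coordsF p hfin
  refine ⟨max C0 (((finrank ℚ (MP p) : ℕ) : ℝ) * (((finrank ℚ (MP p))! : ℕ) : ℝ)), le_max_of_le_left hC0, ?_⟩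
  intro S H ε hH hε hrep hsmall hone
  have hRep1 : RepP p H 1 := by
    have h := RepP.int hp0 1
    simp only [Int.cast_one, abs_one] at h
    exact h.mono hH
  have hmem1 : (1 : ℝ) ∈ MP p := hRep1.mem
  obtain ⟨e, he⟩ : ∃ e : MP p, (e : ℝ) = 1 := ⟨⟨1, hmem1⟩, rfl⟩
  obtain ⟨S', hS'⟩ : ∃ S' : Set (MP p), S' = {y : MP p | (y : ℝ) ∈ S} := ⟨_, rfl⟩
  obtain ⟨G, hG⟩ : ∃ G : Set (MP p), G = {y : MP p | ∃ z : List Bool, p z ∧
      (y : ℝ) = zr z} := ⟨_, rfl⟩
  have hspanG : Submodule.span ℚ G = ⊤ := by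
    apply Submodule.map_injective_of_injective (MP p).injective_subtype
    rw [Submodule.map_span, Submodule.map_top, Submodule.range_subtype]
    unfold MP
    congr 1
    ext x
    constructor
    · rintro ⟨y, hy, rfl⟩
      rw [hG] at hy
      exact hy
    · rintro ⟨z, hz, rfl⟩
      refine ⟨⟨zr z, Submodule.subset_span ⟨z, hz, rfl⟩⟩, ?_, rfl⟩
      rw [hG]
      exact ⟨z, hz, rfl⟩
  have hspanS : e ∈ Submodule.span ℚ S' := by
    have h1 : Submodule.map (MP p).subtype (Submodule.span ℚ S') = Submodule.span ℚ S := by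
      rw [Submodule.map_span]
      congr 1
      ext x
      constructor
      · rintro ⟨y, hy, rfl⟩
        rw [hS'] at hy
        exact hy
      · intro hx
        refine ⟨⟨x, (hrep x hx).mem⟩, ?_, rfl⟩
        rw [hS']
        exact hx
    rw [← h1] at hone
    obtain ⟨y, hy, hy1⟩ := hone
    have h2 : y = e := by
      apply Subtype.ext
      rw [he]
      exact hy1
    rw [← h2]
    exact hy
  obtain ⟨y, c, hc, hsum, hcb⟩ := cramer_bound ph hinj S' G e (C0 * H) hspanG hspanS (by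
    intro x hx j
    apply hint H x
    rcases hx with hx | hx | hx
    · rw [hx, he]
      exact hRep1
    · rw [hS'] at hx
      exact hrep _ hx
    · rw [hG] at hx
      obtain ⟨z, hz, hz''⟩ := hx
      rw [hz'']
      exact (RepP.zr z hz).mono hH)
  have hA : 0 ≤ (((finrank ℚ (MP p))! : ℕ) : ℝ) * (C0 * H) ^ (finrank ℚ (MP p)) := by positivity
  have h1 : (1 : ℝ) = ∑ i, (c i : ℝ) * (y i : ℝ) := by
    rw [← he, hsum]
    simp only [AddSubmonoidClass.coe_finsetSum, Submodule.coe_smul]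
    refine Finset.sum_congr rfl fun i _ => ?_
    rw [Rat.smul_def]
  have h2 : (1 : ℝ) ≤ ∑ _i : Fin (finrank ℚ (MP p)), (((finrank ℚ (MP p))! : ℕ) : ℝ) * (C0 * H) ^ (finrank ℚ (MP p)) * ε := by
    rw [h1]
    refine Finset.sum_le_sum fun i _ => ?_
    rcases hc i with h0 | hyS
    · rw [h0]
      simp only [Rat.cast_zero, zero_mul]
      exact mul_nonneg hA hε
    · rw [hS'] at hyS
      calc (c i : ℝ) * (y i : ℝ) ≤ |(c i : ℝ) * (y i : ℝ)| := le_abs_self _
        _ = |(c i : ℝ)| * |(y i : ℝ)| := abs_mul _ _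
        _ ≤ (((finrank ℚ (MP p))! : ℕ) : ℝ) * (C0 * H) ^ (finrank ℚ (MP p)) * ε :=
          mul_le_mul (hcb i) (hsmall _ hyS) (abs_nonneg _) hA
  rw [Finset.sum_const, Finset.card_univ, Fintype.card_fin, nsmul_eq_mul] at h2
  refine h2.trans ?_
  have hC0' : 0 ≤ C0 := by linarith
  have hH' : 0 ≤ H := by linarith
  calc ((finrank ℚ (MP p) : ℕ) : ℝ) * ((((finrank ℚ (MP p))! : ℕ) : ℝ) * (C0 * H) ^ (finrank ℚ (MP p)) * ε) = (C0 * H) ^ (finrank ℚ (MP p)) * ((((finrank ℚ (MP p) : ℕ) : ℝ) * (((finrank ℚ (MP p))! : ℕ) : ℝ)) * ε) := by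
        ring
    _ ≤ (max C0 (((finrank ℚ (MP p) : ℕ) : ℝ) * (((finrank ℚ (MP p))! : ℕ) : ℝ)) * H) ^ (finrank ℚ (MP p)) * (max C0 (((finrank ℚ (MP p) : ℕ) : ℝ) * (((finrank ℚ (MP p))! : ℕ) : ℝ)) * ε) := by
        gcongr
        · exact le_max_left _ _
        · exact le_max_right _ _

end MZG
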