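import Pool.Agent.Lib.MP_e54452_nt.DG.SZa
import Pool.Agent.Lib.MP_e54452_nt.DG.SZb

/-!
# Row dz-N3: the form is small if the first coefficients are small
-/

set_option autoImplicit false

namespace MZG

open Finset
open scoped ENNReal Nat Polynomial

lemma n3_bt_one (i : ℕ) : (bt i 1).toReal ≤ 1 := by
  unfold bt
  rw [ENNReal.toReal_ofReal (by positivity)]
  rw [div_le_one (by positivity)]
  have h1 : (i ! * 1 ! : ℕ) ≤ (i + 1 + 1)! := by
    rw [Nat.factorial_one, mul_one]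
    exact Nat.factorial_le (by omega)
  exact_mod_cast h1

lemma n3_row (i : ℕ) : HasSum (fun l : ℕ => (bt (i + 1) (l + 1)).toReal) (bt i 1).toReal := by
  have hT : ∑' t, bt (i + 1) (t + 1) = bt i 1 := by
    have := bt_tele' i 1
    rw [← this]
    exact tsum_congr fun t => by rw [add_comm 1 t]
  have hfin : bt i 1 ≠ ∞ := bt_ne_top i 1
  have hne : ∑' t, bt (i + 1) (t + 1) ≠ ∞ := by rw [hT]; exact hfin
  have h1 := ENNReal.hasSum_toReal hne
  have h2 : ∑' t : ℕ, (bt (i + 1) (t + 1)).toReal = (bt i 1).toReal := by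
    rw [← hT]
    exact (ENNReal.tsum_toReal_eq (fun q => ENNReal.ne_top_of_tsum_ne_top hne q)).symm
  rw [h2] at h1
  exact h1

/-- one row of the double series -/
lemma n3_row2 (i : ℕ) : HasSum (fun p : ℕ × ℕ => if p.1 = i + 1 ∧ 1 ≤ p.2 then
    (bt p.1 p.2).toReal else 0) (bt i 1).toReal := by
  have hinj : Function.Injective (fun l : ℕ => ((i + 1, l + 1) : ℕ × ℕ)) := by
    intro a b hab
    simp only [Prod.mk.injEq, Nat.add_right_cancel_iff, true_and] at hab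
    exact hab
  refine (hinj.hasSum_iff ?_).1 ?_
  · intro x hx
    rw [if_neg]
    rintro ⟨h1, h2⟩
    apply hx
    exact ⟨x.2 - 1, Prod.ext h1.symm (by show x.2 - 1 + 1 = x.2; omega)⟩
  · have h := n3_row i
    have e : ((fun p : ℕ × ℕ => if p.1 = i + 1 ∧ 1 ≤ p.2 then (bt p.1 p.2).toReal else 0) ∘
        fun l : ℕ => ((i + 1, l + 1) : ℕ × ℕ)) = fun l : ℕ => (bt (i + 1) (l + 1)).toReal := by
      funext l
      simp
    rw [e]
    exact h

/-- the first rows -/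
lemma n3_rows (m : ℕ) : HasSum (fun p : ℕ × ℕ => if 1 ≤ p.1 ∧ p.1 < m ∧ 1 ≤ p.2 then
    (bt p.1 p.2).toReal else 0) (∑ i ∈ range (m - 1), (bt i 1).toReal) := by
  have h := hasSum_sum (s := range (m - 1)) (fun i _ => n3_row2 i)
  have e : (fun p : ℕ × ℕ => if 1 ≤ p.1 ∧ p.1 < m ∧ 1 ≤ p.2 then (bt p.1 p.2).toReal else 0) =
      fun p : ℕ × ℕ => ∑ i ∈ range (m - 1), if p.1 = i + 1 ∧ 1 ≤ p.2 then
        (bt p.1 p.2).toReal else 0 := by
    funext p
    by_cases hp : 1 ≤ p.1 ∧ p.1 < m ∧ 1 ≤ p.2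
    · rw [if_pos hp, Finset.sum_eq_single (p.1 - 1)]
      · rw [if_pos ⟨by omega, hp.2.2⟩]
      · intro b _ hb
        rw [if_neg]
        rintro ⟨h1, _⟩
        omega
      · intro hc
        exfalso
        apply hc
        rw [Finset.mem_range]
        omega
    · rw [if_neg hp]
      symm
      apply Finset.sum_eq_zero
      intro b hb
      rw [Finset.mem_range] at hb
      rw [if_neg]
      rintro ⟨h1, h2⟩
      apply hp
      omega
  rw [e]
  exact h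

lemma n3_cols (m : ℕ) : HasSum (fun p : ℕ × ℕ => if 1 ≤ p.2 ∧ p.2 < m ∧ 1 ≤ p.1 then
    (bt p.1 p.2).toReal else 0) (∑ i ∈ range (m - 1), (bt i 1).toReal) := by
  have h := n3_rows m
  have h2 := (Equiv.prodComm ℕ ℕ).hasSum_iff.2 h
  have e : (fun p : ℕ × ℕ => if 1 ≤ p.2 ∧ p.2 < m ∧ 1 ≤ p.1 then (bt p.1 p.2).toReal else 0) =
      (fun p : ℕ × ℕ => if 1 ≤ p.1 ∧ p.1 < m ∧ 1 ≤ p.2 then (bt p.1 p.2).toReal else 0) ∘
        (Equiv.prodComm ℕ ℕ) := by
    funext q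
    show _ = if 1 ≤ q.2 ∧ q.2 < m ∧ 1 ≤ q.1 then (bt q.2 q.1).toReal else 0
    rw [bt_symm q.2 q.1]
  rw [e]
  exact h2

lemma n3_corner (p : ℕ) : HasSum (fun q : ℕ × ℕ => if p + 1 ≤ q.1 ∧ p + 1 ≤ q.2 then
    (bt q.1 q.2).toReal else 0) (bt p p).toReal := by
  have hT : ∑' q : ℕ × ℕ, bt (p + 1 + q.1) (p + 1 + q.2) = bt p p := by
    rw [← tsum_bt_tail p]
    exact ENNReal.tsum_prod (f := fun k l => bt (p + 1 + k) (p + 1 + l))
  have hne : ∑' q : ℕ × ℕ, bt (p + 1 + q.1) (p + 1 + q.2) ≠ ∞ := by rw [hT]; exact bt_ne_top p p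
  have h1 := ENNReal.hasSum_toReal hne
  have h2 : ∑' q : ℕ × ℕ, (bt (p + 1 + q.1) (p + 1 + q.2)).toReal = (bt p p).toReal := by
    rw [← hT]
    exact (ENNReal.tsum_toReal_eq (fun q => ENNReal.ne_top_of_tsum_ne_top hne q)).symm
  rw [h2] at h1
  have hinj : Function.Injective (fun q : ℕ × ℕ => ((p + 1 + q.1, p + 1 + q.2) : ℕ × ℕ)) := by
    intro a b hab
    simp only [Prod.mk.injEq, Nat.add_left_cancel_iff] at hab
    exact Prod.ext hab.1 hab.2
  refine (hinj.hasSum_iff ?_).1 ?_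
  · intro x hx
    rw [if_neg]
    rintro ⟨h1, h2⟩
    apply hx
    exact ⟨(x.1 - (p + 1), x.2 - (p + 1)), Prod.ext (by show p + 1 + (x.1 - (p + 1)) = x.1; omega)
      (by show p + 1 + (x.2 - (p + 1)) = x.2; omega)⟩
  · have e : ((fun q : ℕ × ℕ => if p + 1 ≤ q.1 ∧ p + 1 ≤ q.2 then (bt q.1 q.2).toReal else 0) ∘
        fun q : ℕ × ℕ => ((p + 1 + q.1, p + 1 + q.2) : ℕ × ℕ)) =
        fun q : ℕ × ℕ => (bt (p + 1 + q.1) (p + 1 + q.2)).toReal := by
      funext q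
      show (if p + 1 ≤ p + 1 + q.1 ∧ p + 1 ≤ p + 1 + q.2 then _ else _) = _
      rw [if_pos ⟨by omega, by omega⟩]
    rw [e]
    exact h1

theorem small_sum (m : ℕ) (hm : 1 ≤ m) (u v : ℕ → ℝ) (K : ℝ) (hK : 1 ≤ K)
    (hu : ∀ k, |u k| ≤ K) (hv : ∀ k, |v k| ≤ K) (hu0 : u 0 = 0) (hv0 : v 0 = 0)
    (hu1 : ∀ k < m, |u k| ≤ 1 / 8 ^ m) (hv1 : ∀ k < m, |v k| ≤ 1 / 8 ^ m) (B : ℝ)
    (hB : HasSum (fun p : ℕ × ℕ => u p.1 * v p.2 * (bt p.1 p.2).toReal) B) :
    |B| ≤ 2 * K ^ 2 * (1 / 4) ^ (m - 1) := by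
  obtain ⟨p, rfl⟩ : ∃ p, m = p + 1 := ⟨m - 1, by omega⟩
  rw [Nat.add_sub_cancel]
  have hK0 : 0 ≤ K := by linarith
  have g1 := (n3_corner p).mul_left (K ^ 2)
  have g2 := (n3_rows (p + 1)).mul_left (K * (1 / 8 ^ (p + 1)))
  have g3 := (n3_cols (p + 1)).mul_left (K * (1 / 8 ^ (p + 1)))
  rw [Nat.add_sub_cancel] at g2 g3
  have g := (g1.add g2).add g3
  have hle := hB.norm_le_of_bounded g (fun q => by
    rw [Real.norm_eq_abs, abs_mul, abs_mul]
    have hb : 0 ≤ (bt q.1 q.2).toReal := ENNReal.toReal_nonneg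
    rw [abs_of_nonneg hb]
    have hδ : (0 : ℝ) ≤ 1 / 8 ^ (p + 1) := by positivity
    by_cases hq1 : q.1 = 0
    · rw [hq1, hu0]
      simp only [abs_zero, zero_mul]
      positivity
    by_cases hq2 : q.2 = 0
    · rw [hq2, hv0]
      simp only [abs_zero, mul_zero, zero_mul]
      positivity
    by_cases h1 : q.1 < p + 1
    · have e1 : |u q.1| * |v q.2| ≤ K * (1 / 8 ^ (p + 1)) := by
        rw [mul_comm]
        exact mul_le_mul (hv _) (hu1 _ h1) (abs_nonneg _) hK0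
      have e2 : (if 1 ≤ q.1 ∧ q.1 < p + 1 ∧ 1 ≤ q.2 then (bt q.1 q.2).toReal else 0) =
          (bt q.1 q.2).toReal := if_pos ⟨by omega, h1, by omega⟩
      have e3 : (0 : ℝ) ≤ K ^ 2 * (if p + 1 ≤ q.1 ∧ p + 1 ≤ q.2 then (bt q.1 q.2).toReal else 0) := by
        split_ifs <;> positivity
      have e4 : (0 : ℝ) ≤ K * (1 / 8 ^ (p + 1)) *
          (if 1 ≤ q.2 ∧ q.2 < p + 1 ∧ 1 ≤ q.1 then (bt q.1 q.2).toReal else 0) := by
        split_ifs <;> positivity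
      have e5 := mul_le_mul_of_nonneg_right e1 hb
      rw [e2]
      linarith
    · by_cases h2 : q.2 < p + 1
      · have e1 : |u q.1| * |v q.2| ≤ K * (1 / 8 ^ (p + 1)) :=
          mul_le_mul (hu _) (hv1 _ h2) (abs_nonneg _) hK0
        have e2 : (if 1 ≤ q.2 ∧ q.2 < p + 1 ∧ 1 ≤ q.1 then (bt q.1 q.2).toReal else 0) =
            (bt q.1 q.2).toReal := if_pos ⟨by omega, h2, by omega⟩
        have e3 : (0 : ℝ) ≤ K ^ 2 * (if p + 1 ≤ q.1 ∧ p + 1 ≤ q.2 then (bt q.1 q.2).toReal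
            else 0) := by
          split_ifs <;> positivity
        have e4 : (0 : ℝ) ≤ K * (1 / 8 ^ (p + 1)) *
            (if 1 ≤ q.1 ∧ q.1 < p + 1 ∧ 1 ≤ q.2 then (bt q.1 q.2).toReal else 0) := by
          split_ifs <;> positivity
        have e5 := mul_le_mul_of_nonneg_right e1 hb
        rw [e2]
        linarith
      · have e1 : |u q.1| * |v q.2| ≤ K ^ 2 := by
          rw [sq]
          exact mul_le_mul (hu _) (hv _) (abs_nonneg _) hK0
        have e2 : (if p + 1 ≤ q.1 ∧ p + 1 ≤ q.2 then (bt q.1 q.2).toReal else 0) =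
            (bt q.1 q.2).toReal := if_pos ⟨by omega, by omega⟩
        have e3 : (0 : ℝ) ≤ K * (1 / 8 ^ (p + 1)) *
            (if 1 ≤ q.1 ∧ q.1 < p + 1 ∧ 1 ≤ q.2 then (bt q.1 q.2).toReal else 0) := by
          split_ifs <;> positivity
        have e4 : (0 : ℝ) ≤ K * (1 / 8 ^ (p + 1)) *
            (if 1 ≤ q.2 ∧ q.2 < p + 1 ∧ 1 ≤ q.1 then (bt q.1 q.2).toReal else 0) := by
          split_ifs <;> positivity
        have e5 := mul_le_mul_of_nonneg_right e1 hb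
        rw [e2]
        linarith)
  rw [Real.norm_eq_abs] at hle
  refine hle.trans ?_
  have hsum : ∑ i ∈ range p, (bt i 1).toReal ≤ p := by
    have := Finset.sum_le_card_nsmul (range p) (fun i => (bt i 1).toReal) 1
      (fun i _ => n3_bt_one i)
    rw [Finset.card_range, nsmul_eq_mul, mul_one] at this
    exact this
  have hdiag : (bt p p).toReal ≤ (1 / 4) ^ p := by
    have := ENNReal.toReal_mono ENNReal.ofReal_ne_top (bt_diag p)
    rwa [ENNReal.toReal_ofReal (by positivity)] at this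
  have hp2 : (p : ℝ) ≤ 2 ^ p := by
    have : p < 2 ^ p := Nat.lt_two_pow_self
    exact_mod_cast this.le
  have e8 : (1 : ℝ) / 8 ^ (p + 1) = (1 / 8) * ((1 / 4) ^ p * (1 / 2) ^ p) := by
    rw [← mul_pow, ← one_div_pow, pow_succ]
    norm_num
    ring
  have hδp : K * (1 / 8 ^ (p + 1)) * (∑ i ∈ range p, (bt i 1).toReal) ≤
      (1 / 8) * (K ^ 2 * (1 / 4) ^ p) := by
    have h1 : K * (1 / 8 ^ (p + 1)) * (∑ i ∈ range p, (bt i 1).toReal) ≤
        K * (1 / 8 ^ (p + 1)) * 2 ^ p :=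
      mul_le_mul_of_nonneg_left (hsum.trans hp2) (by positivity)
    refine h1.trans ?_
    rw [e8]
    have h2 : (1 / 2 : ℝ) ^ p * 2 ^ p = 1 := by rw [← mul_pow]; norm_num
    have h3 : K * (1 / 8 * ((1 / 4) ^ p * (1 / 2) ^ p)) * 2 ^ p =
        1 / 8 * (K * (1 / 4) ^ p) * ((1 / 2 : ℝ) ^ p * 2 ^ p) := by ring
    rw [h3, h2, mul_one]
    have h4 : K ≤ K ^ 2 := by nlinarith
    have h5 : K * (1 / 4 : ℝ) ^ p ≤ K ^ 2 * (1 / 4) ^ p :=
      mul_le_mul_of_nonneg_right h4 (by positivity)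
    linarith
  have h6 : K ^ 2 * (bt p p).toReal ≤ K ^ 2 * (1 / 4) ^ p :=
    mul_le_mul_of_nonneg_left hdiag (by positivity)
  have h7 : 0 ≤ K ^ 2 * (1 / 4 : ℝ) ^ p := by positivity
  linarith

end MZG
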