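import Pool.Agent.Lib.MP_e54452_nt.DG.SZc
import Pool.Agent.Lib.MP_e54452_nt.DF.Defs
import Pool.Agent.Lib.MP_e54452_nt.DF.N3

/-!
# The form as a double series, two families
-/

set_option autoImplicit false

namespace MZG

open Finset
open scoped ENNReal Nat Polynomial

/-- finite linear combination of `sx_hasSum` (`hasSum_sum`, `HasSum.mul_left`), `cu` is the finite sum
of the `cc` -/
theorem BF_hasSum {A B : Finset (List Bool)} {s : ℕ} (hA : Fam A s) (hB : Fam B s) {n : ℕ}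
    (t : IdF A n → ℚ) (t' : IdF B n → ℚ) :
    HasSum (fun p : ℕ × ℕ => ((cF t p.1 : ℚ) : ℝ) * ((cF t' p.2 : ℚ) : ℝ) *
      (bt p.1 p.2).toReal) (BF t t') := by
  have h : HasSum (fun p : ℕ × ℕ => ∑ x : IdF A n, ∑ y : IdF B n, (t x : ℝ) * (t' y : ℝ) *
      (((cc x.1 x.2 p.1 : ℚ) : ℝ) * ((cc y.1 y.2 p.2 : ℚ) : ℝ) * (bt p.1 p.2).toReal))
      (BF t t') := by
    unfold BF
    refine hasSum_sum fun x _ => hasSum_sum fun y _ => ?_
    exact (sx_hasSum x.2 y.2 x.1 y.1 (hA.good x.1 x.1.2)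
      (hB.good y.1 y.1.2)).mul_left _
  have h2 : (fun p : ℕ × ℕ => ((cF t p.1 : ℚ) : ℝ) * ((cF t' p.2 : ℚ) : ℝ) *
      (bt p.1 p.2).toReal) = fun p : ℕ × ℕ => ∑ x : IdF A n, ∑ y : IdF B n,
      (t x : ℝ) * (t' y : ℝ) *
      (((cc x.1 x.2 p.1 : ℚ) : ℝ) * ((cc y.1 y.2 p.2 : ℚ) : ℝ) * (bt p.1 p.2).toReal) := by
    funext p
    unfold cF
    push_cast
    rw [Finset.sum_mul_sum, Finset.sum_mul]
    refine Finset.sum_congr rfl fun x _ => ?_
    rw [Finset.sum_mul]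
    refine Finset.sum_congr rfl fun y _ => ?_
    ring
  rw [h2]
  exact h

/-- `0 ≤ cc ≤ 1` (`c_nonneg`, `c_le_one`) -/
lemma cF_le {F : Finset (List Bool)} {n : ℕ} (t : IdF F n → ℚ) (K0 : ℝ) (hK : ∀ x, |(t x : ℝ)| ≤ K0) (k : ℕ) :
    |((cF t k : ℚ) : ℝ)| ≤ Fintype.card (IdF F n) * K0 := by
  have hcc : ∀ (w : List Bool) (i : ℕ), |((cc w i k : ℚ) : ℝ)| ≤ 1 := by
    intro w i
    have h0 : (0 : ℚ) ≤ cc w i k := by
      unfold cc
      split_ifs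
      · exact c_nonneg _ _
      · exact le_refl _
    have h1 : cc w i k ≤ 1 := by
      unfold cc
      split_ifs
      · exact c_le_one _ _
      · exact zero_le_one
    rw [abs_of_nonneg (by exact_mod_cast h0)]
    exact_mod_cast h1
  unfold cF
  push_cast
  refine (Finset.abs_sum_le_sum_abs _ _).trans ?_
  have hb : ∀ x ∈ (Finset.univ : Finset (IdF F n)),
      |(t x : ℝ) * ((cc x.1 x.2 k : ℚ) : ℝ)| ≤ K0 := by
    intro x _
    rw [abs_mul]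
    have h1 := hK x
    have h2 := hcc x.1 x.2
    have h3 := abs_nonneg (t x : ℝ)
    have h4 := abs_nonneg ((cc x.1 x.2 k : ℚ) : ℝ)
    calc |(t x : ℝ)| * |((cc x.1 x.2 k : ℚ) : ℝ)| ≤ |(t x : ℝ)| * 1 :=
          mul_le_mul_of_nonneg_left h2 h3
      _ ≤ K0 := by linarith
  refine (Finset.sum_le_card_nsmul _ _ _ hb).trans ?_
  rw [nsmul_eq_mul, Finset.card_univ]

lemma cF_zero {F : Finset (List Bool)} {n : ℕ} (t : IdF F n → ℚ) (ht : ∀ x, ∃ z : ℤ, t x = z) :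
    ∃ z : ℤ, cF t 0 = z := by
  have h1 : ∀ x : IdF F n, ∃ z : ℤ, t x * cc x.1 x.2 0 = z := by
    intro x
    obtain ⟨z, hz⟩ := ht x
    unfold cc
    split_ifs with h
    · by_cases hw : x.1.1 = []
      · rw [hw]
        have h2 : (0 : ℕ) - (x.2 : ℕ) = 0 := by omega
        rw [h2]
        exact ⟨z, by simp [c, hz]⟩
      · have h2 : (0 : ℕ) - (x.2 : ℕ) = 0 := by omega
        rw [h2, c_zero _ hw]
        exact ⟨0, by simp⟩
    · exact ⟨0, by simp⟩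
  choose z hz using h1
  refine ⟨∑ x, z x, ?_⟩
  unfold cF
  push_cast
  exact Finset.sum_congr rfl fun x _ => hz x

/-- the form is small on the small auxiliary functions -/
theorem BF_small {A B : Finset (List Bool)} {s : ℕ} (hA : Fam A s) (hB : Fam B s) {μ n : ℕ}
    (hμ : 1 ≤ μ) (t : IdF A n → ℚ) (t' : IdF B n → ℚ) (ht : t ∈ TF A s μ n)
    (ht' : t' ∈ TF B s μ n) (K : ℝ) (hK : 1 ≤ K)
    (hKA : Fintype.card (IdF A n) * Real.exp (12 * s * ((n + 1 : ℕ) : ℝ)) ≤ K)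
    (hKB : Fintype.card (IdF B n) * Real.exp (12 * s * ((n + 1 : ℕ) : ℝ)) ≤ K) :
    |BF t t'| ≤ 2 * K ^ 2 * (1 / 4) ^ (μ * (n + 1) - 1) := by
  have hm : 1 ≤ μ * (n + 1) := Nat.mul_pos hμ (Nat.succ_pos n)
  have hz : ∀ {F : Finset (List Bool)} (t : IdF F n → ℚ), t ∈ TF F s μ n → cF t 0 = 0 := by
    intro F t ht
    obtain ⟨z, hz⟩ := cF_zero t ht.1
    have h1 := ht.2.1 0 hm
    rw [hz] at h1
    have h2 : (1 : ℝ) / 8 ^ (μ * (n + 1)) < 1 := by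
      rw [div_lt_one (by positivity)]
      exact one_lt_pow₀ (by norm_num) (by omega)
    have h3 : |((z : ℤ) : ℝ)| < 1 := by
      have h4 : (((z : ℤ) : ℚ) : ℝ) = ((z : ℤ) : ℝ) := by push_cast; rfl
      rw [h4] at h1
      linarith
    have h5 : |z| < 1 := by exact_mod_cast h3
    have h6 : z = 0 := Int.abs_lt_one_iff.1 h5
    rw [hz, h6]
    simp
  refine small_sum (μ * (n + 1)) hm (fun k => ((cF t k : ℚ) : ℝ)) (fun k => ((cF t' k : ℚ) : ℝ)) K hK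
    (fun k => (cF_le t _ ht.2.2 k).trans hKA) (fun k => (cF_le t' _ ht'.2.2 k).trans hKB)
    ?_ ?_ ht.2.1 ht'.2.1 _ (BF_hasSum hA hB t t')
  · show ((cF t 0 : ℚ) : ℝ) = 0
    rw [hz t ht]; simp
  · show ((cF t' 0 : ℚ) : ℝ) = 0
    rw [hz t' ht']; simp

end MZG
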