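import Pool.Agent.Lib.MP_e54452_nt.DF.KEYF
import Pool.Agent.Lib.MP_e54452_nt.DF.SXF
import Pool.Agent.Lib.MP_e54452_nt.DF.SZF
import Pool.Agent.Lib.MP_e54452_nt.DF.CRF
import Pool.Agent.Lib.MP_e54452_nt.DG.FIc

/-!
# The main inequality for two families
-/

set_option autoImplicit false

namespace MZG

open Finset Module
open scoped ENNReal Nat Polynomial

/-- common bound for the coefficients -/
noncomputable def KF (b s n : ℕ) : ℝ :=
  (b * (n + 1) : ℕ) * Real.exp (12 * s * ((n + 1 : ℕ) : ℝ))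

noncomputable def HF (b s n : ℕ) : ℝ :=
  KF b s n ^ 2 * (2 ^ n * (4 ^ (2 * s) * (dd (2 * n + 1) : ℝ) ^ (2 * s + 1)))

noncomputable def EF (b s μ n : ℕ) : ℝ :=
  (dd (2 * n + 1) : ℝ) ^ (2 * s + 1) * (2 * KF b s n ^ 2 * (1 / 4) ^ (μ * (n + 1) - 1))

theorem VW_finite (A B : Finset (List Bool)) : {z | VW A B z}.Finite := by
  apply ((A ×ˢ B).finite_toSet.image (fun x => dual x.2 x.1)).subset
  rintro z ⟨_, u, hu, v, hv, rfl⟩
  exact ⟨(u, v), by simp [hu, hv], rfl⟩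

theorem ineq_nF {A B : Finset (List Bool)} {s : ℕ} (hA : Fam A s) (hB : Fam B s)
    (hAB : A.card ≤ B.card) (μ : ℕ) (hs : 1 ≤ s) (hμ1 : 1 ≤ μ) (hq : 300 * s ≤ A.card)
    (hq2 : A.card ≤ 2 ^ s) (hμ : μ ^ 2 ≤ A.card * s) :
    ∃ C : ℝ, 1 ≤ C ∧ ∀ n : ℕ, 4 * (A.card + B.card) ≤ n + 1 →
    1 ≤ (C * HF B.card s n) ^ (finrank ℚ (MP (VW A B))) * (C * EF B.card s μ n) := by
  have hp0 : VW A B [] := ⟨rfl, [], hA.nil, [], hB.nil, rfl⟩
  obtain ⟨C, hC1, hC⟩ := criterionF (VW A B) (VW_finite A B) hp0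
  refine ⟨C, hC1, fun n hn => ?_⟩
  have hdd : (1 : ℝ) ≤ (dd (2 * n + 1) : ℝ) := by
    exact_mod_cast dd_pos (2 * n + 1)
  have hBpos : 1 ≤ B.card := Finset.card_pos.2 ⟨[], hB.nil⟩
  have hK1 : 1 ≤ Real.exp (12 * s * ((n + 1 : ℕ) : ℝ)) := Real.one_le_exp (by positivity)
  have hc1 : (1 : ℝ) ≤ ((B.card * (n + 1) : ℕ) : ℝ) := by
    exact_mod_cast Nat.mul_pos hBpos (Nat.succ_pos n)
  have hKF : 1 ≤ KF B.card s n := one_le_mul_of_one_le_of_one_le hc1 hK1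
  have hKA : (Fintype.card (IdF A n) : ℝ) * Real.exp (12 * s * ((n + 1 : ℕ) : ℝ)) ≤
      KF B.card s n := by
    rw [card_IdF]
    unfold KF
    apply mul_le_mul_of_nonneg_right _ (Real.exp_pos _).le
    exact_mod_cast Nat.mul_le_mul_right _ hAB
  have hKB : (Fintype.card (IdF B n) : ℝ) * Real.exp (12 * s * ((n + 1 : ℕ) : ℝ)) ≤
      KF B.card s n := by
    rw [card_IdF]
    unfold KF
    exact le_rfl
  have hH : 1 ≤ HF B.card s n := by
    unfold HF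
    have h1 : (1 : ℝ) ≤ KF B.card s n ^ 2 := one_le_pow₀ hKF
    have h2 : (1 : ℝ) ≤ 2 ^ n := one_le_pow₀ (by norm_num)
    have h3 : (1 : ℝ) ≤ 4 ^ (2 * s) := one_le_pow₀ (by norm_num)
    have h5 : (1 : ℝ) ≤ (dd (2 * n + 1) : ℝ) ^ (2 * s + 1) := one_le_pow₀ hdd
    exact one_le_mul_of_one_le_of_one_le h1 (one_le_mul_of_one_le_of_one_le h2
      (one_le_mul_of_one_le_of_one_le h3 h5))
  have hE : 0 ≤ EF B.card s μ n := by
    unfold EF; positivity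
  set D : ℝ := (dd (2 * n + 1) : ℝ) ^ (2 * s + 1) with hD
  have hD0 : D ≠ 0 := by
    have : (0 : ℝ) < (dd (2 * n + 1) : ℝ) := by linarith
    positivity
  have hDp : 0 ≤ D := by positivity
  refine hC {y : ℝ | ∃ t ∈ TF A s μ n, ∃ t' ∈ TF B s μ n, y = D * BF t t'} (HF B.card s n)
    (EF B.card s μ n) hH hE ?_ ?_ ?_
  · rintro y ⟨t, ht, t', ht', rfl⟩
    have h := BF_rep hA hB (VW A B) (fun z hz => hz) n t t' ht.1 ht'.1
      (Real.exp (12 * s * ((n + 1 : ℕ) : ℝ))) ht.2.2 ht'.2.2 (Real.exp_pos _).le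
    refine h.mono ?_
    unfold HF
    apply mul_le_mul_of_nonneg_right _ (by positivity)
    rw [sq]
    exact mul_le_mul hKA hKB (by positivity) (by linarith)
  · rintro y ⟨t, ht, t', ht', rfl⟩
    have h := BF_small hA hB hμ1 t t' ht ht' (KF B.card s n) hKF hKA hKB
    rw [abs_mul, abs_of_nonneg hDp]
    unfold EF
    exact mul_le_mul_of_nonneg_left h hDp
  · have h1 := one_memF hA hB hAB μ n hs hq hq2 hμ hn
    have hsub : Submodule.span ℚ {y : ℝ | ∃ t ∈ TF A s μ n, ∃ t' ∈ TF B s μ n, y = BF t t'} ≤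
        Submodule.span ℚ {y : ℝ | ∃ t ∈ TF A s μ n, ∃ t' ∈ TF B s μ n, y = D * BF t t'} := by
      rw [Submodule.span_le]
      rintro y ⟨t, ht, t', ht', rfl⟩
      have hmem : D * BF t t' ∈
          Submodule.span ℚ {y : ℝ | ∃ t ∈ TF A s μ n, ∃ t' ∈ TF B s μ n, y = D * BF t t'} :=
        Submodule.subset_span ⟨t, ht, t', ht', rfl⟩
      have h2 := Submodule.smul_mem _
        (((dd (2 * n + 1) : ℚ) ^ (2 * s + 1))⁻¹) hmem
      have h3 : (((dd (2 * n + 1) : ℚ) ^ (2 * s + 1))⁻¹) • (D * BF t t') = BF t t' := by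
        rw [Rat.smul_def]
        push_cast
        rw [← hD, ← mul_assoc, inv_mul_cancel₀ hD0, one_mul]
      rw [h3] at h2
      exact h2
    exact hsub h1

theorem FIF_dd (s n : ℕ) : (dd (2 * n + 1) : ℝ) ^ (2 * s + 1) ≤
    Real.exp ((24 * s + 12) * ((n + 1 : ℕ) : ℝ)) := by
  have h := dd_le (2 * n + 1)
  calc (dd (2 * n + 1) : ℝ) ^ (2 * s + 1)
      ≤ (Real.exp (6 * ((2 * n + 1 : ℕ) : ℝ))) ^ (2 * s + 1) :=
        pow_le_pow_left₀ (by positivity) h _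
    _ = Real.exp (((2 * s + 1 : ℕ) : ℝ) * (6 * ((2 * n + 1 : ℕ) : ℝ))) := by
        rw [← Real.exp_nat_mul]
    _ ≤ Real.exp ((24 * s + 12) * ((n + 1 : ℕ) : ℝ)) := by
        apply Real.exp_le_exp.mpr
        push_cast
        have hr : (0 : ℝ) ≤ s := Nat.cast_nonneg s
        have hn : (0 : ℝ) ≤ n := Nat.cast_nonneg n
        nlinarith

theorem FIF_sq (b s n : ℕ) : KF b s n ^ 2 ≤
    (b : ℝ) ^ 2 * Real.exp ((24 * s + 2) * ((n + 1 : ℕ) : ℝ)) := by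
  unfold KF
  have h1 : (((n + 1 : ℕ) : ℝ)) ≤ Real.exp ((n + 1 : ℕ) : ℝ) := by
    have := Real.add_one_le_exp (((n + 1 : ℕ) : ℝ))
    linarith
  have h2 : (((n + 1 : ℕ) : ℝ)) ^ 2 ≤ Real.exp (2 * ((n + 1 : ℕ) : ℝ)) := by
    calc (((n + 1 : ℕ) : ℝ)) ^ 2 ≤ (Real.exp ((n + 1 : ℕ) : ℝ)) ^ 2 :=
          pow_le_pow_left₀ (by positivity) h1 2
      _ = Real.exp (2 * ((n + 1 : ℕ) : ℝ)) := by
          rw [← Real.exp_nat_mul]
          norm_num
  have e1 : (((b * (n + 1) : ℕ) : ℝ) * Real.exp (12 * s * ((n + 1 : ℕ) : ℝ))) ^ 2 =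
      (b : ℝ) ^ 2 * ((((n + 1 : ℕ) : ℝ)) ^ 2 * Real.exp (24 * s * ((n + 1 : ℕ) : ℝ))) := by
    have e2 : Real.exp (24 * s * ((n + 1 : ℕ) : ℝ)) =
        Real.exp (12 * s * ((n + 1 : ℕ) : ℝ)) ^ 2 := by
      rw [← Real.exp_nat_mul]
      congr 1
      push_cast
      ring
    rw [e2]
    push_cast
    ring
  rw [e1]
  have e3 : Real.exp ((24 * s + 2) * ((n + 1 : ℕ) : ℝ)) =
      Real.exp (2 * ((n + 1 : ℕ) : ℝ)) * Real.exp (24 * s * ((n + 1 : ℕ) : ℝ)) := by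
    rw [← Real.exp_add]
    congr 1
    ring
  rw [e3]
  exact mul_le_mul_of_nonneg_left
    (mul_le_mul_of_nonneg_right h2 (Real.exp_nonneg _)) (by positivity)

theorem HF_le (b s : ℕ) (hb : 1 ≤ b) (hs : 8 ≤ s) : ∃ C' : ℝ, ∀ n : ℕ,
    HF b s n ≤ Real.exp (50 * s * ((n + 1 : ℕ) : ℝ) + C') := by
  refine ⟨Real.log ((b : ℝ) ^ 2 * 4 ^ (2 * s)), fun n => ?_⟩
  have hb0 : (0 : ℝ) < (b : ℝ) := by exact_mod_cast hb
  have h1 := FIF_sq b s n
  have h2 := FIF_dd s n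
  have h3 : (2 : ℝ) ^ n ≤ Real.exp ((n + 1 : ℕ) : ℝ) := by
    have h20 : (2 : ℝ) ≤ Real.exp 1 := by
      have := Real.add_one_le_exp (1 : ℝ)
      linarith
    calc (2 : ℝ) ^ n ≤ (Real.exp 1) ^ n := pow_le_pow_left₀ (by norm_num) h20 n
      _ = Real.exp n := by rw [← Real.exp_nat_mul, mul_one]
      _ ≤ Real.exp ((n + 1 : ℕ) : ℝ) := by
          apply Real.exp_le_exp.mpr
          push_cast
          linarith
  have hsR : (8 : ℝ) ≤ s := by exact_mod_cast hs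
  have hn1 : (1 : ℝ) ≤ ((n + 1 : ℕ) : ℝ) := by
    push_cast
    have : (0 : ℝ) ≤ n := Nat.cast_nonneg n
    linarith
  unfold HF
  calc KF b s n ^ 2 * (2 ^ n * (4 ^ (2 * s) * (dd (2 * n + 1) : ℝ) ^ (2 * s + 1)))
      ≤ ((b : ℝ) ^ 2 * Real.exp ((24 * s + 2) * ((n + 1 : ℕ) : ℝ))) *
        (Real.exp ((n + 1 : ℕ) : ℝ) *
          (4 ^ (2 * s) * Real.exp ((24 * s + 12) * ((n + 1 : ℕ) : ℝ)))) := by
        gcongr
    _ = Real.exp ((24 * s + 2) * ((n + 1 : ℕ) : ℝ) + ((n + 1 : ℕ) : ℝ) +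
          (24 * s + 12) * ((n + 1 : ℕ) : ℝ)) * ((b : ℝ) ^ 2 * 4 ^ (2 * s)) := by
        rw [Real.exp_add, Real.exp_add]
        ring
    _ ≤ Real.exp (50 * s * ((n + 1 : ℕ) : ℝ)) * ((b : ℝ) ^ 2 * 4 ^ (2 * s)) := by
        apply mul_le_mul_of_nonneg_right _ (by positivity)
        apply Real.exp_le_exp.mpr
        nlinarith
    _ = Real.exp (50 * s * ((n + 1 : ℕ) : ℝ) + Real.log ((b : ℝ) ^ 2 * 4 ^ (2 * s))) := by
        rw [Real.exp_add, Real.exp_log (by positivity)]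

theorem EF_le (b s μ : ℕ) (hb : 1 ≤ b) (hs : 8 ≤ s) (hμ : 1 ≤ μ) : ∃ C' : ℝ, ∀ n : ℕ,
    EF b s μ n ≤ Real.exp ((50 * s - 1.38 * μ) * ((n + 1 : ℕ) : ℝ) + C') := by
  refine ⟨Real.log ((b : ℝ) ^ 2 * 8), fun n => ?_⟩
  have hb0 : (0 : ℝ) < (b : ℝ) := by exact_mod_cast hb
  have h1 := FIF_sq b s n
  have h2 := FIF_dd s n
  have h14 : (1 / 4 : ℝ) ≤ Real.exp (-1.38) := by
    have hl : (1.38 : ℝ) ≤ Real.log 4 := by
      have : Real.log 4 = 2 * Real.log 2 := by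
        rw [show (4 : ℝ) = 2 ^ 2 by norm_num, Real.log_pow]
        norm_num
      rw [this]
      have := Real.log_two_gt_d9
      linarith
    calc (1 / 4 : ℝ) = Real.exp (-Real.log 4) := by
          rw [Real.exp_neg, Real.exp_log (by norm_num)]
          norm_num
      _ ≤ Real.exp (-1.38) := Real.exp_le_exp.mpr (by linarith)
  have h3 : (1 / 4 : ℝ) ^ (μ * (n + 1) - 1) ≤
      4 * Real.exp (-1.38 * μ * ((n + 1 : ℕ) : ℝ)) := by
    have hpos : 1 ≤ μ * (n + 1) := Nat.mul_pos hμ (by omega)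
    have e : (1 / 4 : ℝ) ^ (μ * (n + 1) - 1) = 4 * (1 / 4 : ℝ) ^ (μ * (n + 1)) := by
      obtain ⟨m, hm⟩ : ∃ m, μ * (n + 1) = m + 1 := ⟨μ * (n + 1) - 1, by omega⟩
      rw [hm, Nat.add_sub_cancel, pow_succ]
      ring
    rw [e]
    have h5 : (1 / 4 : ℝ) ^ (μ * (n + 1)) ≤ (Real.exp (-1.38)) ^ (μ * (n + 1)) :=
      pow_le_pow_left₀ (by norm_num) h14 _
    have h6 : (Real.exp (-1.38)) ^ (μ * (n + 1)) =
        Real.exp (-1.38 * μ * ((n + 1 : ℕ) : ℝ)) := by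
      rw [← Real.exp_nat_mul]
      congr 1
      push_cast
      ring
    rw [h6] at h5
    linarith
  have hsR : (8 : ℝ) ≤ s := by exact_mod_cast hs
  have hn1 : (1 : ℝ) ≤ ((n + 1 : ℕ) : ℝ) := by
    push_cast
    have : (0 : ℝ) ≤ n := Nat.cast_nonneg n
    linarith
  unfold EF
  calc (dd (2 * n + 1) : ℝ) ^ (2 * s + 1) * (2 * KF b s n ^ 2 * (1 / 4) ^ (μ * (n + 1) - 1))
      ≤ Real.exp ((24 * s + 12) * ((n + 1 : ℕ) : ℝ)) *
        (2 * ((b : ℝ) ^ 2 * Real.exp ((24 * s + 2) * ((n + 1 : ℕ) : ℝ))) *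
          (4 * Real.exp (-1.38 * μ * ((n + 1 : ℕ) : ℝ)))) := by
        gcongr
    _ = Real.exp ((24 * s + 12) * ((n + 1 : ℕ) : ℝ) + (24 * s + 2) * ((n + 1 : ℕ) : ℝ) +
          (-1.38 * μ * ((n + 1 : ℕ) : ℝ))) * ((b : ℝ) ^ 2 * 8) := by
        rw [Real.exp_add, Real.exp_add]
        ring
    _ ≤ Real.exp ((50 * s - 1.38 * μ) * ((n + 1 : ℕ) : ℝ)) * ((b : ℝ) ^ 2 * 8) := by
        apply mul_le_mul_of_nonneg_right _ (by positivity)
        apply Real.exp_le_exp.mpr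
        nlinarith
    _ = Real.exp ((50 * s - 1.38 * μ) * ((n + 1 : ℕ) : ℝ) + Real.log ((b : ℝ) ^ 2 * 8)) := by
        rw [Real.exp_add, Real.exp_log (by positivity)]

theorem KF_nonneg (b s n : ℕ) : 0 ≤ KF b s n := by unfold KF; positivity

/-- the inequality between the vanishing order and the dimension -/
theorem main_mu {A B : Finset (List Bool)} {s : ℕ} (hA : Fam A s) (hB : Fam B s)
    (hAB : A.card ≤ B.card) (μ : ℕ) (hs : 8 ≤ s) (hμ1 : 1 ≤ μ) (hq : 300 * s ≤ A.card)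
    (hq2 : A.card ≤ 2 ^ s) (hμ : μ ^ 2 ≤ A.card * s) :
    1.38 * (μ : ℝ) ≤ ((finrank ℚ (MP (VW A B)) : ℝ) + 1) * (50 * s) := by
  obtain ⟨C, hC1, hC⟩ := ineq_nF hA hB hAB μ (by omega) hμ1 hq hq2 hμ
  have hBpos : 1 ≤ B.card := Finset.card_pos.2 ⟨[], hB.nil⟩
  obtain ⟨C1, h1⟩ := HF_le B.card s hBpos hs
  obtain ⟨C2, h2⟩ := EF_le B.card s μ hBpos hs hμ1
  have hC0 : 0 ≤ C := by linarith
  refine limit_ineq C (50 * s) (1.38 * μ) C1 C2 hC1 _ (4 * (A.card + B.card)) ?_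
  intro n hn
  refine (hC n hn).trans ?_
  have hHn : 0 ≤ HF B.card s n := by unfold HF; positivity
  have hEn : 0 ≤ EF B.card s μ n := by unfold EF; positivity
  apply mul_le_mul
  · exact pow_le_pow_left₀ (mul_nonneg hC0 hHn) (mul_le_mul_of_nonneg_left (h1 n) hC0) _
  · exact mul_le_mul_of_nonneg_left (h2 n) hC0
  · exact mul_nonneg hC0 hEn
  · positivity

theorem one_le_finrank_MP {A B : Finset (List Bool)} {s : ℕ} (hA : Fam A s) (hB : Fam B s) :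
    1 ≤ finrank ℚ (MP (VW A B)) := by
  haveI := MP_finite (VW A B) (VW_finite A B)
  have h1 : (1 : ℝ) ∈ MP (VW A B) :=
    Submodule.subset_span ⟨[], ⟨rfl, [], hA.nil, [], hB.nil, rfl⟩, FIc_zr_nil.symm⟩
  rw [Nat.one_le_iff_ne_zero]
  intro h0
  have hb : MP (VW A B) = ⊥ := Submodule.finrank_eq_zero.1 h0
  rw [hb, Submodule.mem_bot] at h1
  exact one_ne_zero h1

theorem FIF_twelve (s : ℕ) (hs : 1 ≤ s) (h : 300 * s ≤ 2 ^ s) : 12 ≤ s := by
  by_contra hlt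
  push Not at hlt
  interval_cases s <;> omega

theorem card_fam_le {F : Finset (List Bool)} {s : ℕ} (hF : Fam F s) : F.card ≤ 2 ^ s := by
  rw [← card_GW s]
  apply Finset.card_le_card
  intro w hw
  exact (mem_GW s w).2 ⟨hF.good w hw, hF.len w hw⟩

/-- THE MAIN INEQUALITY -/
theorem main_fam {A B : Finset (List Bool)} {s : ℕ} (hA : Fam A s) (hB : Fam B s)
    (hAB : A.card ≤ B.card) (hs : 1 ≤ s) :
    Real.sqrt ((A.card : ℝ) / s) ≤ 74 * finrank ℚ (MP (VW A B)) := by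
  have hd : (1 : ℝ) ≤ finrank ℚ (MP (VW A B)) := by exact_mod_cast one_le_finrank_MP hA hB
  have hs0 : (0 : ℝ) < s := by exact_mod_cast hs
  rcases Nat.lt_or_ge A.card (300 * s) with hq | hq
  · have h1 : (A.card : ℝ) / s ≤ 300 := by
      rw [div_le_iff₀ hs0]
      exact_mod_cast hq.le
    have h2 : Real.sqrt ((A.card : ℝ) / s) ≤ 74 := by
      rw [Real.sqrt_le_left (by norm_num)]
      norm_num
      linarith
    linarith
  · have hq2 := card_fam_le hA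
    have hs12 : 12 ≤ s := FIF_twelve s hs (hq.trans hq2)
    have hs12R : (12 : ℝ) ≤ s := by exact_mod_cast hs12
    set μ := Nat.sqrt (A.card * s) with hμdef
    have hμ : μ ^ 2 ≤ A.card * s := Nat.sqrt_le' _
    have hμ2 : A.card * s < (μ + 1) ^ 2 := Nat.lt_succ_sqrt' _
    have hμ1 : 1 ≤ μ := by
      rw [hμdef, Nat.one_le_iff_ne_zero]
      intro h0
      rw [Nat.sqrt_eq_zero] at h0
      have : 0 < A.card * s := by
        apply Nat.mul_pos _ (by omega)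
        omega
      omega
    have hm := main_mu hA hB hAB μ (by omega) hμ1 hq hq2 hμ
    set d : ℝ := ((finrank ℚ (MP (VW A B)) : ℕ) : ℝ) with hdd
    have h1 : Real.sqrt ((A.card : ℝ) / s) = Real.sqrt ((A.card : ℝ) * s) / s := by
      rw [Real.sqrt_div (by positivity), Real.sqrt_mul (by positivity), div_eq_div_iff
        (by positivity) (by positivity), mul_assoc, Real.mul_self_sqrt hs0.le]
    have h2 : Real.sqrt ((A.card : ℝ) * s) ≤ μ + 1 := by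
      rw [Real.sqrt_le_left (by positivity)]
      exact_mod_cast hμ2.le
    rw [h1, div_le_iff₀ hs0]
    have h3 : (μ : ℝ) + 1 ≤ 74 * d * s := by
      have h4 : 1.38 * (μ : ℝ) ≤ 100 * (s * d) := by nlinarith
      have h5 : 12 ≤ s * d := by nlinarith
      nlinarith
    linarith

end MZG
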