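import Pool.Agent.Lib.MP_e54452_nt.DF.RkE2
import Pool.Agent.Lib.MP_e54452_nt.DG.RkF
import Pool.Agent.Lib.MP_e54452_nt.DF.Defs

/-!
# The rank lemma for two families of words
-/

set_option autoImplicit false

open Polynomial Module

namespace MZG

open MPe54452

/-- parent of a word of a family -/
def fpar {F : Finset (List Bool)} {s : ℕ} (hF : Fam F s) (w : {w : List Bool // w ∈ F}) :
    Option (Bool × {w : List Bool // w ∈ F}) :=
  match w with
  | ⟨[], _⟩ => none
  | ⟨a :: v, h⟩ => some (a, ⟨v, hF.tail a v h⟩)

/-- the tree of a family -/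
def ftree {F : Finset (List Bool)} {s : ℕ} (hF : Fam F s) : Exp.Tree {w : List Bool // w ∈ F} where
  par := fpar hF
  len := fun w => w.1.length
  root := ⟨[], hF.nil⟩
  par_root := rfl
  len_root := rfl
  eq_root := by
    rintro ⟨w, hw⟩ h
    cases w with
    | nil => rfl
    | cons a v => simp [fpar] at h
  inj := by
    rintro ⟨w, hw⟩ ⟨w', hw'⟩ x h h'
    cases w with
    | nil => simp [fpar] at h
    | cons a v =>
      cases w' with
      | nil => simp [fpar] at h'
      | cons a' v' =>
        simp only [fpar, Option.some.injEq] at h h'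
        have e := h.trans h'.symm
        simp only [Prod.mk.injEq, Subtype.mk.injEq] at e
        apply Subtype.ext
        change a :: v = a' :: v'
        rw [e.1, e.2]
  len_par := by
    rintro ⟨w, hw⟩ a ⟨w', hw'⟩ h
    cases w with
    | nil => simp [fpar] at h
    | cons b v =>
      simp only [fpar, Option.some.injEq, Prod.mk.injEq, Subtype.mk.injEq] at h
      change (b :: v).length = w'.length + 1
      rw [List.length_cons, h.2]

open Exp in
theorem rank_fam {A B : Finset (List Bool)} {s : ℕ} (hA : Fam A s) (hB : Fam B s)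
    (hAB : A.card ≤ B.card) (mu : List Bool → List Bool → ℕ → ℚ) (h0 : mu [] [] 0 ≠ 0)
    (hrec : ∀ w v, good w = true → good v = true → ∀ j : ℕ,
      ((j : ℚ) + 2) * mu w v (j + 1) - ((j : ℚ) + 1) * mu w v j = Vp mu w v j - Wp mu w v j)
    (a n : ℕ) (hn : a + 2 * (A.card + B.card) ≤ n) (Q : List Bool →₀ ℚ[X])
    (hQ : ∀ w ∈ Q.support, w ∈ A) (hdeg : ∀ w, (Q w).natDegree ≤ a)
    (h : ∀ v ∈ B, ∀ j ≤ n,
      Q.sum (fun w p => p.sum fun i t => t * mu w v (i + j)) = 0) : Q = 0 := by
  by_contra hQ0
  let l : {w : List Bool // w ∈ A} → {w : List Bool // w ∈ B} → ℚ[X] →ₗ[ℚ] ℚ :=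
    fun u v => (mu [] [] 0)⁻¹ • fl (mu u.1 v.1)
  have hl : ∀ u v p, l u v p = (mu [] [] 0)⁻¹ * fl (mu u.1 v.1) p := fun u v p => rfl
  have hE : Exp2.RelE (ftree hA) (ftree hB) l := by
    rintro ⟨u, hu⟩ ⟨v, hv⟩ f
    induction f using Polynomial.induction_on' with
    | add p q hp hq =>
      rw [mul_add, derivative_add, map_add, hp, hq]
      cases (ftree hA).par ⟨u, hu⟩ <;> cases (ftree hB).par ⟨v, hv⟩ <;>
        simp [mul_add, map_add] <;> ring
    | monomial j t =>
      have e1 : derivative (X * (1 - X) * monomial j t : ℚ[X]) =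
          monomial j (t * (j + 1)) - monomial (j + 1) (t * (j + 2)) := by
        have e0 : (X * (1 - X) * monomial j t : ℚ[X]) = monomial (j + 1) t - monomial (j + 2) t := by
          rw [← Polynomial.C_mul_X_pow_eq_monomial, ← Polynomial.C_mul_X_pow_eq_monomial,
            ← Polynomial.C_mul_X_pow_eq_monomial]
          ring
        rw [e0, derivative_sub, derivative_monomial, derivative_monomial]
        congr 2
        · push_cast; ring
        · push_cast; ring
      have e2 : (X * monomial j t : ℚ[X]) = monomial (j + 1) t := by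
        rw [X_mul_monomial]
      have e3 : ((1 - X) * monomial j t : ℚ[X]) = monomial j t - monomial (j + 1) t := by
        rw [sub_mul, one_mul, X_mul_monomial]
      have hr := hrec u v (hA.good u hu) (hB.good v hv) j
      rw [e1, map_sub, hl, hl, fl_monomial, fl_monomial]
      have key : ((mu [] [] 0)⁻¹ * (t * (j + 1) * mu u v j) -
          (mu [] [] 0)⁻¹ * (t * (j + 2) * mu u v (j + 1))) =
          (mu [] [] 0)⁻¹ * t * (Wp mu u v j - Vp mu u v j) := by
        linear_combination (-(mu [] [] 0)⁻¹ * t) * hr
      have eW : ((ftree hA).par ⟨u, hu⟩).elim 0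
          (fun x => (l x.2 ⟨v, hv⟩) (gam x.1 * monomial j t)) = (mu [] [] 0)⁻¹ * t * Wp mu u v j := by
        cases u with
        | nil => simp [ftree, fpar, Wp]
        | cons b u =>
          cases b with
          | false =>
            change (mu [] [] 0)⁻¹ * fl (mu u v) (gam false * monomial j t) =
              (mu [] [] 0)⁻¹ * t * mu u v (j + 1)
            rw [show gam false = X from rfl, e2, fl_monomial]
            ring
          | true =>
            change (mu [] [] 0)⁻¹ * fl (mu u v) (gam true * monomial j t) =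
              (mu [] [] 0)⁻¹ * t * (mu u v j - mu u v (j + 1))
            rw [show gam true = 1 - X from rfl, e3, map_sub, fl_monomial, fl_monomial]
            ring
      have eV : ((ftree hB).par ⟨v, hv⟩).elim 0
          (fun x => (l ⟨u, hu⟩ x.2) (gb x.1 * monomial j t)) = (mu [] [] 0)⁻¹ * t * Vp mu u v j := by
        cases v with
        | nil => simp [ftree, fpar, Vp]
        | cons b v =>
          cases b with
          | false =>
            change (mu [] [] 0)⁻¹ * fl (mu u v) (gb false * monomial j t) =
              (mu [] [] 0)⁻¹ * t * (mu u v j - mu u v (j + 1))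
            rw [show gb false = 1 - X from rfl, e3, map_sub, fl_monomial, fl_monomial]
            ring
          | true =>
            change (mu [] [] 0)⁻¹ * fl (mu u v) (gb true * monomial j t) =
              (mu [] [] 0)⁻¹ * t * mu u v (j + 1)
            rw [show gb true = X from rfl, e2, fl_monomial]
            ring
      rw [eW, eV]
      change ((mu [] [] 0)⁻¹ * (t * (j + 1) * mu u v j) -
          (mu [] [] 0)⁻¹ * (t * (j + 2) * mu u v (j + 1))) = _
      rw [key]
      ring
  have hN : l (ftree hA).root (ftree hB).root 1 = 1 := by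
    rw [hl]
    have : (1 : ℚ[X]) = X ^ 0 := by simp
    rw [this, fl_X_pow]
    exact inv_mul_cancel₀ h0
  have hP : (fun u : {w : List Bool // w ∈ A} => Q u.1) ≠ 0 := by
    intro hz
    apply hQ0
    ext1 w
    by_cases hw : w ∈ Q.support
    · exact congrFun hz ⟨w, hQ w hw⟩
    · simpa using hw
  obtain ⟨v, j, hj, hne⟩ := Exp2.rank_lemma (ftree hA) (ftree hB) l hE hN (fun u => Q u.1) hP a n
    (fun u => hdeg u.1) (by rw [Fintype.card_coe, Fintype.card_coe]; exact hAB)
    (by rw [Fintype.card_coe, Fintype.card_coe]; exact hn)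
  apply hne
  have hv := h v.1 v.2 j hj
  simp only [hl, fl_mul_X_pow]
  rw [← Finset.mul_sum]
  have e : ∑ u : {w : List Bool // w ∈ A}, ((Q u.1).sum fun i t => t * mu u.1 v.1 (i + j)) =
      Q.sum (fun w p => p.sum fun i t => t * mu w v.1 (i + j)) := by
    rw [Finsupp.sum]
    have h1 : ∑ u : {w : List Bool // w ∈ A}, ((Q u.1).sum fun i t => t * mu u.1 v.1 (i + j)) =
        ∑ w ∈ A, ((Q w).sum fun i t => t * mu w v.1 (i + j)) :=
      Finset.sum_coe_sort A (fun w => (Q w).sum fun i t => t * mu w v.1 (i + j))
    rw [h1]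
    refine (Finset.sum_subset (fun w hw => hQ w hw) (fun w _ hw => ?_)).symm
    rw [Finsupp.notMem_support_iff.mp hw]
    simp
  rw [e, hv, mul_zero]

end MZG
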