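import Pool.Agent.Lib.MP_e54452_nt.DF.SIF
import Pool.Agent.Lib.MP_e54452_nt.DF.RKF
import Pool.Agent.Lib.MP_e54452_nt.DG.LAa

/-!
# The number `1` is in the span of the small forms, two families
-/

set_option autoImplicit false

namespace MZG

open Finset Module
open scoped ENNReal Nat Polynomial

theorem KEYF_add_left {A B : Finset (List Bool)} {n : ℕ} (t t' : IdF A n → ℚ) (u : IdF B n → ℚ) :
    BF (t + t') u = BF t u + BF t' u := by
  unfold BF
  rw [← Finset.sum_add_distrib]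
  refine Finset.sum_congr rfl fun x _ => ?_
  rw [← Finset.sum_add_distrib]
  refine Finset.sum_congr rfl fun y _ => ?_
  rw [Pi.add_apply]
  push_cast
  ring

theorem KEYF_smul_left {A B : Finset (List Bool)} {n : ℕ} (q : ℚ) (t : IdF A n → ℚ)
    (u : IdF B n → ℚ) : BF (q • t) u = q • BF t u := by
  unfold BF
  rw [Finset.smul_sum]
  refine Finset.sum_congr rfl fun x _ => ?_
  rw [Finset.smul_sum]
  refine Finset.sum_congr rfl fun y _ => ?_
  rw [Pi.smul_apply, smul_eq_mul, Rat.smul_def]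
  push_cast
  ring

theorem KEYF_add_right {A B : Finset (List Bool)} {n : ℕ} (t : IdF A n → ℚ) (u u' : IdF B n → ℚ) :
    BF t (u + u') = BF t u + BF t u' := by
  unfold BF
  rw [← Finset.sum_add_distrib]
  refine Finset.sum_congr rfl fun x _ => ?_
  rw [← Finset.sum_add_distrib]
  refine Finset.sum_congr rfl fun y _ => ?_
  rw [Pi.add_apply]
  push_cast
  ring

theorem KEYF_smul_right {A B : Finset (List Bool)} {n : ℕ} (q : ℚ) (t : IdF A n → ℚ)
    (u : IdF B n → ℚ) : BF t (q • u) = q • BF t u := by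
  unfold BF
  rw [Finset.smul_sum]
  refine Finset.sum_congr rfl fun x _ => ?_
  rw [Finset.smul_sum]
  refine Finset.sum_congr rfl fun y _ => ?_
  rw [Pi.smul_apply, smul_eq_mul, Rat.smul_def]
  push_cast
  ring

/-- `BF` as a bilinear map composed with a functional -/
noncomputable def bformF (A B : Finset (List Bool)) (n : ℕ) (la : ℝ →ₗ[ℚ] ℚ) :
    (IdF A n → ℚ) →ₗ[ℚ] (IdF B n → ℚ) →ₗ[ℚ] ℚ :=
  LinearMap.mk₂ ℚ (fun t t' => la (BF t t'))
    (fun t t' u => by rw [KEYF_add_left, map_add])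
    (fun q t u => by rw [KEYF_smul_left, map_smul])
    (fun t u u' => by rw [KEYF_add_right, map_add])
    (fun q t u => by rw [KEYF_smul_right, map_smul])

/-- the vectors of degree at most `a` -/
def VaF (F : Finset (List Bool)) (n a : ℕ) : Submodule ℚ (IdF F n → ℚ) where
  carrier := {t | ∀ x : IdF F n, a < x.2 → t x = 0}
  add_mem' := by
    intro t t' h h' x hx
    simp [h x hx, h' x hx]
  zero_mem' := by
    intro x _
    rfl
  smul_mem' := by
    intro q t h x hx
    simp [h x hx]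

theorem KEYF_mem (F : Finset (List Bool)) (n a : ℕ) (t : IdF F n → ℚ) :
    t ∈ VaF F n a ↔ ∀ x : IdF F n, a < (x.2 : ℕ) → t x = 0 := Iff.rfl

/-- extension by zero -/
noncomputable def KEYF_ext (F : Finset (List Bool)) (n a : ℕ)
    (f : {x : IdF F n // (x.2 : ℕ) ≤ a} → ℚ) :
    IdF F n → ℚ := fun x => if h : (x.2 : ℕ) ≤ a then f ⟨x, h⟩ else 0

/-- restriction to the indices of degree at most `a` -/
noncomputable def KEYF_equiv (F : Finset (List Bool)) (n a : ℕ) :
    VaF F n a ≃ₗ[ℚ] ({x : IdF F n // (x.2 : ℕ) ≤ a} → ℚ) where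
  toFun t := fun x => t.1 x.1
  map_add' := fun _ _ => rfl
  map_smul' := fun _ _ => rfl
  invFun f := ⟨KEYF_ext F n a f, by
    rw [KEYF_mem]
    intro x hx
    unfold KEYF_ext
    rw [dif_neg (by omega)]⟩
  left_inv := by
    intro t
    apply Subtype.ext
    funext x
    show KEYF_ext F n a (fun x => t.1 x.1) x = t.1 x
    unfold KEYF_ext
    by_cases h : (x.2 : ℕ) ≤ a
    · rw [dif_pos h]
    · rw [dif_neg h]
      exact ((KEYF_mem F n a t.1).mp t.2 x (by omega)).symm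
  right_inv := by
    intro f
    funext x
    show KEYF_ext F n a f x.1 = f x
    unfold KEYF_ext
    rw [dif_pos x.2]

/-- the indices of degree at most `a` -/
def KEYF_idx (F : Finset (List Bool)) (n a : ℕ) (ha : a ≤ n) :
    {x : IdF F n // (x.2 : ℕ) ≤ a} ≃ {w : List Bool // w ∈ F} × Fin (a + 1) where
  toFun x := (x.1.1, ⟨x.1.2, by have := x.2; omega⟩)
  invFun y := ⟨(y.1, ⟨y.2, by have := y.2.2; omega⟩), by
    show (y.2 : ℕ) ≤ a
    have := y.2.2
    omega⟩
  left_inv := by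
    intro x
    rfl
  right_inv := by
    intro y
    rfl

theorem finrank_VaF (F : Finset (List Bool)) (n a : ℕ) (ha : a ≤ n) :
    finrank ℚ (VaF F n a) = F.card * (a + 1) := by
  rw [LinearEquiv.finrank_eq (KEYF_equiv F n a), Module.finrank_fintype_fun_eq_card,
    Fintype.card_congr (KEYF_idx F n a ha), Fintype.card_prod, Fintype.card_fin,
    Fintype.card_coe]

/-- a form that vanishes on a product of large subspaces has small rank -/
theorem form_ne_zero2 {V W : Type*} [AddCommGroup V] [Module ℚ V] [FiniteDimensional ℚ V]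
    [AddCommGroup W] [Module ℚ W] [FiniteDimensional ℚ W]
    (β : V →ₗ[ℚ] W →ₗ[ℚ] ℚ) (L Va : Submodule ℚ V) (L' : Submodule ℚ W) (c : ℕ)
    (hL : finrank ℚ V < finrank ℚ L + c) (hL' : finrank ℚ W < finrank ℚ L' + c)
    (hVa : ∀ x ∈ Va, (∀ y, β x y = 0) → x = 0)
    (hc : 2 * c ≤ finrank ℚ Va) : ∃ x ∈ L, ∃ y ∈ L', β x y ≠ 0 := by
  by_contra hcon
  have h0 : ∀ x ∈ L, ∀ y ∈ L', β x y = 0 := by
    intro x hx y hy
    by_contra h
    exact hcon ⟨x, hx, y, hy, h⟩
  let M : Submodule ℚ V := L ⊓ Va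
  let Φ : M →ₗ[ℚ] L'.dualAnnihilator :=
    LinearMap.codRestrict L'.dualAnnihilator (β ∘ₗ M.subtype)
      (fun x => (Submodule.mem_dualAnnihilator _).2 (fun y hy => h0 x.1 x.2.1 y hy))
  have hΦ : Function.Injective Φ := by
    rw [injective_iff_map_eq_zero]
    intro x hx
    have h1 : β x.1 = 0 := congrArg Subtype.val hx
    have h2 : x.1 = 0 := hVa x.1 x.2.2 (fun y => by rw [h1]; rfl)
    exact Subtype.ext h2
  have h3 : finrank ℚ M ≤ finrank ℚ L'.dualAnnihilator :=
    LinearMap.finrank_le_finrank_of_injective hΦ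
  have h4 := Subspace.finrank_add_finrank_dualAnnihilator_eq L'
  have h5 := Submodule.finrank_sup_add_finrank_inf_eq L Va
  have h6 := Submodule.finrank_le (L ⊔ Va)
  have h7 : finrank ℚ M = finrank ℚ (L ⊓ Va : Submodule ℚ V) := rfl
  omega

/-- if the form vanishes on `T × T'` it vanishes on the spans -/
theorem form_span2 {V W : Type*} [AddCommGroup V] [Module ℚ V] [AddCommGroup W] [Module ℚ W]
    (β : V →ₗ[ℚ] W →ₗ[ℚ] ℚ) (T : Set V) (T' : Set W)
    (h : ∃ x ∈ Submodule.span ℚ T, ∃ y ∈ Submodule.span ℚ T', β x y ≠ 0) :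
    ∃ x ∈ T, ∃ y ∈ T', β x y ≠ 0 := by
  by_contra hcon
  have h0 : ∀ x ∈ T, ∀ y ∈ T', β x y = 0 := by
    intro x hx y hy
    by_contra h
    exact hcon ⟨x, hx, y, hy, h⟩
  obtain ⟨x, hx, y, hy, hxy⟩ := h
  have h1 : ∀ x ∈ T, Submodule.span ℚ T' ≤ LinearMap.ker (β x) := by
    intro x hx
    rw [Submodule.span_le]
    intro y hy
    exact h0 x hx y hy
  have h2 : Submodule.span ℚ T ≤ LinearMap.ker (β.flip y) := by
    rw [Submodule.span_le]
    intro x hx
    have := h1 x hx hy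
    rw [LinearMap.mem_ker] at this
    show β.flip y x = 0
    rw [LinearMap.flip_apply]
    exact this
  have h3 := h2 hx
  rw [LinearMap.mem_ker, LinearMap.flip_apply] at h3
  exact hxy h3

theorem exists_TF {A B : Finset (List Bool)} {s : ℕ} (hA : Fam A s) (hB : Fam B s)
    (hAB : A.card ≤ B.card) (μ n : ℕ) (hs : 1 ≤ s) (hq : 300 * s ≤ A.card)
    (hq2 : A.card ≤ 2 ^ s) (hμ : μ ^ 2 ≤ A.card * s) (hn : 4 * (A.card + B.card) ≤ n + 1)
    (la : ℝ →ₗ[ℚ] ℚ) (hla : la 1 ≠ 0) :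
    ∃ t ∈ TF A s μ n, ∃ t' ∈ TF B s μ n, la (BF t t') ≠ 0 := by
  classical
  apply form_span2 (bformF A B n la) (TF A s μ n) (TF B s μ n)
  apply form_ne_zero2 (bformF A B n la) (Submodule.span ℚ (TF A s μ n))
    (VaF A n (n - 2 * (A.card + B.card))) (Submodule.span ℚ (TF B s μ n)) (A.card / 4 * (n + 1))
  · rw [Module.finrank_fintype_fun_eq_card]
    exact codim_TF A.card μ n hs hq hq2 hμ
  · rw [Module.finrank_fintype_fun_eq_card]
    exact codim_TF A.card μ n hs hq hq2 hμ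
  · intro x hx hy
    refine left_kernelF hA hB hAB n (n - 2 * (A.card + B.card)) la hla ?_ x hx ?_
    · omega
    · intro t'
      exact hy t'
  · rw [finrank_VaF A n (n - 2 * (A.card + B.card)) (Nat.sub_le _ _)]
    obtain ⟨a, ha⟩ : ∃ a, a = n - 2 * (A.card + B.card) := ⟨_, rfl⟩
    rw [← ha]
    have h5 : n + 1 ≤ 2 * (a + 1) := by omega
    have h6 : 4 * (A.card / 4) ≤ A.card := by omega
    calc 2 * (A.card / 4 * (n + 1)) ≤ 2 * (A.card / 4 * (2 * (a + 1))) := by gcongr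
      _ = 4 * (A.card / 4) * (a + 1) := by ring
      _ ≤ A.card * (a + 1) := by gcongr

theorem one_memF {A B : Finset (List Bool)} {s : ℕ} (hA : Fam A s) (hB : Fam B s)
    (hAB : A.card ≤ B.card) (μ n : ℕ) (hs : 1 ≤ s) (hq : 300 * s ≤ A.card)
    (hq2 : A.card ≤ 2 ^ s) (hμ : μ ^ 2 ≤ A.card * s) (hn : 4 * (A.card + B.card) ≤ n + 1) :
    (1 : ℝ) ∈ Submodule.span ℚ {y : ℝ | ∃ t ∈ TF A s μ n, ∃ t' ∈ TF B s μ n, y = BF t t'} := by
  by_contra hcon
  obtain ⟨la, hla, hker⟩ := Submodule.exists_le_ker_of_notMem hcon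
  obtain ⟨t, ht, t', ht', hne⟩ := exists_TF hA hB hAB μ n hs hq hq2 hμ hn la hla
  exact hne (hker (Submodule.subset_span ⟨t, ht, t', ht', rfl⟩))

end MZG
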