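import Pool.Agent.Lib.MP_e54452_nt.DF.Defs
import Pool.Agent.Lib.MP_e54452_nt.DG.GWa

/-!
# Row dz-N4: the depth families
-/

set_option autoImplicit false

namespace MZG

open Finset
open scoped ENNReal Nat Polynomial

theorem n4_mem_FA (s r : ℕ) (w : List Bool) :
    w ∈ FA s r ↔ (good w = true ∧ w.length ≤ s) ∧ w.count true ≤ r := by
  rw [FA, Finset.mem_filter, mem_GW]

theorem n4_mem_FB (s t : ℕ) (w : List Bool) :
    w ∈ FB s t ↔ (good w = true ∧ w.length ≤ s) ∧ w.count false ≤ t := by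
  rw [FB, Finset.mem_filter, mem_GW]

/-- `mem_GW`, `good_tail` (`C1b.lean`), `List.count_cons` -/
theorem fam_FA (s r : ℕ) : Fam (FA s r) s where
  nil := (n4_mem_FA s r []).2 ⟨⟨rfl, Nat.zero_le _⟩, Nat.zero_le _⟩
  tail := by
    intro a w h
    rw [n4_mem_FA] at h ⊢
    obtain ⟨⟨h1, h2⟩, h3⟩ := h
    refine ⟨⟨good_tail _ _ h1, ?_⟩, ?_⟩
    · rw [List.length_cons] at h2
      omega
    · rw [List.count_cons] at h3
      omega
  good := fun w h => ((n4_mem_FA s r w).1 h).1.1
  len := fun w h => ((n4_mem_FA s r w).1 h).1.2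

theorem fam_FB (s t : ℕ) : Fam (FB s t) s where
  nil := (n4_mem_FB s t []).2 ⟨⟨rfl, Nat.zero_le _⟩, Nat.zero_le _⟩
  tail := by
    intro a w h
    rw [n4_mem_FB] at h ⊢
    obtain ⟨⟨h1, h2⟩, h3⟩ := h
    refine ⟨⟨good_tail _ _ h1, ?_⟩, ?_⟩
    · rw [List.length_cons] at h2
      omega
    · rw [List.count_cons] at h3
      omega
  good := fun w h => ((n4_mem_FB s t w).1 h).1.1
  len := fun w h => ((n4_mem_FB s t w).1 h).1.2

/-- Pascal's rule for partial sums of binomial coefficients -/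
theorem n4_pascal (s r : ℕ) : ∑ j ∈ range (r + 2), (s + 1).choose j =
    (∑ j ∈ range (r + 2), s.choose j) + ∑ j ∈ range (r + 1), s.choose j := by
  rw [Finset.sum_range_succ' (fun j => (s + 1).choose j) (r + 1),
    Finset.sum_range_succ' (fun j => s.choose j) (r + 1)]
  simp only [Nat.choose_succ_succ, Nat.succ_eq_add_one, Nat.choose_zero_right, Finset.sum_add_distrib]
  omega

/-- cardinality of the union with letters in front -/
theorem n4_card (A B : Finset (List Bool)) (hA : [] ∈ A) :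
    (insert [] ((A.erase []).image (fun w => false :: w) ∪ B.image (fun w => true :: w))).card =
      A.card + B.card := by
  have hpos : 0 < A.card := Finset.card_pos.2 ⟨_, hA⟩
  rw [Finset.card_insert_of_notMem, Finset.card_union_of_disjoint,
    Finset.card_image_of_injective _ (fun x y h => (List.cons.inj h).2),
    Finset.card_image_of_injective _ (fun x y h => (List.cons.inj h).2),
    Finset.card_erase_of_mem hA]
  · omega
  · rw [Finset.disjoint_left]
    intro x hx hy
    rw [Finset.mem_image] at hx hy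
    obtain ⟨v, _, rfl⟩ := hx
    obtain ⟨v', _, h⟩ := hy
    exact absurd (List.cons.inj h).1 (by decide)
  · intro h
    rw [Finset.mem_union, Finset.mem_image, Finset.mem_image] at h
    rcases h with ⟨v, _, h⟩ | ⟨v, _, h⟩
    · exact absurd h (List.cons_ne_nil _ _)
    · exact absurd h (List.cons_ne_nil _ _)

/-- the first letter of a good word in a filtered family -/
theorem n4_FA_succ (s r : ℕ) : FA (s + 1) (r + 1) =
    insert [] (((FA s (r + 1)).erase []).image (fun w => false :: w) ∪ (FA s r).image (fun w => true :: w)) := by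
  ext w
  rw [n4_mem_FA, Finset.mem_insert, Finset.mem_union, Finset.mem_image, Finset.mem_image]
  constructor
  · rintro ⟨⟨hg, hl⟩, hc⟩
    rcases w with _ | ⟨a, v⟩
    · exact Or.inl rfl
    · have hl' : v.length ≤ s := by simpa using hl
      cases a
      · refine Or.inr (Or.inl ⟨v, Finset.mem_erase.2 ⟨good_false_ne _ hg, (n4_mem_FA _ _ _).2 ⟨⟨good_tail _ _ hg, hl'⟩, ?_⟩⟩, rfl⟩)
        simpa [List.count_cons] using hc
      · refine Or.inr (Or.inr ⟨v, (n4_mem_FA _ _ _).2 ⟨⟨good_tail _ _ hg, hl'⟩, ?_⟩, rfl⟩)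
        simpa [List.count_cons] using hc
  · rintro (rfl | ⟨v, hv, rfl⟩ | ⟨v, hv, rfl⟩)
    · exact ⟨⟨rfl, Nat.zero_le _⟩, Nat.zero_le _⟩
    · rw [Finset.mem_erase, n4_mem_FA] at hv
      refine ⟨⟨good_cons _ _ hv.1 hv.2.1.1, by simpa using hv.2.1.2⟩, ?_⟩
      simpa [List.count_cons] using hv.2.2
    · rw [n4_mem_FA] at hv
      refine ⟨⟨good_true _ hv.1.1, by simpa using hv.1.2⟩, ?_⟩
      simpa [List.count_cons] using hv.2

theorem n4_FB_succ (s t : ℕ) : FB (s + 1) (t + 1) =
    insert [] (((FB s t).erase []).image (fun w => false :: w) ∪ (FB s (t + 1)).image (fun w => true :: w)) := by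
  ext w
  rw [n4_mem_FB, Finset.mem_insert, Finset.mem_union, Finset.mem_image, Finset.mem_image]
  constructor
  · rintro ⟨⟨hg, hl⟩, hc⟩
    rcases w with _ | ⟨a, v⟩
    · exact Or.inl rfl
    · have hl' : v.length ≤ s := by simpa using hl
      cases a
      · refine Or.inr (Or.inl ⟨v, Finset.mem_erase.2 ⟨good_false_ne _ hg, (n4_mem_FB _ _ _).2 ⟨⟨good_tail _ _ hg, hl'⟩, ?_⟩⟩, rfl⟩)
        simpa [List.count_cons] using hc
      · refine Or.inr (Or.inr ⟨v, (n4_mem_FB _ _ _).2 ⟨⟨good_tail _ _ hg, hl'⟩, ?_⟩, rfl⟩)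
        simpa [List.count_cons] using hc
  · rintro (rfl | ⟨v, hv, rfl⟩ | ⟨v, hv, rfl⟩)
    · exact ⟨⟨rfl, Nat.zero_le _⟩, Nat.zero_le _⟩
    · rw [Finset.mem_erase, n4_mem_FB] at hv
      refine ⟨⟨good_cons _ _ hv.1 hv.2.1.1, by simpa using hv.2.1.2⟩, ?_⟩
      simpa [List.count_cons] using hv.2.2
    · rw [n4_mem_FB] at hv
      refine ⟨⟨good_true _ hv.1.1, by simpa using hv.1.2⟩, ?_⟩
      simpa [List.count_cons] using hv.2

theorem n4_FB_zero (s : ℕ) : FB (s + 1) 0 = insert [] ((FB s 0).image (fun w => true :: w)) := by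
  ext w
  rw [n4_mem_FB, Finset.mem_insert, Finset.mem_image]
  constructor
  · rintro ⟨⟨hg, hl⟩, hc⟩
    rcases w with _ | ⟨a, v⟩
    · exact Or.inl rfl
    · have hl' : v.length ≤ s := by simpa using hl
      cases a
      · simp [List.count_cons] at hc
      · refine Or.inr ⟨v, (n4_mem_FB _ _ _).2 ⟨⟨good_tail _ _ hg, hl'⟩, ?_⟩, rfl⟩
        simpa [List.count_cons] using hc
  · rintro (rfl | ⟨v, hv, rfl⟩)
    · exact ⟨⟨rfl, Nat.zero_le _⟩, Nat.zero_le _⟩
    · rw [n4_mem_FB] at hv
      refine ⟨⟨good_true _ hv.1.1, by simpa using hv.1.2⟩, ?_⟩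
      simpa [List.count_cons] using hv.2

/-- a good word without the letter `true` is empty -/
theorem n4_good_count : ∀ w : List Bool, good w = true → w.count true ≤ 0 → w = [] := by
  intro w
  induction w with
  | nil => intro _ _; rfl
  | cons a v ih =>
    intro hg hc
    cases a
    · have h1 := ih (good_tail _ _ hg) (by simpa [List.count_cons] using hc)
      exact absurd h1 (good_false_ne _ hg)
    · simp [List.count_cons] at hc

theorem n4_FA_zero (s : ℕ) : FA s 0 = {[]} := by
  ext w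
  rw [n4_mem_FA, Finset.mem_singleton]
  constructor
  · rintro ⟨⟨hg, hl⟩, hc⟩
    exact n4_good_count w hg hc
  · rintro rfl
    exact ⟨⟨rfl, Nat.zero_le _⟩, Nat.zero_le _⟩

theorem n4_FA_zero' (r : ℕ) : FA 0 r = {[]} := by
  ext w
  rw [n4_mem_FA, Finset.mem_singleton]
  constructor
  · rintro ⟨⟨hg, hl⟩, hc⟩
    exact List.length_eq_zero_iff.1 (Nat.le_zero.1 hl)
  · rintro rfl
    exact ⟨⟨rfl, Nat.zero_le _⟩, Nat.zero_le _⟩

theorem n4_FB_zero' (t : ℕ) : FB 0 t = {[]} := by
  ext w
  rw [n4_mem_FB, Finset.mem_singleton]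
  constructor
  · rintro ⟨⟨hg, hl⟩, hc⟩
    exact List.length_eq_zero_iff.1 (Nat.le_zero.1 hl)
  · rintro rfl
    exact ⟨⟨rfl, Nat.zero_le _⟩, Nat.zero_le _⟩

theorem n4_sum_zero (r : ℕ) : ∑ j ∈ range (r + 1), (0 : ℕ).choose j = 1 := by
  rw [Finset.sum_range_succ']
  simp

/-- Induction on `s` for all `r`. `FA 0 r = {[]}`. `FA (s+1) 0 = {[]}` (a good nonempty word contains
`true`). `FA (s+1) (r+1)` is the disjoint union of `{[]}`, `(FA s (r+1)).erase []` with `false` in
front and `FA s r` with `true` in front (compare `card_GW` in `GWa.lean`), so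
`card (FA (s+1) (r+1)) = card (FA s (r+1)) + card (FA s r)`; Pascal's rule
(`Finset.sum_range_succ'`, `Nat.choose_succ_succ`). -/
theorem card_FA (s r : ℕ) : (FA s r).card = ∑ j ∈ range (r + 1), s.choose j := by
  induction s generalizing r with
  | zero => rw [n4_FA_zero', n4_sum_zero, Finset.card_singleton]
  | succ s ih =>
    rcases r with _ | r
    · rw [n4_FA_zero, Finset.card_singleton]
      simp
    · rw [n4_FA_succ, n4_card _ _ (fam_FA s (r + 1)).nil, ih, ih, n4_pascal]

/-- The same for `FB`: `FB 0 t = {[]}`, `FB (s+1) 0` is `{[]}` and `FB s 0` with `true` in front;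
`FB (s+1) (t+1)` is the disjoint union of `{[]}`, `(FB s t).erase []` with `false` in front and
`FB s (t+1)` with `true` in front. -/
theorem card_FB (s t : ℕ) : (FB s t).card = ∑ j ∈ range (t + 2), s.choose j := by
  induction s generalizing t with
  | zero => rw [n4_FB_zero', n4_sum_zero, Finset.card_singleton]
  | succ s ih =>
    rcases t with _ | t
    · rw [n4_FB_zero, Finset.card_insert_of_notMem,
        Finset.card_image_of_injective _ (fun x y h => (List.cons.inj h).2), ih]
      · simp [Finset.sum_range_succ]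
        omega
      · intro h
        rw [Finset.mem_image] at h
        obtain ⟨v, _, h⟩ := h
        exact absurd h (List.cons_ne_nil _ _)
    · rw [n4_FB_succ, n4_card _ _ (fam_FB s t).nil, ih, ih, n4_pascal, add_comm]

end MZG
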