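import Mathlib

/-!
# Row dz-N5: numerical inequality for Theorem 3
-/

set_option autoImplicit false

namespace MZG

open Finset

/-- `∑_{j<ρ} C(n,j) ≤ (k/ρ)^(ρ-1) exp ρ` for `1 ≤ ρ ≤ k`, `n ≤ k`: with `x = ρ/k ≤ 1`,
`x^(ρ-1) ∑_{j<ρ} C(n,j) ≤ ∑_j C(n,j) x^j = (1+x)^n ≤ exp (x k) = exp ρ` (`add_pow`,
`Real.add_one_le_exp`). -/
theorem sum_choose_le (n k ρ : ℕ) (h1 : 1 ≤ ρ) (h2 : ρ ≤ k) (h3 : n ≤ k) :
    ((∑ j ∈ range ρ, n.choose j : ℕ) : ℝ) ≤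
      ((k : ℝ) / ρ) ^ (ρ - 1) * Real.exp ρ := by
  have hρ : (0 : ℝ) < ρ := by exact_mod_cast h1
  have hk : (0 : ℝ) < k := by exact_mod_cast (lt_of_lt_of_le h1 h2)
  have hρk : (ρ : ℝ) ≤ k := by exact_mod_cast h2
  set x : ℝ := (ρ : ℝ) / k with hx
  have hx0 : 0 < x := div_pos hρ hk
  have hx1 : x ≤ 1 := (div_le_one hk).mpr hρk
  have hxk : x * k = ρ := div_mul_cancel₀ _ hk.ne'
  have e1 : x ^ (ρ - 1) * ((∑ j ∈ range ρ, n.choose j : ℕ) : ℝ) ≤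
      ∑ j ∈ range ρ, (n.choose j : ℝ) * x ^ j := by
    rw [Nat.cast_sum, Finset.mul_sum]
    apply Finset.sum_le_sum
    intro j hj
    rw [mul_comm]
    apply mul_le_mul_of_nonneg_left _ (Nat.cast_nonneg _)
    apply pow_le_pow_of_le_one hx0.le hx1
    have := Finset.mem_range.mp hj
    omega
  have e2 : ∑ j ∈ range ρ, (n.choose j : ℝ) * x ^ j ≤ (1 + x) ^ n := by
    have f1 : ∑ j ∈ range ρ, (n.choose j : ℝ) * x ^ j ≤
        ∑ j ∈ range (ρ + (n + 1)), (n.choose j : ℝ) * x ^ j := by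
      apply Finset.sum_le_sum_of_subset_of_nonneg
      · apply Finset.range_subset_range.mpr
        omega
      · intro j _ _
        exact mul_nonneg (Nat.cast_nonneg _) (pow_nonneg hx0.le _)
    have f2 : ∑ j ∈ range (n + 1), (n.choose j : ℝ) * x ^ j =
        ∑ j ∈ range (ρ + (n + 1)), (n.choose j : ℝ) * x ^ j := by
      apply Finset.sum_subset
      · apply Finset.range_subset_range.mpr
        omega
      · intro j _ hj
        have h7 : ¬ j < n + 1 := fun h => hj (Finset.mem_range.mpr h)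
        rw [Nat.choose_eq_zero_of_lt (by omega), Nat.cast_zero, zero_mul]
    have f3 : (1 + x) ^ n = ∑ j ∈ range (n + 1), (n.choose j : ℝ) * x ^ j := by
      rw [add_comm, add_pow]
      apply Finset.sum_congr rfl
      intro j _
      rw [one_pow, mul_one, mul_comm]
    rw [f3, f2]
    exact f1
  have e3 : (1 + x) ^ n ≤ Real.exp ρ := by
    calc (1 + x) ^ n ≤ (1 + x) ^ k := pow_le_pow_right₀ (by linarith) h3
      _ ≤ (Real.exp x) ^ k := by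
          apply pow_le_pow_left₀ (by linarith)
          have := Real.add_one_le_exp x
          linarith
      _ = Real.exp ρ := by
          rw [← Real.exp_nat_mul]
          congr 1
          rw [mul_comm]
          exact hxk
  have e4 : ((k : ℝ) / ρ) ^ (ρ - 1) * x ^ (ρ - 1) = 1 := by
    rw [← mul_pow]
    have : (k : ℝ) / ρ * x = 1 := by
      rw [hx]
      field_simp
    rw [this, one_pow]
  have e5 : 0 < ((k : ℝ) / ρ) ^ (ρ - 1) := pow_pos (div_pos hk hρ) _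
  calc ((∑ j ∈ range ρ, n.choose j : ℕ) : ℝ)
      = ((k : ℝ) / ρ) ^ (ρ - 1) * (x ^ (ρ - 1) * ((∑ j ∈ range ρ, n.choose j : ℕ) : ℝ)) := by
        rw [← mul_assoc, e4, one_mul]
    _ ≤ ((k : ℝ) / ρ) ^ (ρ - 1) * Real.exp ρ :=
        mul_le_mul_of_nonneg_left (e1.trans (e2.trans e3)) e5.le

/-- `C(s,r) ≥ (s/r)^r` is `Nat.pow_le_choose`-like (`(s/r)^r ≤ C(s,r)`; if there is only
`Nat.pow_le_choose : ((n + 1 - r)^r / r!)`, prove it by `C(s,r) = ∏_{i<r} (s-i)/(r-i)` and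
`(s-i)/(r-i) ≥ s/r`). -/
theorem div_pow_le_choose (s r : ℕ) (h1 : 1 ≤ r) (h2 : r ≤ s) :
    ((s : ℝ) / r) ^ r ≤ (s.choose r : ℝ) := by
  induction r generalizing s with
  | zero => omega
  | succ r ih =>
    obtain ⟨t, rfl⟩ : ∃ t, s = t + 1 := ⟨s - 1, by omega⟩
    rcases Nat.eq_zero_or_pos r with rfl | hr
    · simp
    · have ih := ih t hr (by omega)
      have h : ((t : ℝ) + 1) * (t.choose r : ℝ) = ((t + 1).choose (r + 1) : ℝ) * ((r : ℝ) + 1) := by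
        exact_mod_cast Nat.add_one_mul_choose_eq t r
      have hr0 : (0 : ℝ) < r := by exact_mod_cast hr
      have hrt : (r : ℝ) ≤ t := by exact_mod_cast (by omega : r ≤ t)
      have h3 : ((t : ℝ) + 1) / ((r : ℝ) + 1) ≤ (t : ℝ) / r := by
        rw [div_le_div_iff₀ (by positivity) hr0]
        nlinarith
      have h4 : 0 ≤ ((t : ℝ) + 1) / ((r : ℝ) + 1) := by positivity
      push_cast
      calc (((t : ℝ) + 1) / ((r : ℝ) + 1)) ^ (r + 1)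
          = (((t : ℝ) + 1) / ((r : ℝ) + 1)) ^ r * (((t : ℝ) + 1) / ((r : ℝ) + 1)) := pow_succ _ _
        _ ≤ ((t : ℝ) / r) ^ r * (((t : ℝ) + 1) / ((r : ℝ) + 1)) :=
            mul_le_mul_of_nonneg_right (pow_le_pow_left₀ h4 h3 _) h4
        _ ≤ (t.choose r : ℝ) * (((t : ℝ) + 1) / ((r : ℝ) + 1)) :=
            mul_le_mul_of_nonneg_right ih h4
        _ = ((t + 1).choose (r + 1) : ℝ) := by
            rw [mul_div_assoc', mul_comm, h, mul_div_assoc, div_self (by positivity), mul_one]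

lemma n5_main (A : ℝ) (hA : 4 < A) (c M : ℝ) (hc : c = 1 / (3 * A / 2 + 6))
    (k ρ : ℕ) (y : ℝ) (hy : y = (k : ℝ) / ρ) (hρ : 1 ≤ ρ) (h9 : 9 ≤ y)
    (hM : M = 8 * (2738 / c) / (c ^ (2 + (A - 4) / 2) * Real.exp (-2)))
    (hyM : M ≤ y ^ ((A - 4) / 2)) :
    (2738 : ℝ) * (k : ℝ) ^ 3 * y ^ (2 * ρ - 2) * Real.exp (2 * ρ) <
      (c * y) ^ ((2 : ℝ) * ρ + (A - 4) / 2 * ρ + 1) := by
  set a : ℝ := (A - 4) / 2 with ha
  have ha0 : 0 < a := by
    rw [ha]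
    linarith
  have hc0 : 0 < c := by
    rw [hc]
    positivity
  have hc1 : c ≤ 1 := by
    rw [hc, div_le_one (by positivity)]
    linarith
  have hy0 : 0 < y := by linarith
  have hρ0 : (0 : ℝ) < ρ := by exact_mod_cast hρ
  have hk : (k : ℝ) = y * ρ := by
    rw [hy]
    field_simp
  -- the right side
  have hR : (c * y) ^ ((2 : ℝ) * ρ + a * ρ + 1) =
      c * (c ^ (2 + a) * y ^ a) ^ ρ * y ^ (2 * ρ + 1) := by
    rw [Real.mul_rpow hc0.le hy0.le, mul_pow, ← Real.rpow_natCast (c ^ (2 + a)) ρ,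
      ← Real.rpow_natCast (y ^ a) ρ, ← Real.rpow_mul hc0.le, ← Real.rpow_mul hy0.le]
    have e1 : c ^ ((2 : ℝ) * ρ + a * ρ + 1) = c ^ ((2 + a) * ρ) * c := by
      rw [Real.rpow_add hc0, Real.rpow_one]
      congr 2
      ring
    have e2 : y ^ ((2 : ℝ) * ρ + a * ρ + 1) = y ^ (a * ρ) * y ^ (2 * ρ + 1) := by
      rw [← Real.rpow_natCast y (2 * ρ + 1), ← Real.rpow_add hy0]
      congr 1
      push_cast
      ring
    rw [e1, e2]
    ring
  have hL : (2738 : ℝ) * (k : ℝ) ^ 3 * y ^ (2 * ρ - 2) * Real.exp (2 * ρ) =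
      2738 * (ρ : ℝ) ^ 3 * (Real.exp 2) ^ ρ * y ^ (2 * ρ + 1) := by
    have e1 : Real.exp (2 * ρ) = (Real.exp 2) ^ ρ := by
      rw [← Real.exp_nat_mul]
      congr 1
      ring
    have e2 : y ^ (2 * ρ + 1) = y ^ 3 * y ^ (2 * ρ - 2) := by
      rw [← pow_add]
      congr 1
      omega
    rw [e1, e2, hk]
    ring
  rw [hR, hL]
  apply mul_lt_mul_of_pos_right _ (pow_pos hy0 _)
  -- 2738 ρ³ e^(2ρ) < c (c^(2+a) y^a)^ρ
  have hca : 0 < c ^ (2 + a) := Real.rpow_pos_of_pos hc0 _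
  have hB : (8 * (2738 / c)) * Real.exp 2 ≤ c ^ (2 + a) * y ^ a := by
    have h1 : M * c ^ (2 + a) ≤ c ^ (2 + a) * y ^ a := by
      rw [mul_comm]
      exact mul_le_mul_of_nonneg_left hyM hca.le
    have h2 : M * c ^ (2 + a) = (8 * (2738 / c)) * Real.exp 2 := by
      rw [hM, Real.exp_neg]
      have := (Real.exp_pos 2).ne'
      field_simp
    rw [← h2]
    exact h1
  have h2738 : 1 ≤ 2738 / c := by
    rw [le_div_iff₀ hc0]
    linarith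
  have h8 : (ρ : ℝ) ^ 3 < 8 ^ ρ := by
    have h1 : ρ < 2 ^ ρ := Nat.lt_two_pow_self
    have h2 : (ρ : ℝ) < 2 ^ ρ := by exact_mod_cast h1
    have h3 : ((2 : ℝ) ^ ρ) ^ 3 = 8 ^ ρ := by
      rw [← pow_mul, mul_comm, pow_mul]
      norm_num
    rw [← h3]
    exact pow_lt_pow_left₀ h2 hρ0.le (by norm_num)
  have hP : (2738 / c) * 8 ^ ρ * (Real.exp 2) ^ ρ ≤ (c ^ (2 + a) * y ^ a) ^ ρ := by
    calc (2738 / c) * 8 ^ ρ * (Real.exp 2) ^ ρ
        ≤ (2738 / c) ^ ρ * 8 ^ ρ * (Real.exp 2) ^ ρ := by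
          apply mul_le_mul_of_nonneg_right _ (pow_nonneg (Real.exp_pos 2).le _)
          apply mul_le_mul_of_nonneg_right _ (by positivity)
          exact le_self_pow₀ h2738 (by omega)
      _ = ((8 * (2738 / c)) * Real.exp 2) ^ ρ := by
          rw [mul_pow, mul_pow]
          ring
      _ ≤ (c ^ (2 + a) * y ^ a) ^ ρ := by
          apply pow_le_pow_left₀ _ hB
          have := Real.exp_pos 2
          positivity
  calc 2738 * (ρ : ℝ) ^ 3 * (Real.exp 2) ^ ρ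
      < 2738 * 8 ^ ρ * (Real.exp 2) ^ ρ := by
        apply mul_lt_mul_of_pos_right _ (pow_pos (Real.exp_pos 2) _)
        linarith
    _ = c * ((2738 / c) * 8 ^ ρ * (Real.exp 2) ^ ρ) := by
        field_simp
    _ ≤ c * (c ^ (2 + a) * y ^ a) ^ ρ := mul_le_mul_of_nonneg_left hP hc0.le

/-- Put `a = (A-4)/2 > 0`, `y = k/ρ`, `r = (⌊A ρ⌋ + 4)/2` (natural division), `s = (k-2)/2`.
Then `2 r ≤ ⌊A ρ⌋ + 4`, `r ≥ (⌊Aρ⌋+3)/2 ≥ (Aρ + 2)/2 = 2 ρ + a ρ + 1`, `r ≤ (Aρ+4)/2 ≤ (A/2+2) ρ`;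
for `k ≥ 9`: `k/3 ≤ s ≤ k/2`. With `c = 1/(3A/2+6)`: `s/r ≥ c y`. Let `K ≥ 9`, `K ≥ 1/c`. Then `c y ≥ 1`
(`y ≥ K`), in particular `r ≤ s`, and
`C(s,r) ≥ (s/r)^r ≥ (c y)^r ≥ (c y)^(2ρ + aρ + 1)` (real power). The other side:
`(74 k)² s N² ≤ 2738 k³ y^(2ρ-2) exp (2ρ)` (`sum_choose_le`). As `k = y ρ`, the quotient of the two sides is at least
`c (c^(2+a) e^(-2) y^a)^ρ / (2738 ρ³)`, `y^a ≥ K^a`; choose `K` with
`G = c^(2+a) e^(-2) K^a ≥ 8 * 2738/c`; then `G^ρ ≥ (8*2738/c)^ρ ≥ (2738/c) 8^ρ > (2738/c) ρ³`. -/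
theorem thm3_num (A : ℝ) (hA : 4 < A) : ∃ K : ℕ, 1 ≤ K ∧ ∀ k ρ : ℕ, 1 ≤ ρ → K * ρ ≤ k →
    ∃ r, 1 ≤ r ∧ 2 * r + 2 ≤ k ∧ 2 * r ≤ ⌊A * ρ⌋₊ + 4 ∧
      (74 * (k : ℝ)) ^ 2 * (((k - 2) / 2 : ℕ) : ℝ) *
        ((∑ j ∈ range ρ, (k - 2).choose j : ℕ) : ℝ) ^ 2 < ((((k - 2) / 2).choose r : ℕ) : ℝ) := by
  set a : ℝ := (A - 4) / 2 with ha
  have ha0 : 0 < a := by
    rw [ha]
    linarith
  set c : ℝ := 1 / (3 * A / 2 + 6) with hc
  have hc0 : 0 < c := by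
    rw [hc]
    positivity
  set M : ℝ := 8 * (2738 / c) / (c ^ (2 + a) * Real.exp (-2)) with hM
  have hM0 : 0 < M := by
    have := Real.rpow_pos_of_pos hc0 (2 + a)
    have := Real.exp_pos (-2)
    rw [hM]
    positivity
  set K : ℕ := 9 + ⌈1 / c⌉₊ + ⌈M ^ (1 / a)⌉₊ with hK
  refine ⟨K, by omega, ?_⟩
  intro k ρ hρ hk
  have hρ0 : (0 : ℝ) < ρ := by exact_mod_cast hρ
  have hρ1 : (1 : ℝ) ≤ ρ := by exact_mod_cast hρ
  have hkK : (K : ℝ) * ρ ≤ k := by exact_mod_cast hk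
  set y : ℝ := (k : ℝ) / ρ with hy
  have hyK : (K : ℝ) ≤ y := by
    rw [hy, le_div_iff₀ hρ0]
    exact hkK
  have hKr : (K : ℝ) = 9 + (⌈1 / c⌉₊ : ℝ) + (⌈M ^ (1 / a)⌉₊ : ℝ) := by
    rw [hK]
    push_cast
    ring
  have hp1 : (0 : ℝ) ≤ (⌈1 / c⌉₊ : ℝ) := Nat.cast_nonneg _
  have hp2 : (0 : ℝ) ≤ (⌈M ^ (1 / a)⌉₊ : ℝ) := Nat.cast_nonneg _
  have hy9 : 9 ≤ y := by linarith
  have hy1 : 1 / c ≤ y := by
    have := Nat.le_ceil (1 / c)
    linarith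
  have hyM1 : M ^ (1 / a) ≤ y := by
    have := Nat.le_ceil (M ^ (1 / a))
    linarith
  have hy0 : 0 < y := by linarith
  have hcy : 1 ≤ c * y := by
    rw [div_le_iff₀ hc0] at hy1
    linarith
  have hyM : M ≤ y ^ a := by
    have h1 : (M ^ (1 / a)) ^ a = M := by
      rw [← Real.rpow_mul hM0.le, one_div_mul_cancel ha0.ne', Real.rpow_one]
    rw [← h1]
    exact Real.rpow_le_rpow (Real.rpow_nonneg hM0.le _) hyM1 ha0.le
  have hky : (k : ℝ) = y * ρ := by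
    rw [hy]
    field_simp
  have hk9 : 9 ≤ k := by
    have : (9 : ℝ) ≤ k := by
      rw [hky]
      nlinarith
    exact_mod_cast this
  have hρk : ρ ≤ k := by
    have h1 : ρ ≤ K * ρ := Nat.le_mul_of_pos_left ρ (by omega)
    omega
  have hmain := n5_main A hA c M hc k ρ y hy hρ hy9 hM hyM
  -- the number r
  set f : ℕ := ⌊A * ρ⌋₊ with hf
  have hAρ : 0 ≤ A * ρ := by positivity
  have hf1 : (f : ℝ) ≤ A * ρ := Nat.floor_le hAρ
  have hf2 : A * ρ < f + 1 := Nat.lt_floor_add_one _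
  set r : ℕ := (f + 4) / 2 with hr
  set s : ℕ := (k - 2) / 2 with hs
  have hr1 : 1 ≤ r := by omega
  have hr2 : 2 * r ≤ f + 4 := by omega
  have hr3 : f + 3 ≤ 2 * r := by omega
  have hr2' : 2 * (r : ℝ) ≤ f + 4 := by exact_mod_cast hr2
  have hr3' : (f : ℝ) + 3 ≤ 2 * r := by exact_mod_cast hr3
  have hs1 : k ≤ 3 * s := by omega
  have hs2 : 2 * s ≤ k := by omega
  have hs1' : (k : ℝ) ≤ 3 * s := by exact_mod_cast hs1
  have hs2' : 2 * (s : ℝ) ≤ k := by exact_mod_cast hs2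
  have hr0 : (0 : ℝ) < r := by exact_mod_cast hr1
  have hr4 : (r : ℝ) ≤ (A / 2 + 2) * ρ := by nlinarith
  have hr5 : (2 : ℝ) * ρ + a * ρ + 1 ≤ r := by
    rw [ha]
    nlinarith
  have hsr : c * y ≤ (s : ℝ) / r := by
    rw [le_div_iff₀ hr0]
    have h1 : c * y * r ≤ c * y * ((A / 2 + 2) * ρ) := by
      apply mul_le_mul_of_nonneg_left hr4
      positivity
    have h2 : c * y * ((A / 2 + 2) * ρ) = k / 3 := by
      rw [hky, hc]
      field_simp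
      ring
    linarith
  have hrs : r ≤ s := by
    have h1 : 1 ≤ (s : ℝ) / r := hcy.trans hsr
    rw [le_div_iff₀ hr0, one_mul] at h1
    exact_mod_cast h1
  refine ⟨r, hr1, by omega, hr2, ?_⟩
  have hN := sum_choose_le (k - 2) k ρ hρ hρk (by omega)
  set N : ℝ := ((∑ j ∈ range ρ, (k - 2).choose j : ℕ) : ℝ) with hNdef
  have hN0 : 0 ≤ N := Nat.cast_nonneg _
  calc (74 * (k : ℝ)) ^ 2 * (s : ℝ) * N ^ 2
      ≤ (74 * (k : ℝ)) ^ 2 * ((k : ℝ) / 2) * (y ^ (ρ - 1) * Real.exp ρ) ^ 2 := by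
        apply mul_le_mul
        · apply mul_le_mul_of_nonneg_left _ (by positivity)
          linarith
        · exact pow_le_pow_left₀ hN0 hN 2
        · positivity
        · positivity
    _ = 2738 * (k : ℝ) ^ 3 * y ^ (2 * ρ - 2) * Real.exp (2 * ρ) := by
        have e1 : y ^ (2 * ρ - 2) = (y ^ (ρ - 1)) ^ 2 := by
          rw [← pow_mul]
          congr 1
          omega
        have e2 : Real.exp (2 * ρ) = Real.exp ρ ^ 2 := by
          rw [← Real.exp_nat_mul]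
          norm_num
        rw [e1, e2]
        ring
    _ < (c * y) ^ ((2 : ℝ) * ρ + a * ρ + 1) := hmain
    _ ≤ (c * y) ^ (r : ℝ) := Real.rpow_le_rpow_of_exponent_le hcy hr5
    _ = (c * y) ^ r := Real.rpow_natCast _ _
    _ ≤ ((s : ℝ) / r) ^ r := pow_le_pow_left₀ (by linarith) hsr _
    _ ≤ (s.choose r : ℝ) := div_pow_le_choose s r hr1 hrs

end MZG
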