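import Mathlib

/-!
# Row dz-N6: numerical inequality for Theorem 4
-/

set_option autoImplicit false

namespace MZG

open Finset

/-- the binomial sum, with `q = k / 24`, is at most `23 ^ q * (24/23) ^ k`. -/
theorem nx_sum_le (k : ℕ) :
    ((∑ j ∈ range (k / 24), (k - 2).choose j : ℕ) : ℝ) ≤ (23 : ℝ) ^ (k / 24) * (24 / 23 : ℝ) ^ k := by
  have h1 : ((∑ j ∈ range (k / 24), (k - 2).choose j : ℕ) : ℝ) ≤
      ∑ j ∈ range (k / 24), (k.choose j : ℝ) := by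
    push_cast
    refine Finset.sum_le_sum fun j _ => ?_
    exact_mod_cast Nat.choose_le_choose j (Nat.sub_le k 2)
  have h2 : ∑ j ∈ range (k / 24), (k.choose j : ℝ) ≤
      ∑ j ∈ range (k / 24), (23 : ℝ) ^ (k / 24) * ((1 / 23 : ℝ) ^ j * (k.choose j : ℝ)) := by
    refine Finset.sum_le_sum fun j hj => ?_
    have hj' : j ≤ k / 24 := (mem_range.1 hj).le
    have h3 : (1 : ℝ) ≤ (23 : ℝ) ^ (k / 24) * (1 / 23 : ℝ) ^ j := by
      have : (1 : ℝ) = (23 : ℝ) ^ j * (1 / 23 : ℝ) ^ j := by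
        rw [← mul_pow]; norm_num
      calc (1 : ℝ) = (23 : ℝ) ^ j * (1 / 23 : ℝ) ^ j := this
        _ ≤ (23 : ℝ) ^ (k / 24) * (1 / 23 : ℝ) ^ j := by
          apply mul_le_mul_of_nonneg_right _ (by positivity)
          exact pow_le_pow_right₀ (by norm_num) hj'
    have h4 : (0 : ℝ) ≤ (k.choose j : ℝ) := by positivity
    calc (k.choose j : ℝ) = 1 * (k.choose j : ℝ) := by ring
      _ ≤ ((23 : ℝ) ^ (k / 24) * (1 / 23 : ℝ) ^ j) * (k.choose j : ℝ) :=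
          mul_le_mul_of_nonneg_right h3 h4
      _ = _ := by ring
  have h5 : ∑ j ∈ range (k / 24), ((1 / 23 : ℝ) ^ j * (k.choose j : ℝ)) ≤ (24 / 23 : ℝ) ^ k := by
    have h6 : (24 / 23 : ℝ) ^ k = ∑ j ∈ range (k + 1), ((1 / 23 : ℝ) ^ j * (k.choose j : ℝ)) := by
      have := add_pow (1 / 23 : ℝ) 1 k
      rw [show (24 / 23 : ℝ) = 1 / 23 + 1 by norm_num, this]
      refine Finset.sum_congr rfl fun j _ => by simp
    rw [h6]
    refine Finset.sum_le_sum_of_subset_of_nonneg ?_ fun _ _ _ => by positivity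
    intro j hj
    rw [mem_range] at hj ⊢
    have := Nat.div_le_self k 24
    omega
  rw [← Finset.mul_sum] at h2
  calc _ ≤ _ := h1
    _ ≤ _ := h2
    _ ≤ _ := mul_le_mul_of_nonneg_left h5 (by positivity)

/-- `∑_{j < k/24} C(k-2,j) ≤ ∑_{j ≤ k/24} C(k,j) ≤ x^(-k/24) (1+x)^k` with `x = 1/23` (`add_pow`: terms with
`j ≤ k/24` have `x^j ≥ x^(k/24)`), so it is at most `β^k` with `β = (24/23) * 23^(1/24)`,
`β^24 = 24^24/23^23 < 64 = (2^(1/4))^24`. So `β < 2^(1/4)` and `250 k² β^k < 2^(k/4)` for large `k`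
(polynomial against exponential, e.g. `tendsto_pow_const_div_const_pow_of_one_lt`). -/
theorem thm4_num : ∃ k0 : ℕ, 2 ≤ k0 ∧ ∀ k ≥ k0,
    250 * (k : ℝ) ^ 2 * ((∑ j ∈ range (k / 24), (k - 2).choose j : ℕ) : ℝ) <
      (2 : ℝ) ^ ((k : ℝ) / 4) := by
  -- the ratio
  set ρ : ℝ := 23 * (24 / 23 : ℝ) ^ 24 / 64 with hρ
  have hρ0 : 0 < ρ := by rw [hρ]; positivity
  have hρ1 : ρ < 1 := by rw [hρ]; norm_num
  have hlim := tendsto_pow_const_mul_const_pow_of_abs_lt_one 2 (r := ρ)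
    (by rw [abs_of_pos hρ0]; exact hρ1)
  have hev := hlim.eventually (gt_mem_nhds (show (0 : ℝ) < 1 / (250 * 48 ^ 2 * 3) by norm_num))
  obtain ⟨q0, hq0⟩ := Filter.eventually_atTop.1 hev
  refine ⟨24 * (q0 + 1), by omega, fun k hk => ?_⟩
  set q := k / 24 with hq
  have hqk : 24 * q ≤ k := by rw [hq]; exact Nat.mul_div_le k 24
  have hkq : k < 24 * q + 24 := by omega
  have hq1 : q0 + 1 ≤ q := by omega
  have hb := hq0 q (by omega)
  have hs := nx_sum_le k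
  rw [← hq] at hs
  -- bound `(24/23)^k`
  have h1 : (24 / 23 : ℝ) ^ k ≤ 3 * ((24 / 23 : ℝ) ^ 24) ^ q := by
    calc (24 / 23 : ℝ) ^ k ≤ (24 / 23 : ℝ) ^ (24 * q + 24) :=
          pow_le_pow_right₀ (by norm_num) hkq.le
      _ = (24 / 23 : ℝ) ^ 24 * ((24 / 23 : ℝ) ^ 24) ^ q := by rw [pow_add, pow_mul]; ring
      _ ≤ 3 * ((24 / 23 : ℝ) ^ 24) ^ q := by
          apply mul_le_mul_of_nonneg_right _ (by positivity)
          norm_num
  have h2 : (k : ℝ) ^ 2 ≤ 48 ^ 2 * (q : ℝ) ^ 2 := by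
    have : (k : ℝ) ≤ 48 * q := by
      have : k ≤ 48 * q := by omega
      exact_mod_cast this
    calc (k : ℝ) ^ 2 ≤ (48 * (q : ℝ)) ^ 2 := pow_le_pow_left₀ (by positivity) this 2
      _ = _ := by ring
  have h3 : (64 : ℝ) ^ q ≤ (2 : ℝ) ^ ((k : ℝ) / 4) := by
    have : (64 : ℝ) ^ q = (2 : ℝ) ^ ((6 * q : ℕ) : ℝ) := by
      rw [Real.rpow_natCast, pow_mul]; norm_num
    rw [this]
    apply Real.rpow_le_rpow_of_exponent_le (by norm_num)
    have : (24 * q : ℝ) ≤ k := by exact_mod_cast hqk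
    push_cast
    linarith
  have h4 : ρ ^ q * 64 ^ q = (23 : ℝ) ^ q * ((24 / 23 : ℝ) ^ 24) ^ q := by
    rw [← mul_pow, ← mul_pow, hρ]; congr 1; ring
  calc 250 * (k : ℝ) ^ 2 * ((∑ j ∈ range q, (k - 2).choose j : ℕ) : ℝ)
      ≤ 250 * (48 ^ 2 * (q : ℝ) ^ 2) * ((23 : ℝ) ^ q * (3 * ((24 / 23 : ℝ) ^ 24) ^ q)) := by
        apply mul_le_mul
        · exact mul_le_mul_of_nonneg_left h2 (by norm_num)
        · exact hs.trans (mul_le_mul_of_nonneg_left h1 (by positivity))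
        · positivity
        · positivity
    _ = (250 * 48 ^ 2 * 3) * ((q : ℝ) ^ 2 * ρ ^ q) * 64 ^ q := by
        rw [show (250 * 48 ^ 2 * 3) * ((q : ℝ) ^ 2 * ρ ^ q) * 64 ^ q =
          (250 * 48 ^ 2 * 3) * (q : ℝ) ^ 2 * (ρ ^ q * 64 ^ q) by ring, h4]
        ring
    _ < 1 * 64 ^ q := by
        apply mul_lt_mul_of_pos_right _ (by positivity)
        calc (250 * 48 ^ 2 * 3 : ℝ) * ((q : ℝ) ^ 2 * ρ ^ q)
            < (250 * 48 ^ 2 * 3 : ℝ) * (1 / (250 * 48 ^ 2 * 3)) :=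
              mul_lt_mul_of_pos_left hb (by norm_num)
          _ = 1 := by norm_num
    _ = 64 ^ q := one_mul _
    _ ≤ _ := h3

end MZG
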