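import Pool.Agent.Lib.MP_e54452_nt.DF.Defs
import Pool.Agent.Lib.MP_e54452_nt.DG.COa

/-!
# Row dz-N7: depth and the stuffle product (compare `COa.lean`)
-/

set_option autoImplicit false

namespace MZG

open Finset Module
open scoped ENNReal Nat Polynomial

/-- same induction as `MPe54452.st_sum` (`Mzv.lean`) -/
theorem st_length (u v : List ℕ) : ∀ w ∈ MPe54452.st u v, w.length ≤ u.length + v.length := by
  induction h : u.length + v.length using Nat.strong_induction_on generalizing u v with
  | _ n ih =>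
  match u, v with
  | [], v =>
    intro w hw
    rw [MPe54452.st, List.mem_singleton] at hw
    rw [hw, ← h]
    simp
  | a :: u, [] =>
    intro w hw
    rw [MPe54452.st, List.mem_singleton] at hw
    rw [hw, ← h]
    simp
  | a :: u, b :: v =>
    intro w hw
    rw [MPe54452.st] at hw
    simp only [List.length_cons] at h
    simp only [List.mem_append, List.mem_map] at hw
    rcases hw with (⟨w', hw', rfl⟩ | ⟨w', hw', rfl⟩) | ⟨w', hw', rfl⟩
    · have h1 := ih (u.length + (b :: v).length) (by simp only [List.length_cons]; omega) u (b :: v) rfl w' hw'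
      simp only [List.length_cons] at h1 ⊢
      omega
    · have h1 := ih ((a :: u).length + v.length) (by simp only [List.length_cons]; omega) (a :: u) v rfl w' hw'
      simp only [List.length_cons] at h1 ⊢
      omega
    · have h1 := ih (u.length + v.length) (by omega) u v rfl w' hw'
      simp only [List.length_cons]
      omega

theorem n7_DZ_le (R k : ℕ) : MPe54452.DZ R k ≤ MPe54452.Z k := by
  unfold MPe54452.DZ MPe54452.Z
  apply Submodule.span_mono
  rintro x ⟨l, h1, h2, _, h4⟩
  exact ⟨l, h1, h2, h4⟩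

/-- `DZ R k ≤ Z k` -/
theorem DZ_finite (R k : ℕ) : FiniteDimensional ℚ (MPe54452.DZ R k) :=
  Submodule.finiteDimensional_of_le (n7_DZ_le R k)

theorem DZ_mono {R R' : ℕ} (h : R ≤ R') (k : ℕ) : MPe54452.DZ R k ≤ MPe54452.DZ R' k := by
  unfold MPe54452.DZ
  apply Submodule.span_mono
  rintro x ⟨l, h1, h2, h3, h4⟩
  exact ⟨l, h1, h2, h3.trans h, h4⟩

theorem n7_mul (R a k : ℕ) (ha : 2 ≤ a) (x : ℝ) (hx : x ∈ MPe54452.DZ R k) :
    x * MPe54452.mzv [a] ∈ MPe54452.DZ (R + 1) (k + a) := by
  have hA : MPe54452.Adm [a] := by simpa [MPe54452.Adm] using ha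
  unfold MPe54452.DZ at hx
  induction hx using Submodule.span_induction with
  | mem x hx =>
    obtain ⟨u, hu, huk, hul, rfl⟩ := hx
    rw [MPe54452.mzv_mul_mzv u [a] hu hA]
    apply MPe54452.list_sum_mem
    intro z hz
    obtain ⟨w, hw, rfl⟩ := List.mem_map.mp hz
    refine Submodule.subset_span ⟨w, MPe54452.st_adm u [a] hu hA w hw, ?_, ?_, rfl⟩
    · rw [MPe54452.st_sum u [a] w hw, huk]
      simp
    · have h1 := st_length u [a] w hw
      simp only [List.length_cons, List.length_nil] at h1
      omega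
  | zero => rw [zero_mul]; exact Submodule.zero_mem _
  | add y z _ _ hy hz => rw [add_mul]; exact Submodule.add_mem _ hy hz
  | smul q y _ hy => rw [smul_mul_assoc]; exact Submodule.smul_mem _ _ hy

/-- like `MPe54452.Z_mul` and `finrank_Z_add`: multiplication by `mzv [a]` (`MPe54452.mzv_mul_mzv`,
`st_length`, `MPe54452.st_sum`, `MPe54452.st_adm`) -/
theorem finrank_DZ_add (R a k : ℕ) (ha : 2 ≤ a) :
    finrank ℚ (MPe54452.DZ R k) ≤ finrank ℚ (MPe54452.DZ (R + 1) (k + a)) := by
  haveI := DZ_finite (R + 1) (k + a)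
  have hpos := MPe54452.mzv_single_pos a ha
  let f : MPe54452.DZ R k →ₗ[ℚ] MPe54452.DZ (R + 1) (k + a) :=
    { toFun := fun x => ⟨x.1 * MPe54452.mzv [a], n7_mul R a k ha _ x.2⟩
      map_add' := by
        intro x y
        apply Subtype.ext
        simp [add_mul]
      map_smul' := by
        intro q x
        apply Subtype.ext
        simp [smul_mul_assoc] }
  have hf : Function.Injective f := by
    intro x y hxy
    have h1 : x.1 * MPe54452.mzv [a] = y.1 * MPe54452.mzv [a] := congrArg Subtype.val hxy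
    exact Subtype.ext (mul_right_cancel₀ hpos.ne' h1)
  exact LinearMap.finrank_le_finrank_of_injective hf

theorem n7_DW_le (R W : ℕ) : MPe54452.DW R W ≤ ZZ W := by
  unfold MPe54452.DW ZZ
  apply Submodule.span_mono
  rintro x ⟨l, h1, h2, _, h4⟩
  exact ⟨l, h1, h2, h4⟩

/-- like `ZZ_finite` -/
theorem DW_finite (R W : ℕ) : FiniteDimensional ℚ (MPe54452.DW R W) := by
  haveI := ZZ_finite W
  exact Submodule.finiteDimensional_of_le (n7_DW_le R W)

theorem n7_zero (R : ℕ) : MPe54452.DW R 0 ≤ MPe54452.DZ R 0 := by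
  unfold MPe54452.DW MPe54452.DZ
  apply Submodule.span_mono
  rintro x ⟨l, h1, h2, h3, h4⟩
  exact ⟨l, h1, by omega, h3, h4⟩

theorem n7_succ (R W : ℕ) : MPe54452.DW R (W + 1) ≤ MPe54452.DW R W ⊔ MPe54452.DZ R (W + 1) := by
  rw [MPe54452.DW]
  apply Submodule.span_le.2
  rintro x ⟨s, hs, hsum, hl, rfl⟩
  rcases Nat.lt_or_ge s.sum (W + 1) with h | h
  · exact Submodule.mem_sup_left (Submodule.subset_span ⟨s, hs, by omega, hl, rfl⟩)
  · exact Submodule.mem_sup_right (Submodule.subset_span ⟨s, hs, by omega, hl, rfl⟩)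

theorem n7_finrank_le (R W : ℕ) :
    finrank ℚ (MPe54452.DW R W) ≤ ∑ k ∈ range (W + 1), finrank ℚ (MPe54452.DZ R k) := by
  induction W with
  | zero =>
    haveI := DZ_finite R 0
    simpa using Submodule.finrank_mono (n7_zero R)
  | succ W ih =>
    haveI := DW_finite R W
    haveI := DZ_finite R (W + 1)
    rw [Finset.sum_range_succ]
    calc finrank ℚ (MPe54452.DW R (W + 1))
        ≤ finrank ℚ (MPe54452.DW R W ⊔ MPe54452.DZ R (W + 1) : Submodule ℚ ℝ) :=
          Submodule.finrank_mono (n7_succ R W)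
      _ ≤ finrank ℚ (MPe54452.DW R W) + finrank ℚ (MPe54452.DZ R (W + 1)) :=
          Submodule.finrank_add_le_finrank_add_finrank _ _
      _ ≤ _ := Nat.add_le_add_right ih _

/-- like `ZZ_finrank_le'` -/
theorem DW_finrank_le (R W : ℕ) :
    finrank ℚ (MPe54452.DW R W) ≤ (W + 1) * finrank ℚ (MPe54452.DZ (R + 1) (W + 2)) := by
  refine (n7_finrank_le R W).trans ?_
  calc ∑ k ∈ range (W + 1), finrank ℚ (MPe54452.DZ R k)
      ≤ ∑ _k ∈ range (W + 1), finrank ℚ (MPe54452.DZ (R + 1) (W + 2)) := by
        apply Finset.sum_le_sum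
        intro j hj
        have hj' : j ≤ W := by
          have := Finset.mem_range.1 hj
          omega
        have h := finrank_DZ_add R (W + 2 - j) j (by omega)
        have e : j + (W + 2 - j) = W + 2 := by omega
        rwa [e] at h
    _ = (W + 1) * finrank ℚ (MPe54452.DZ (R + 1) (W + 2)) := by simp

end MZG
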