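import Pool.Agent.Lib.MP_e54452_nt.DF.Defs

/-!
# Row dz-N8: the number of multiple zeta values of given weight and bounded depth
-/

set_option autoImplicit false

namespace MZG

open Finset Module

/-- lists of positive integers of sum `n + 1` and length at most `ρ` -/
private def n8_A (n ρ : ℕ) : Set (List ℕ) :=
  {l | (∀ b ∈ l, 1 ≤ b) ∧ l.sum = n + 1 ∧ l.length ≤ ρ}

/-- increase the first entry by one -/
private def n8_inc : List ℕ → List ℕ
  | [] => []
  | a :: l => (a + 1) :: l

private theorem n8_inc_injOn (n ρ : ℕ) : Set.InjOn n8_inc (n8_A n ρ) := by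
  rintro l hl l' hl' h
  rcases l with _ | ⟨a, l⟩ <;> rcases l' with _ | ⟨a', l'⟩
  · rfl
  · simp [n8_inc] at h
  · simp [n8_inc] at h
  · simpa [n8_inc] using h

private theorem n8_zero (n : ℕ) : n8_A n 0 = ∅ := by
  ext l
  simp only [n8_A, Set.mem_ofPred_eq, Set.mem_empty_iff_false, iff_false]
  rintro ⟨-, h, h'⟩
  have : l = [] := List.eq_nil_of_length_eq_zero (by omega)
  subst this
  simp at h

private theorem n8_base (ρ : ℕ) : n8_A 0 (ρ + 1) = {[1]} := by
  ext l
  simp only [n8_A, Set.mem_ofPred_eq, Set.mem_singleton_iff]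
  constructor
  · rintro ⟨h1, h2, -⟩
    rcases l with _ | ⟨a, _ | ⟨b, l⟩⟩
    · simp at h2
    · simp at h2
      rw [h2]
    · have ha := h1 a (by simp)
      have hb := h1 b (by simp)
      simp at h2
      omega
  · rintro rfl
    simp

private theorem n8_step (n ρ : ℕ) :
    n8_A (n + 1) (ρ + 1) = (List.cons 1 '' n8_A n ρ) ∪ (n8_inc '' n8_A n (ρ + 1)) := by
  ext l
  constructor
  · rintro ⟨h1, h2, h3⟩
    rcases l with _ | ⟨a, l⟩
    · simp at h2
    · have ha := h1 a (by simp)
      rw [List.sum_cons] at h2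
      rw [List.length_cons] at h3
      by_cases h : a = 1
      · subst h
        exact Or.inl ⟨l, ⟨fun b hb => h1 b (List.mem_cons_of_mem _ hb), by omega, by omega⟩, rfl⟩
      · refine Or.inr ⟨(a - 1) :: l, ⟨?_, ?_, ?_⟩, ?_⟩
        · intro b hb
          rcases List.mem_cons.1 hb with rfl | hb
          · omega
          · exact h1 b (List.mem_cons_of_mem _ hb)
        · rw [List.sum_cons]; omega
        · rw [List.length_cons]; exact h3
        · show (a - 1 + 1) :: l = a :: l
          rw [Nat.sub_add_cancel ha]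
  · rintro (⟨l, ⟨h1, h2, h3⟩, rfl⟩ | ⟨l, ⟨h1, h2, h3⟩, rfl⟩)
    · refine ⟨?_, ?_, ?_⟩
      · intro b hb
        rcases List.mem_cons.1 hb with rfl | hb
        · exact le_refl 1
        · exact h1 b hb
      · rw [List.sum_cons, h2]; omega
      · rw [List.length_cons]; omega
    · rcases l with _ | ⟨a, l⟩
      · simp at h2
      · refine ⟨?_, ?_, ?_⟩
        · intro b hb
          rcases List.mem_cons.1 hb with rfl | hb
          · omega
          · exact h1 b (List.mem_cons_of_mem _ hb)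
        · show ((a + 1) :: l).sum = n + 1 + 1
          rw [List.sum_cons] at h2 ⊢
          omega
        · exact h3

private theorem n8_disj (n ρ : ℕ) :
    Disjoint (List.cons 1 '' n8_A n ρ) (n8_inc '' n8_A n (ρ + 1)) := by
  rw [Set.disjoint_left]
  rintro _ ⟨l, -, rfl⟩ ⟨l', ⟨h1, h2, -⟩, h⟩
  rcases l' with _ | ⟨a, l'⟩
  · simp at h2
  · have ha := h1 a (by simp)
    have : a + 1 = 1 := (List.cons.inj h).1
    omega

private theorem n8_pascal (n ρ : ℕ) :
    ∑ j ∈ range (ρ + 1), (n + 1).choose j =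
      ∑ j ∈ range ρ, n.choose j + ∑ j ∈ range (ρ + 1), n.choose j := by
  rw [sum_range_succ' (fun j => (n + 1).choose j), sum_range_succ' (fun j => n.choose j)]
  simp only [Nat.choose_succ_succ', sum_add_distrib, Nat.choose_zero_right]
  omega

private theorem n8_count (n : ℕ) : ∀ ρ : ℕ, (n8_A n ρ).Finite ∧
    (n8_A n ρ).ncard = ∑ j ∈ range ρ, n.choose j := by
  induction n with
  | zero =>
    intro ρ
    rcases ρ with _ | ρ
    · rw [n8_zero]
      exact ⟨Set.finite_empty, by simp⟩
    · rw [n8_base]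
      refine ⟨Set.finite_singleton _, ?_⟩
      rw [Set.ncard_singleton, sum_range_succ' (fun j => (0 : ℕ).choose j)]
      simp
  | succ n ih =>
    intro ρ
    rcases ρ with _ | ρ
    · rw [n8_zero]
      exact ⟨Set.finite_empty, by simp⟩
    · obtain ⟨f1, c1⟩ := ih ρ
      obtain ⟨f2, c2⟩ := ih (ρ + 1)
      rw [n8_step]
      refine ⟨(f1.image _).union (f2.image _), ?_⟩
      rw [Set.ncard_union_eq (n8_disj n ρ) (f1.image _) (f2.image _),
        Set.ncard_image_of_injective _ List.cons_injective,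
        (n8_inc_injOn n (ρ + 1)).ncard_image, c1, c2, n8_pascal]

private theorem n8_adm (n ρ : ℕ) :
    {l : List ℕ | MPe54452.Adm l ∧ l.sum = n + 2 ∧ l.length ≤ ρ} = n8_inc '' n8_A n ρ := by
  ext l
  constructor
  · rintro ⟨h1, h2, h3⟩
    rcases l with _ | ⟨a, l⟩
    · simp at h2
    · obtain ⟨ha, hl⟩ := h1
      rw [List.sum_cons] at h2
      refine ⟨(a - 1) :: l, ⟨?_, ?_, ?_⟩, ?_⟩
      · intro b hb
        rcases List.mem_cons.1 hb with rfl | hb
        · omega
        · exact hl b hb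
      · rw [List.sum_cons]; omega
      · exact h3
      · show (a - 1 + 1) :: l = a :: l
        rw [Nat.sub_add_cancel (by omega)]
  · rintro ⟨l, ⟨h1, h2, h3⟩, rfl⟩
    rcases l with _ | ⟨a, l⟩
    · simp at h2
    · refine ⟨⟨?_, ?_⟩, ?_, ?_⟩
      · have := h1 a (by simp)
        omega
      · intro b hb
        exact h1 b (List.mem_cons_of_mem _ hb)
      · show ((a + 1) :: l).sum = n + 2
        rw [List.sum_cons] at h2 ⊢
        omega
      · exact h3

/-- Lists of positive integers with sum `n` and length at most `ρ`: finite, and for `n ≥ 1` there are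
`∑_{j<ρ} C(n-1,j)` of them: induction on `n`, for all `ρ`: a list with sum `n+1` (`n ≥ 1`) is either
`1 :: l` (`l` of sum `n`, length at most `ρ - 1`, `ρ ≥ 1`) or `(a+1) :: l` with `a :: l` of sum `n`, `a ≥ 1`; Pascal's
rule. Admissible lists of sum `k ≥ 2` are the lists `(a+1) :: l` with `a :: l` positive of sum `k - 1`. -/
theorem ncard_adm (k ρ : ℕ) (hk : 2 ≤ k) :
    {l : List ℕ | MPe54452.Adm l ∧ l.sum = k ∧ l.length ≤ ρ}.Finite ∧
    {l : List ℕ | MPe54452.Adm l ∧ l.sum = k ∧ l.length ≤ ρ}.ncard =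
      ∑ j ∈ range ρ, (k - 2).choose j := by
  obtain ⟨n, rfl⟩ : ∃ n, k = n + 2 := ⟨k - 2, by omega⟩
  obtain ⟨f, c⟩ := n8_count n ρ
  rw [n8_adm, Nat.add_sub_cancel]
  exact ⟨f.image _, by rw [(n8_inc_injOn n ρ).ncard_image, c]⟩

/-- the dimension of a span is at most the number of generators (`finrank_span_le_card` or
`finrank_span_finset_le_card`, `Set.ncard_image_le`) -/
theorem finrank_DZ_le (k ρ : ℕ) (hk : 2 ≤ k) :
    finrank ℚ (MPe54452.DZ ρ k) ≤ ∑ j ∈ range ρ, (k - 2).choose j := by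
  obtain ⟨f, c⟩ := ncard_adm k ρ hk
  have h : MPe54452.DZ ρ k = Submodule.span ℚ
      (MPe54452.mzv '' {l : List ℕ | MPe54452.Adm l ∧ l.sum = k ∧ l.length ≤ ρ}) := by
    unfold MPe54452.DZ
    congr 1
    ext x
    constructor
    · rintro ⟨l, h1, h2, h3, rfl⟩
      exact ⟨l, ⟨h1, h2, h3⟩, rfl⟩
    · rintro ⟨l, ⟨h1, h2, h3⟩, rfl⟩
      exact ⟨l, h1, h2, h3, rfl⟩
  have h2 := finrank_span_finset_le_card (R := ℚ) (f.image MPe54452.mzv).toFinset
  rw [Set.Finite.coe_toFinset] at h2
  rw [h, ← c]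
  refine le_trans h2 ?_
  rw [← Set.ncard_eq_toFinset_card _ (f.image MPe54452.mzv)]
  exact Set.ncard_image_le f

end MZG
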