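import Pool.Agent.Lib.MP_e54452_nt.DF.Defs
import Pool.Agent.Lib.MP_e54452_nt.DG.BRb
import Pool.Agent.Lib.MP_e54452_nt.DG.GWa

/-!
# Row dz-N9: the words that occur have depth at most `2r - 1`
-/

set_option autoImplicit false

namespace MZG

open Finset Module
open scoped ENNReal Nat Polynomial

/-- `(comp n w).length = w.count true` (induction on `w`) -/
theorem comp_length (w : List Bool) (n : ℕ) : (comp n w).length = w.count true := by
  induction w generalizing n with
  | nil => rfl
  | cons a w ih =>
    cases a with
    | false =>
      rw [comp, ih (n + 1), List.count_cons_of_ne (by decide)]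
    | true =>
      rw [comp, List.length_cons, ih 0, List.count_cons_self]

/-- `(dual v w).count true = v.count false + w.count true`, `(dual v w).length = v.length + w.length`
(`dual_length` is in `C1b.lean`) -/
theorem dual_count (v w : List Bool) : (dual v w).count true = v.count false + w.count true := by
  induction v generalizing w with
  | nil => simp [dual]
  | cons a v ih =>
    rw [dual, ih]
    cases a with
    | false =>
      rw [Bool.not_false, List.count_cons_self, List.count_cons_self]
      omega
    | true =>
      rw [Bool.not_true, List.count_cons_of_ne (by decide), List.count_cons_of_ne (by decide)]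

lemma nx9_length (v w : List Bool) : (dual v w).length = v.length + w.length := by
  induction v generalizing w with
  | nil => simp [dual]
  | cons a v ih =>
    rw [dual, ih, List.length_cons, List.length_cons]
    omega

/-- For `z` in `VW (FA s r) (FB s (r-1))`: `z = dual v u`, `u ∈ FA s r`, `v ∈ FB s (r-1)`; `zr z = mzv (comp 0 z)`
(`zr_eq_mzv`), `Adm` (`comp_adm`), sum `= z.length ≤ 2 s` (`comp_sum`, `BRb_good`; `z = []`: sum `0`), length
`= z.count true ≤ (r-1) + r = 2r-1`. -/
theorem MP_le_DW (s r : ℕ) (hr : 1 ≤ r) :
    MP (VW (FA s r) (FB s (r - 1))) ≤ MPe54452.DW (2 * r - 1) (2 * s) := by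
  unfold MP MPe54452.DW
  apply Submodule.span_mono
  rintro x ⟨z, ⟨hz, u, hu, v, hv, hzd⟩, rfl⟩
  rw [FA, Finset.mem_filter, mem_GW] at hu
  rw [FB, Finset.mem_filter, mem_GW] at hv
  refine ⟨comp 0 z, comp_adm z hz, ?_, ?_, zr_eq_mzv z hz⟩
  · rcases eq_or_ne z [] with h0 | hne
    · rw [h0]
      simp [comp]
    · rw [comp_sum z (BRb_good z hz) hne 0, hzd, nx9_length]
      omega
  · rw [comp_length, hzd, dual_count]
    omega

end MZG
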