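import Pool.Agent.Lib.MP_e54452_nt.DF.FIF
import Pool.Agent.Lib.MP_e54452_nt.DF.N4
import Pool.Agent.Lib.MP_e54452_nt.DF.N5
import Pool.Agent.Lib.MP_e54452_nt.DF.N6
import Pool.Agent.Lib.MP_e54452_nt.DF.N7
import Pool.Agent.Lib.MP_e54452_nt.DF.N8
import Pool.Agent.Lib.MP_e54452_nt.DF.N9
import Pool.Agent.Lib.MP_e54452_nt.DG.COb

/-!
# The depth filtration: the four theorems
-/

set_option autoImplicit false

namespace MZG

open Finset Module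
open scoped ENNReal Nat Polynomial

theorem DW_mono (R : ℕ) {W W' : ℕ} (h : W ≤ W') : MPe54452.DW R W ≤ MPe54452.DW R W' := by
  unfold MPe54452.DW
  apply Submodule.span_mono
  rintro x ⟨l, hl, hs, hr, rfl⟩
  exact ⟨l, hl, hs.trans h, hr, rfl⟩

theorem depth1 (r s : ℕ) (hr : 1 ≤ r) (hrs : r ≤ s) :
    Real.sqrt ((s.choose r : ℝ) / s) ≤ 74 * finrank ℚ (MPe54452.DW (2 * r - 1) (2 * s)) := by
  have hA := fam_FA s r
  have hB := fam_FB s (r - 1)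
  have cA := card_FA s r
  have cB := card_FB s (r - 1)
  have e : r - 1 + 2 = r + 1 := by omega
  rw [e] at cB
  have hAB : (FA s r).card ≤ (FB s (r - 1)).card := by rw [cA, cB]
  have h1 := main_fam hA hB hAB (by omega)
  have h2 : s.choose r ≤ (FA s r).card := by
    rw [cA, Finset.sum_range_succ]
    omega
  have h3 : Real.sqrt ((s.choose r : ℝ) / s) ≤ Real.sqrt (((FA s r).card : ℝ) / s) := by
    apply Real.sqrt_le_sqrt
    apply div_le_div_of_nonneg_right _ (Nat.cast_nonneg s)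
    exact_mod_cast h2
  haveI := DW_finite (2 * r - 1) (2 * s)
  have h4 : (finrank ℚ (MP (VW (FA s r) (FB s (r - 1)))) : ℝ) ≤
      finrank ℚ (MPe54452.DW (2 * r - 1) (2 * s)) := by
    exact_mod_cast Submodule.finrank_mono (MP_le_DW s r hr)
  linarith

theorem depth2 (r k : ℕ) (hr : 1 ≤ r) (hk : 2 * r + 2 ≤ k) :
    Real.sqrt ((((k - 2) / 2).choose r : ℝ) / (((k - 2) / 2 : ℕ) : ℝ)) ≤
      74 * ((k : ℝ) - 1) * finrank ℚ (MPe54452.DZ (2 * r) k) := by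
  obtain ⟨W, rfl⟩ : ∃ W, k = W + 2 := ⟨k - 2, by omega⟩
  have e0 : W + 2 - 2 = W := by omega
  rw [e0]
  have h1 := depth1 r (W / 2) hr (by omega)
  haveI := DW_finite (2 * r - 1) W
  have h2 : (finrank ℚ (MPe54452.DW (2 * r - 1) (2 * (W / 2))) : ℝ) ≤
      finrank ℚ (MPe54452.DW (2 * r - 1) W) := by
    exact_mod_cast Submodule.finrank_mono (DW_mono (2 * r - 1) (by omega : 2 * (W / 2) ≤ W))
  have h3 := DW_finrank_le (2 * r - 1) W
  have e1 : 2 * r - 1 + 1 = 2 * r := by omega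
  rw [e1] at h3
  have h4 : (finrank ℚ (MPe54452.DW (2 * r - 1) W) : ℝ) ≤
      ((W : ℝ) + 1) * finrank ℚ (MPe54452.DZ (2 * r) (W + 2)) := by exact_mod_cast h3
  push_cast
  have e2 : ((W : ℝ) + 2 - 1) = (W : ℝ) + 1 := by ring
  rw [e2]
  linarith

theorem depth2' (r k : ℕ) (hr : 1 ≤ r) (hk : 2 * r + 2 ≤ k) :
    Real.sqrt (((k - 2) / 2).choose r : ℝ) ≤
      53 * (k : ℝ) ^ ((3 : ℝ) / 2) * finrank ℚ (MPe54452.DZ (2 * r) k) := by
  have h1 := depth2 r k hr hk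
  have hs1 : 1 ≤ (k - 2) / 2 := by omega
  set s : ℕ := (k - 2) / 2 with hs
  have hs0 : (0 : ℝ) < (s : ℝ) := by exact_mod_cast hs1
  have hk0 : (0 : ℝ) < (k : ℝ) := by
    have : 0 < k := by omega
    exact_mod_cast this
  rw [Real.sqrt_div (by positivity), div_le_iff₀ (Real.sqrt_pos.2 hs0)] at h1
  have hd : (0 : ℝ) ≤ finrank ℚ (MPe54452.DZ (2 * r) k) := Nat.cast_nonneg _
  have hsk : (s : ℝ) ≤ k / 2 := by
    rw [le_div_iff₀ (by norm_num)]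
    have : s * 2 ≤ k := by omega
    exact_mod_cast this
  have h2 : Real.sqrt (s : ℝ) ≤ (53 / 74) * Real.sqrt k := by
    rw [Real.sqrt_le_left (by positivity), mul_pow, Real.sq_sqrt hk0.le]
    linarith
  have e : (k : ℝ) ^ ((3 : ℝ) / 2) = k * Real.sqrt k := by
    rw [Real.sqrt_eq_rpow]
    nth_rewrite 2 [← Real.rpow_one (k : ℝ)]
    rw [← Real.rpow_add hk0]
    norm_num
  rw [e]
  have h3 : 74 * ((k : ℝ) - 1) * Real.sqrt (s : ℝ) ≤ 53 * (k * Real.sqrt k) := by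
    have hk1 : (0 : ℝ) ≤ (k : ℝ) - 1 := by
      have : (1 : ℝ) ≤ k := by exact_mod_cast (by omega : 1 ≤ k)
      linarith
    have hsq := Real.sqrt_nonneg (k : ℝ)
    calc 74 * ((k : ℝ) - 1) * Real.sqrt (s : ℝ)
        ≤ 74 * ((k : ℝ) - 1) * ((53 / 74) * Real.sqrt k) :=
          mul_le_mul_of_nonneg_left h2 (by positivity)
      _ = 53 * (((k : ℝ) - 1) * Real.sqrt k) := by ring
      _ ≤ 53 * (k * Real.sqrt k) := by
          apply mul_le_mul_of_nonneg_left _ (by norm_num)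
          apply mul_le_mul_of_nonneg_right _ hsq
          linarith
  calc Real.sqrt (s.choose r : ℝ)
      ≤ 74 * ((k : ℝ) - 1) * finrank ℚ (MPe54452.DZ (2 * r) k) * Real.sqrt (s : ℝ) := h1
    _ = (74 * ((k : ℝ) - 1) * Real.sqrt (s : ℝ)) * finrank ℚ (MPe54452.DZ (2 * r) k) := by ring
    _ ≤ (53 * (k * Real.sqrt k)) * finrank ℚ (MPe54452.DZ (2 * r) k) :=
        mul_le_mul_of_nonneg_right h3 hd

theorem depth3 (A : ℝ) (hA : 4 < A) : ∃ K : ℕ, 1 ≤ K ∧ ∀ k ρ : ℕ, 1 ≤ ρ → K * ρ ≤ k →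
    {l : List ℕ | MPe54452.Adm l ∧ l.sum = k ∧ l.length ≤ ρ}.ncard <
      finrank ℚ (MPe54452.DZ (⌊A * ρ⌋₊ + 4) k) := by
  obtain ⟨K, hK, h⟩ := thm3_num A hA
  refine ⟨K, hK, fun k ρ hρ hk => ?_⟩
  obtain ⟨r, hr, hrk, hrA, hlt⟩ := h k ρ hρ hk
  rw [(ncard_adm k ρ (by omega)).2]
  have h1 := depth2 r k hr hrk
  haveI := DZ_finite (⌊A * ρ⌋₊ + 4) k
  have h2 : finrank ℚ (MPe54452.DZ (2 * r) k) ≤ finrank ℚ (MPe54452.DZ (⌊A * ρ⌋₊ + 4) k) :=
    Submodule.finrank_mono (DZ_mono hrA k)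
  refine lt_of_lt_of_le ?_ h2
  by_contra hcon
  push Not at hcon
  set N : ℕ := ∑ j ∈ range ρ, (k - 2).choose j with hN
  have h3 : (finrank ℚ (MPe54452.DZ (2 * r) k) : ℝ) ≤ (N : ℝ) := by exact_mod_cast hcon
  have hs0 : (0 : ℝ) < (((k - 2) / 2 : ℕ) : ℝ) := by
    have : 0 < (k - 2) / 2 := by omega
    exact_mod_cast this
  have hk1 : (0 : ℝ) ≤ (k : ℝ) - 1 := by
    have : (1 : ℝ) ≤ k := by exact_mod_cast (by omega : 1 ≤ k)
    linarith
  have hN0 : (0 : ℝ) ≤ (N : ℝ) := Nat.cast_nonneg _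
  have h4 : Real.sqrt ((((k - 2) / 2).choose r : ℝ) / (((k - 2) / 2 : ℕ) : ℝ)) ≤
      74 * (k : ℝ) * N := by
    refine h1.trans ?_
    calc 74 * ((k : ℝ) - 1) * finrank ℚ (MPe54452.DZ (2 * r) k)
        ≤ 74 * ((k : ℝ) - 1) * N := mul_le_mul_of_nonneg_left h3 (by positivity)
      _ ≤ 74 * (k : ℝ) * N := by
          apply mul_le_mul_of_nonneg_right _ hN0
          linarith
  rw [Real.sqrt_le_left (by positivity), div_le_iff₀ hs0] at h4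
  have h5 : (74 * (k : ℝ) * N) ^ 2 * (((k - 2) / 2 : ℕ) : ℝ) =
      (74 * (k : ℝ)) ^ 2 * (((k - 2) / 2 : ℕ) : ℝ) * (N : ℝ) ^ 2 := by ring
  rw [h5] at h4
  exact absurd hlt (not_lt.2 h4)

theorem depth4 : ∃ k0 : ℕ, ∀ k ≥ k0, MPe54452.DZ (k / 24) k ≠ MPe54452.Z k := by
  obtain ⟨k0, hk0, h⟩ := thm4_num
  refine ⟨k0, fun k hk heq => ?_⟩
  have h1 := h k hk
  have h2 := growth_Z k (hk0.trans hk)
  have h3 := finrank_DZ_le k (k / 24) (hk0.trans hk)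
  rw [heq] at h3
  have h4 : (finrank ℚ (MPe54452.Z k) : ℝ) ≤
      ((∑ j ∈ range (k / 24), (k - 2).choose j : ℕ) : ℝ) := by exact_mod_cast h3
  have h5 : 250 * (k : ℝ) ^ 2 * finrank ℚ (MPe54452.Z k) ≤
      250 * (k : ℝ) ^ 2 * ((∑ j ∈ range (k / 24), (k - 2).choose j : ℕ) : ℝ) :=
    mul_le_mul_of_nonneg_left h4 (by positivity)
  linarith

end MZG
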