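import Mathlib

/-!
# Row dz-N1: pigeonhole for real linear forms
-/

set_option autoImplicit false

namespace MZG

open Finset

/-- Vectors `x : ι → {0, …, X}` (there are `(X+1)^card`), map `x ↦ (k ↦ ⌊L * ∑ A k j x j⌋)` into
`{0, …, card * X * L}^m` (`0 ≤ A ≤ 1`, so `0 ≤ L * ∑ A k j x j ≤ card * X * L`). By `hcard` two different
vectors `x ≠ x'` have the same image (`Finset.exists_ne_map_eq_of_card_lt_of_maps_to` or
`Fintype.exists_ne_map_eq_of_card_lt` for maps `(ι → Fin (X+1)) → (Fin m → Fin (card * X * L + 1))`);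
`t = x - x'`, the two real numbers `L * ∑ A k j x j`, `L * ∑ A k j x' j` have the same floor, so they
differ by less than `1`. -/
theorem pigeonhole_real {ι : Type*} [Fintype ι] (m X L : ℕ) (A : Fin m → ι → ℝ)
    (h0 : ∀ k j, 0 ≤ A k j) (h1 : ∀ k j, A k j ≤ 1)
    (hcard : (Fintype.card ι * X * L + 1) ^ m < (X + 1) ^ Fintype.card ι) :
    ∃ t : ι → ℤ, t ≠ 0 ∧ (∀ j, |t j| ≤ (X : ℤ)) ∧
      ∀ k, |∑ j, A k j * (t j : ℝ)| * (L : ℝ) ≤ 1 := by
  classical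
  have hS0 : ∀ (x : ι → Fin (X + 1)) (k : Fin m), 0 ≤ (∑ j, A k j * ((x j : ℕ) : ℝ)) * L := by
    intro x k
    apply mul_nonneg _ (Nat.cast_nonneg L)
    exact Finset.sum_nonneg fun j _ => mul_nonneg (h0 k j) (Nat.cast_nonneg _)
  have hS1 : ∀ (x : ι → Fin (X + 1)) (k : Fin m),
      (∑ j, A k j * ((x j : ℕ) : ℝ)) * L ≤ ((Fintype.card ι * X * L : ℕ) : ℝ) := by
    intro x k
    have h2 : (∑ j, A k j * ((x j : ℕ) : ℝ)) ≤ ∑ _j : ι, (X : ℝ) := by
      apply Finset.sum_le_sum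
      intro j _
      have h3 : ((x j : ℕ) : ℝ) ≤ X := by
        have := (x j).2
        exact_mod_cast Nat.lt_succ_iff.mp this
      have h4 : (0 : ℝ) ≤ ((x j : ℕ) : ℝ) := Nat.cast_nonneg _
      calc A k j * ((x j : ℕ) : ℝ) ≤ 1 * ((x j : ℕ) : ℝ) := mul_le_mul_of_nonneg_right (h1 k j) h4
        _ ≤ X := by rw [one_mul]; exact h3
    rw [Finset.sum_const, Finset.card_univ, nsmul_eq_mul] at h2
    push_cast
    exact mul_le_mul_of_nonneg_right h2 (Nat.cast_nonneg L)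
  let f : (ι → Fin (X + 1)) → (Fin m → Fin (Fintype.card ι * X * L + 1)) := fun x k =>
    ⟨⌊(∑ j, A k j * ((x j : ℕ) : ℝ)) * L⌋₊, by
      rw [Nat.lt_succ_iff]
      exact Nat.floor_le_of_le (hS1 x k)⟩
  have hc : Fintype.card (Fin m → Fin (Fintype.card ι * X * L + 1)) < Fintype.card (ι → Fin (X + 1)) := by
    simpa using hcard
  obtain ⟨x, y, hxy, hf⟩ := Fintype.exists_ne_map_eq_of_card_lt f hc
  refine ⟨fun j => ((x j : ℕ) : ℤ) - ((y j : ℕ) : ℤ), ?_, ?_, ?_⟩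
  · intro h
    apply hxy
    funext j
    have := congrFun h j
    simp only [Pi.zero_apply] at this
    apply Fin.ext
    omega
  · intro j
    have h2 := (x j).2
    have h3 := (y j).2
    show |((x j : ℕ) : ℤ) - ((y j : ℕ) : ℤ)| ≤ (X : ℤ)
    rw [abs_le]
    constructor <;> omega
  · intro k
    have h4 : ⌊(∑ j, A k j * ((x j : ℕ) : ℝ)) * L⌋₊ = ⌊(∑ j, A k j * ((y j : ℕ) : ℝ)) * L⌋₊ := by
      have := congrFun hf k
      exact congrArg Fin.val this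
    have a1 := Nat.floor_le (hS0 x k)
    have a2 := Nat.lt_floor_add_one ((∑ j, A k j * ((x j : ℕ) : ℝ)) * L)
    have b1 := Nat.floor_le (hS0 y k)
    have b2 := Nat.lt_floor_add_one ((∑ j, A k j * ((y j : ℕ) : ℝ)) * L)
    rw [h4] at a1 a2
    have h5 : (∑ j, A k j * (((((x j : ℕ) : ℤ) - ((y j : ℕ) : ℤ) : ℤ)) : ℝ)) * L
        = (∑ j, A k j * ((x j : ℕ) : ℝ)) * L - (∑ j, A k j * ((y j : ℕ) : ℝ)) * L := by
      rw [← sub_mul, ← Finset.sum_sub_distrib]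
      congr 1
      apply Finset.sum_congr rfl
      intro j _
      push_cast
      ring
    rw [show |∑ j, A k j * (((((x j : ℕ) : ℤ) - ((y j : ℕ) : ℤ) : ℤ)) : ℝ)| * (L : ℝ)
        = |(∑ j, A k j * (((((x j : ℕ) : ℤ) - ((y j : ℕ) : ℤ) : ℤ)) : ℝ)) * L| by
      rw [abs_mul, abs_of_nonneg (Nat.cast_nonneg L : (0 : ℝ) ≤ L)]]
    rw [h5, abs_le]
    constructor <;> linarith

end MZG
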