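import Mathlib

/-!
# Row dz-N2: numerical inequality for the pigeonhole
-/

set_option autoImplicit false

namespace MZG

theorem nx2_log8 : (8 : ℝ) ≤ Real.exp (52 / 25) := by
  have h1 : Real.log 8 ≤ 52 / 25 := by
    have h2 : Real.log 8 = 3 * Real.log 2 := by
      rw [show (8 : ℝ) = 2 ^ 3 by norm_num, Real.log_pow]; norm_num
    rw [h2]
    have := Real.log_two_lt_d9
    linarith
  calc (8 : ℝ) = Real.exp (Real.log 8) := by rw [Real.exp_log]; norm_num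
    _ ≤ _ := Real.exp_le_exp.mpr h1

theorem nx2_cadd (s q ν : ℕ) (hs : 1 ≤ s) (hν : 1 ≤ ν) (hq2 : q ≤ 2 ^ s) :
    ((q / 4 * ν : ℕ) : ℝ) + 1 ≤ Real.exp (s * ν) := by
  have h2s : (2 : ℝ) ^ s ≤ Real.exp (s * Real.log 2) := by
    rw [mul_comm, Real.exp_mul, Real.exp_log (by norm_num)]
    simp
  have hν' : (ν : ℝ) ≤ Real.exp (ν - 1) := by
    have := Real.add_one_le_exp ((ν : ℝ) - 1)
    linarith
  have h1 : ((q / 4 * ν : ℕ) : ℝ) + 1 ≤ 2 ^ s * ν := by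
    have h3 : q / 4 * ν + 1 ≤ 2 ^ s * ν := by
      have h4 : q / 4 + 1 ≤ 2 ^ s := by
        have : 1 < 2 ^ s := Nat.one_lt_two_pow (by omega)
        omega
      calc q / 4 * ν + 1 ≤ q / 4 * ν + ν := by omega
        _ = (q / 4 + 1) * ν := by ring
        _ ≤ 2 ^ s * ν := Nat.mul_le_mul_right _ h4
    exact_mod_cast h3
  have h5 : (2 : ℝ) ^ s * ν ≤ Real.exp (s * Real.log 2) * Real.exp (ν - 1) :=
    mul_le_mul h2s hν' (by positivity) (by positivity)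
  rw [← Real.exp_add] at h5
  refine h1.trans (h5.trans (Real.exp_le_exp.mpr ?_))
  have hl := Real.log_two_lt_d9
  have hs' : (1 : ℝ) ≤ s := by exact_mod_cast hs
  have hn' : (1 : ℝ) ≤ ν := by exact_mod_cast hν
  have h6 : (s : ℝ) * Real.log 2 ≤ s := by nlinarith
  nlinarith [mul_nonneg (sub_nonneg.mpr hs') (sub_nonneg.mpr hn')]

/-- Put `h = 12 s ν`, `X = ⌊exp h⌋`, `c = (q/4) ν`. `X + 1 > exp h`, `1 ≤ X ≤ exp h`.
If `μ = 0`: the left side is `1`, the right side is at least `2` (`c ≥ 1`).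
`μ ≥ 1`: `c * X * 8^(μν) + 1 ≤ (c+1) * exp h * 8^(μν)`, `c + 1 ≤ 2^s ν ≤ exp (s ν)`
(`log (c+1) ≤ s log 2 + log ν ≤ s ν`), `8 ≤ exp 2.08`, so the left side is at most
`exp (μ ν (s ν + 12 s ν + 2.08 μ ν))`, and the right side is greater than `exp (12 s ν c)`,
`12 s ν c ≥ 3 (q - 3) s ν²`. It remains: `13 s μ + 2.08 μ² ≤ 3 (q-3) s`. As `μ² ≤ q s` and
`300 s ≤ q`: `μ² ≤ q²/300`, so `μ ≤ q/17.3`, `13 μ ≤ 0.76 q`, `2.08 μ² ≤ 2.08 q s`, and
`0.76 q + 2.08 q ≤ 3 (q-3)` since `0.16 q ≥ 9`. -/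
theorem pigeon_num (s q μ ν : ℕ) (hs : 1 ≤ s) (hν : 1 ≤ ν) (hq : 300 * s ≤ q) (hq2 : q ≤ 2 ^ s)
    (hμ : μ ^ 2 ≤ q * s) :
    ((q / 4 * ν) * ⌊Real.exp (12 * s * (ν : ℝ))⌋₊ * 8 ^ (μ * ν) + 1) ^ (μ * ν) <
      (⌊Real.exp (12 * s * (ν : ℝ))⌋₊ + 1) ^ (q / 4 * ν) := by
  set X := ⌊Real.exp (12 * s * (ν : ℝ))⌋₊ with hX
  set c := q / 4 * ν with hc
  have hs' : (1 : ℝ) ≤ s := by exact_mod_cast hs
  have hn' : (1 : ℝ) ≤ ν := by exact_mod_cast hν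
  have hX1 : (X : ℝ) ≤ Real.exp (12 * s * (ν : ℝ)) := Nat.floor_le (Real.exp_pos _).le
  have hX2 : Real.exp (12 * s * (ν : ℝ)) < X + 1 := Nat.lt_floor_add_one _
  have hc1 : 1 ≤ c := by
    have : 1 ≤ q / 4 := by omega
    calc 1 = 1 * 1 := rfl
      _ ≤ q / 4 * ν := Nat.mul_le_mul this hν
  have hh0 : (1 : ℝ) ≤ Real.exp (12 * s * (ν : ℝ)) := by
    apply Real.one_le_exp; positivity
  -- the right side
  have hR : Real.exp (12 * s * (ν : ℝ) * c) < ((X : ℝ) + 1) ^ c := by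
    have h1 : Real.exp (12 * s * (ν : ℝ) * c) = Real.exp (12 * s * (ν : ℝ)) ^ c := by
      rw [← Real.exp_nat_mul]; congr 1; ring
    rw [h1]
    exact pow_lt_pow_left₀ hX2 (Real.exp_pos _).le (by omega)
  -- the left side
  have hbase : ((c : ℝ) * X * 8 ^ (μ * ν) + 1) ≤
      Real.exp (s * ν + 12 * s * ν + (μ * ν : ℕ) * (52 / 25)) := by
    have h8 : (8 : ℝ) ^ (μ * ν) ≤ Real.exp ((μ * ν : ℕ) * (52 / 25)) := by
      rw [Real.exp_nat_mul]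
      exact pow_le_pow_left₀ (by norm_num) nx2_log8 _
    have h81 : (1 : ℝ) ≤ Real.exp ((μ * ν : ℕ) * (52 / 25)) := by
      apply Real.one_le_exp; positivity
    rw [Real.exp_add, Real.exp_add]
    set A := Real.exp (12 * s * (ν : ℝ)) with hA
    set B := Real.exp ((μ * ν : ℕ) * (52 / 25) : ℝ) with hB
    have h1 : (c : ℝ) * X * 8 ^ (μ * ν) ≤ c * A * B := by
      have : (c : ℝ) * X ≤ c * A := mul_le_mul_of_nonneg_left hX1 (by positivity)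
      exact mul_le_mul this h8 (by positivity) (by positivity)
    have h2 : (1 : ℝ) ≤ A * B := by nlinarith
    have h3 : (c : ℝ) * A * B + 1 ≤ ((c : ℝ) + 1) * A * B := by nlinarith
    have h4 : ((c : ℝ) + 1) ≤ Real.exp (s * ν) := nx2_cadd s q ν hs hν hq2
    have h5 : ((c : ℝ) + 1) * A * B ≤ Real.exp (s * ν) * A * B := by
      have hAB : 0 ≤ A * B := by linarith
      nlinarith
    linarith
  have hL : ((c : ℝ) * X * 8 ^ (μ * ν) + 1) ^ (μ * ν) ≤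
      Real.exp (((μ * ν : ℕ) : ℝ) * (s * ν + 12 * s * ν + (μ * ν : ℕ) * (52 / 25))) := by
    rw [Real.exp_nat_mul]
    exact pow_le_pow_left₀ (by positivity) hbase _
  -- comparison of the exponents
  have hE : (((μ * ν : ℕ) : ℝ) * (s * ν + 12 * s * ν + (μ * ν : ℕ) * (52 / 25))) ≤
      12 * s * (ν : ℝ) * c := by
    have hcq : ((q : ℝ) - 3) / 4 * ν ≤ (c : ℝ) := by
      have h1 : q ≤ 4 * (q / 4) + 3 := by omega
      have h2 : (q : ℝ) ≤ 4 * ((q / 4 : ℕ) : ℝ) + 3 := by exact_mod_cast h1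
      rw [hc]
      push_cast
      have h3 : ((q : ℝ) - 3) / 4 ≤ ((q / 4 : ℕ) : ℝ) := by linarith
      exact mul_le_mul_of_nonneg_right h3 (by linarith)
    have hμ' : (μ : ℝ) ^ 2 ≤ q * s := by exact_mod_cast hμ
    have hq' : 300 * (s : ℝ) ≤ q := by exact_mod_cast hq
    have hμ2 : (μ : ℝ) ≤ 173 / 3000 * q + q / 3000 := by
      have h1 : (μ : ℝ) ^ 2 ≤ (q : ℝ) * (q / 300) := by
        have : (q : ℝ) * s ≤ q * (q / 300) := by
          apply mul_le_mul_of_nonneg_left _ (by linarith)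
          linarith
        linarith
      have h2 : (μ : ℝ) ^ 2 ≤ (174 / 3000 * (q : ℝ)) ^ 2 := by nlinarith
      have h3 := abs_le_of_sq_le_sq h2 (by linarith)
      have h4 := le_abs_self (μ : ℝ)
      linarith
    have key : 13 * (s : ℝ) * μ + 52 / 25 * (μ : ℝ) ^ 2 ≤ 3 * (q - 3) * s := by
      have h1 : 13 * (s : ℝ) * μ ≤ 13 * s * (174 / 3000 * q) := by
        apply mul_le_mul_of_nonneg_left _ (by positivity)
        linarith
      have h2 : 52 / 25 * (μ : ℝ) ^ 2 ≤ 52 / 25 * (q * s) := by linarith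
      have h3 : 9 * (s : ℝ) ≤ 9 / 300 * (q * s) := by nlinarith
      nlinarith
    have hn0 : (0 : ℝ) ≤ (ν : ℝ) ^ 2 := by positivity
    have h1 : (((μ * ν : ℕ) : ℝ) * (s * ν + 12 * s * ν + (μ * ν : ℕ) * (52 / 25))) =
        (ν : ℝ) ^ 2 * (13 * (s : ℝ) * μ + 52 / 25 * (μ : ℝ) ^ 2) := by
      push_cast; ring
    have h2 : 12 * s * (ν : ℝ) * (((q : ℝ) - 3) / 4 * ν) ≤ 12 * s * (ν : ℝ) * c :=
      mul_le_mul_of_nonneg_left hcq (by positivity)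
    have h3 : 12 * s * (ν : ℝ) * (((q : ℝ) - 3) / 4 * ν) = (ν : ℝ) ^ 2 * (3 * (q - 3) * s) := by
      ring
    rw [h1]
    calc (ν : ℝ) ^ 2 * (13 * (s : ℝ) * μ + 52 / 25 * (μ : ℝ) ^ 2)
        ≤ (ν : ℝ) ^ 2 * (3 * (q - 3) * s) := mul_le_mul_of_nonneg_left key hn0
      _ = 12 * s * (ν : ℝ) * (((q : ℝ) - 3) / 4 * ν) := h3.symm
      _ ≤ _ := h2
  have hfin : ((c : ℝ) * X * 8 ^ (μ * ν) + 1) ^ (μ * ν) < ((X : ℝ) + 1) ^ c :=
    lt_of_le_of_lt (hL.trans (Real.exp_le_exp.mpr hE)) hR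
  exact_mod_cast hfin

end MZG
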