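import Pool.Agent.Lib.MP_e54452_nt.DG.RkE

/-!
# Identities for the dual connection, two trees
-/

set_option autoImplicit false

open Polynomial Module

namespace MPe54452.Exp2

open MPe54452.Exp (KK pe DK Gop dd gam gb sg nab sum_Gop dd_C dd_X_mul dd_one_sub_X_mul
  lin_one_sub_X_mul)

variable {ι κ : Type} [Fintype ι] [DecidableEq ι] [Fintype κ] [DecidableEq κ]

/-- The relation (E). -/
def RelE (T : Exp.Tree ι) (T' : Exp.Tree κ) (l : ι → κ → ℚ[X] →ₗ[ℚ] ℚ) : Prop :=
  ∀ u v h, l u v (derivative (X * (1 - X) * h)) =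
    (T.par u).elim 0 (fun x => l x.2 v (gam x.1 * h)) -
      (T'.par v).elim 0 (fun x => l u x.2 (gb x.1 * h))

/-- the constants `κ` -/
noncomputable def kap (T : Exp.Tree ι) (T' : Exp.Tree κ) (l : ι → κ → ℚ[X] →ₗ[ℚ] ℚ) (u : ι) (v : κ) : ℚ :=
  -(l u v 1) - (T.par u).elim 0 (fun x => sg x.1 * l x.2 v 1) -
    (T'.par v).elim 0 (fun x => sg x.1 * l u x.2 1)

omit [Fintype ι] [DecidableEq ι] [Fintype κ] [DecidableEq κ] in
lemma star_step (T : Exp.Tree ι) (T' : Exp.Tree κ) (l : ι → κ → ℚ[X] →ₗ[ℚ] ℚ) (hE : RelE T T' l) (u : ι) (v : κ) (p : ℚ[X])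
    (ih : -(dd (l u v) (X * (1 - X) * derivative p)) +
        (T.par u).elim 0 (fun x => dd (l x.2 v) (gam x.1 * p)) =
      -(X * (1 - X) * derivative (dd (l u v) p)) +
        (T'.par v).elim 0 (fun x => gb x.1 * dd (l u x.2) p) - C (kap T T' l u v) * p -
        C (l u v p + (T'.par v).elim 0 (fun x => sg x.1 * l u x.2 p))) :
    -(dd (l u v) (X * (1 - X) * derivative (X * p))) +
        (T.par u).elim 0 (fun x => dd (l x.2 v) (gam x.1 * (X * p))) =
      -(X * (1 - X) * derivative (dd (l u v) (X * p))) +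
        (T'.par v).elim 0 (fun x => gb x.1 * dd (l u x.2) (X * p)) - C (kap T T' l u v) * (X * p) -
        C (l u v (X * p) + (T'.par v).elim 0 (fun x => sg x.1 * l u x.2 (X * p))) := by
  have hR := hE u v p
  have d1 : (derivative (X * (1 - X) * p) : ℚ[X]) =
      (1 - X) * p - X * p + X * (1 - X) * derivative p := by
    rw [derivative_mul, derivative_mul, derivative_X, derivative_sub, derivative_one,
      derivative_X]
    ring
  rw [d1, map_add, map_sub] at hR
  have d2 : (X * (1 - X) * derivative (X * p) : ℚ[X]) =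
      X * ((1 - X) * p) + X * (X * (1 - X) * derivative p) := by
    rw [derivative_mul, derivative_X]; ring
  have d3 : derivative (dd (l u v) (X * p)) = dd (l u v) p + X * derivative (dd (l u v) p) := by
    rw [dd_X_mul, derivative_add, derivative_mul, derivative_X, derivative_C]; ring
  have hRC := congrArg (C : ℚ → ℚ[X]) hR
  rw [d3, d2, map_add, dd_X_mul (l u v) ((1 - X) * p), dd_X_mul (l u v) (X * (1 - X) * derivative p),
    dd_one_sub_X_mul]
  generalize dd (l u v) (X * (1 - X) * derivative p) = A1 at *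
  generalize dd (l u v) p = A2 at *
  generalize l u v (X * (1 - X) * derivative p) = b1 at *
  rcases hu : T.par u with _ | ⟨a, u'⟩ <;> rcases hv : T'.par v with _ | ⟨b, v'⟩ <;>
    simp only [hu, hv, Option.elim] at ih hRC ⊢
  · simp only [map_add, map_sub, map_zero, lin_one_sub_X_mul] at ih hRC ⊢
    linear_combination X * ih - hRC
  · cases b
    · simp only [gb, sg, Bool.false_eq_true, if_false, dd_X_mul, map_add, map_sub, map_zero,
        lin_one_sub_X_mul, one_mul, sub_mul] at ih hRC ⊢
      linear_combination X * ih - hRC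
    · simp only [gb, sg, if_true, dd_X_mul, map_add, map_sub, map_zero, map_neg,
        lin_one_sub_X_mul, one_mul, neg_mul, sub_mul] at ih hRC ⊢
      linear_combination X * ih - hRC
  · cases a
    · simp only [gam, Bool.false_eq_true, if_false, dd_X_mul, map_add, map_sub, map_zero,
        lin_one_sub_X_mul, one_mul] at ih hRC ⊢
      linear_combination X * ih - hRC
    · simp only [gam, if_true, dd_X_mul, dd_one_sub_X_mul, map_add, map_sub, map_zero,
        lin_one_sub_X_mul, one_mul] at ih hRC ⊢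
      linear_combination X * ih - hRC
  · cases a <;> cases b
    · simp only [gam, gb, sg, Bool.false_eq_true, if_false, dd_X_mul, map_add, map_sub, map_zero,
        lin_one_sub_X_mul, one_mul, sub_mul] at ih hRC ⊢
      linear_combination X * ih - hRC
    · simp only [gam, gb, sg, Bool.false_eq_true, if_false, if_true, dd_X_mul, map_add, map_sub,
        map_zero, map_neg, lin_one_sub_X_mul, one_mul, neg_mul, sub_mul] at ih hRC ⊢
      linear_combination X * ih - hRC
    · simp only [gam, gb, sg, Bool.false_eq_true, if_false, if_true, dd_X_mul, dd_one_sub_X_mul,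
        map_add, map_sub, map_zero, lin_one_sub_X_mul, one_mul, sub_mul] at ih hRC ⊢
      linear_combination X * ih - hRC
    · simp only [gam, gb, sg, if_true, dd_X_mul, dd_one_sub_X_mul, map_add, map_sub,
        map_zero, map_neg, lin_one_sub_X_mul, one_mul, neg_mul] at ih hRC ⊢
      linear_combination X * ih - hRC

omit [Fintype ι] [DecidableEq ι] [Fintype κ] [DecidableEq κ] in
/-- ROW rk-7. -/
theorem star (T : Exp.Tree ι) (T' : Exp.Tree κ) (l : ι → κ → ℚ[X] →ₗ[ℚ] ℚ) (hE : RelE T T' l) (u : ι) (v : κ) (p : ℚ[X]) :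
    -(dd (l u v) (X * (1 - X) * derivative p)) +
        (T.par u).elim 0 (fun x => dd (l x.2 v) (gam x.1 * p)) =
      -(X * (1 - X) * derivative (dd (l u v) p)) +
        (T'.par v).elim 0 (fun x => gb x.1 * dd (l u x.2) p) - C (kap T T' l u v) * p -
        C (l u v p + (T'.par v).elim 0 (fun x => sg x.1 * l u x.2 p)) := by
  induction p using Polynomial.induction_on with
  | C c =>
    have hl : ∀ (f : ℚ[X] →ₗ[ℚ] ℚ), f (C c) = c * f 1 := by
      intro f
      have : (C c : ℚ[X]) = c • 1 := by rw [smul_eq_C_mul, mul_one]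
      rw [this, map_smul, smul_eq_mul]
    have hd1 : ∀ (f : ℚ[X] →ₗ[ℚ] ℚ), dd f (X * C c) = C (c * f 1) := by
      intro f; rw [dd_X_mul, dd_C, hl]; ring
    have hd2 : ∀ (f : ℚ[X] →ₗ[ℚ] ℚ), dd f ((1 - X) * C c) = - C (c * f 1) := by
      intro f; rw [dd_one_sub_X_mul, dd_C, hl]; ring
    rcases hu : T.par u with _ | ⟨a, u'⟩ <;> rcases hv : T'.par v with _ | ⟨b, v'⟩
    · simp only [hu, hv, Option.elim, kap, dd_C, derivative_C, mul_zero, map_zero, hl, map_add,
        map_sub, map_neg, map_mul]
      ring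
    · cases b <;> simp only [hu, hv, Option.elim, kap, dd_C, derivative_C, mul_zero, map_zero, hl,
        map_add, map_sub, map_neg, map_mul, sg, if_true, if_false, Bool.false_eq_true, map_one] <;>
      ring
    · cases a <;> simp only [hu, hv, Option.elim, kap, dd_C, derivative_C, mul_zero, map_zero, hl,
        map_add, map_sub, map_neg, map_mul, sg, gam, hd1, hd2, if_true, if_false,
        Bool.false_eq_true, map_one] <;>
      ring
    · cases a <;> cases b <;> simp only [hu, hv, Option.elim, kap, dd_C, derivative_C, mul_zero,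
        map_zero, hl, map_add, map_sub, map_neg, map_mul, sg, gam, hd1, hd2, if_true, if_false,
        Bool.false_eq_true, map_one] <;>
      ring
  | add p q hp hq =>
    have e1 : X * (1 - X) * derivative (p + q) =
        X * (1 - X) * derivative p + X * (1 - X) * derivative q := by
      rw [derivative_add]; ring
    rw [e1, map_add, map_add, map_add]
    rcases hu : T.par u with _ | ⟨a, u'⟩ <;> rcases hv : T'.par v with _ | ⟨b, v'⟩ <;>
      simp only [hu, hv, Option.elim, mul_add, map_add, map_zero] at hp hq ⊢ <;>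
      linear_combination hp + hq
  | monomial n c hn =>
    have e : (C c * X ^ (n + 1) : ℚ[X]) = X * (C c * X ^ n) := by ring
    rw [e]
    exact star_step T T' l hE u v _ hn

/-- `ρ_{P,v}(f)` -/
noncomputable def rho (l : ι → κ → ℚ[X] →ₗ[ℚ] ℚ) (P : ι → ℚ[X]) (v : κ) (f : ℚ[X]) : ℚ :=
  ∑ u, l u v (P u * f)

/-- `𝒜(P)` -/
noncomputable def AA (l : ι → κ → ℚ[X] →ₗ[ℚ] ℚ) (P : ι → ℚ[X]) (v : κ) : ℚ[X] :=
  ∑ u, dd (l u v) (P u)

/-- ROW rk-8 (with the next two). `(1)` of the proof. -/
theorem rho_nab (T : Exp.Tree ι) (T' : Exp.Tree κ) (l : ι → κ → ℚ[X] →ₗ[ℚ] ℚ) (hE : RelE T T' l) (P : ι → ℚ[X]) (v : κ)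
    (h : ℚ[X]) : rho l (nab T P) v h = rho l P v (derivative (X * (1 - X) * h)) +
      (T'.par v).elim 0 (fun x => rho l P x.2 (gb x.1 * h)) := by
  have h1 : rho l (nab T P) v h = (∑ u, l u v (-(X * (1 - X) * derivative (P u)) * h)) +
      ∑ u, (T.par u).elim 0 (fun x => l x.2 v (gam x.1 * P u * h)) := by
    have h2 := sum_Gop T gam P (fun u => ((l u v).toAddMonoidHom.comp (AddMonoidHom.mulRight h)))
    simp only [AddMonoidHom.coe_comp, Function.comp_apply, AddMonoidHom.coe_mulRight,
      LinearMap.toAddMonoidHom_coe] at h2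
    rw [← h2, ← Finset.sum_add_distrib]
    unfold rho nab
    refine Finset.sum_congr rfl fun u _ => ?_
    rw [add_mul, map_add]
  have h3 : ∀ u, l u v (-(X * (1 - X) * derivative (P u)) * h) =
      l u v (P u * derivative (X * (1 - X) * h)) -
        (T.par u).elim 0 (fun x => l x.2 v (gam x.1 * P u * h)) +
        (T'.par v).elim 0 (fun x => l u x.2 (P u * (gb x.1 * h))) := by
    intro u
    have h4 := hE u v (P u * h)
    have h5 : derivative (X * (1 - X) * (P u * h)) =
        P u * derivative (X * (1 - X) * h) - -(X * (1 - X) * derivative (P u)) * h := by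
      simp only [derivative_mul]
      ring
    rw [h5, map_sub] at h4
    have h6 : ((T.par u).elim 0 (fun x => l x.2 v (gam x.1 * (P u * h))) : ℚ) =
        (T.par u).elim 0 (fun x => l x.2 v (gam x.1 * P u * h)) := by
      congr 1
      funext x
      rw [mul_assoc]
    have h7 : ((T'.par v).elim 0 (fun x => l u x.2 (gb x.1 * (P u * h))) : ℚ) =
        (T'.par v).elim 0 (fun x => l u x.2 (P u * (gb x.1 * h))) := by
      congr 1
      funext x
      rw [mul_left_comm]
    rw [h6, h7] at h4
    linarith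
  rw [h1, Finset.sum_congr rfl (fun u _ => h3 u), Finset.sum_add_distrib, Finset.sum_sub_distrib]
  have h8 : ∑ u, ((T'.par v).elim 0 (fun x => l u x.2 (P u * (gb x.1 * h))) : ℚ) =
      (T'.par v).elim 0 (fun x => rho l P x.2 (gb x.1 * h)) := by
    rcases T'.par v with _ | x
    · simp
    · simp [rho]
  rw [h8]
  unfold rho
  ring

/-- ROW rk-8. `(3)` of the proof. -/
theorem AA_nab (T : Exp.Tree ι) (T' : Exp.Tree κ) (l : ι → κ → ℚ[X] →ₗ[ℚ] ℚ) (hE : RelE T T' l) (P : ι → ℚ[X]) (v : κ) :
    AA l (nab T P) v = -(X * (1 - X) * derivative (AA l P v)) +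
        (T'.par v).elim 0 (fun x => gb x.1 * AA l P x.2) - ∑ u, C (kap T T' l u v) * P u -
        C (rho l P v 1 + (T'.par v).elim 0 (fun x => sg x.1 * rho l P x.2 1)) := by
  have h1 : AA l (nab T P) v = ∑ u, (-(dd (l u v) (X * (1 - X) * derivative (P u))) +
      (T.par u).elim 0 (fun x => dd (l x.2 v) (gam x.1 * P u))) := by
    have h2 := sum_Gop T gam P (fun u => (dd (l u v)).toAddMonoidHom)
    simp only [LinearMap.toAddMonoidHom_coe] at h2
    rw [Finset.sum_add_distrib, ← h2, ← Finset.sum_add_distrib]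
    unfold AA nab
    refine Finset.sum_congr rfl fun u _ => ?_
    rw [map_add, map_neg]
  rw [h1, Finset.sum_congr rfl (fun u _ => star T T' l hE u v (P u))]
  rw [Finset.sum_sub_distrib, Finset.sum_sub_distrib, Finset.sum_add_distrib, Finset.sum_neg_distrib,
    ← Finset.mul_sum]
  have h3 : derivative (AA l P v) = ∑ u, derivative (dd (l u v) (P u)) := by
    unfold AA
    rw [map_sum]
  have h4 : ∑ u, ((T'.par v).elim 0 (fun x => gb x.1 * dd (l u x.2) (P u)) : ℚ[X]) =
      (T'.par v).elim 0 (fun x => gb x.1 * AA l P x.2) := by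
    rcases T'.par v with _ | x
    · simp
    · simp [AA, Finset.mul_sum]
  have h5 : ∑ u, (C (l u v (P u) + (T'.par v).elim 0 (fun x => sg x.1 * l u x.2 (P u))) : ℚ[X]) =
      C (rho l P v 1 + (T'.par v).elim 0 (fun x => sg x.1 * rho l P x.2 1)) := by
    rw [← map_sum]
    congr 1
    rw [Finset.sum_add_distrib]
    rcases T'.par v with _ | x
    · simp [rho]
    · simp [rho, Finset.mul_sum]
  rw [h3, h4, h5]

/-- ROW rk-8. `(2)` of the proof. -/
theorem AA_smul (l : ι → κ → ℚ[X] →ₗ[ℚ] ℚ) (P : ι → ℚ[X]) (v : κ) (h : ℚ[X]) (H : ℕ)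
    (hH : h.natDegree ≤ H) (hρ : ∀ j < H, rho l P v (X ^ j) = 0) :
    AA l (fun u => h * P u) v = h * AA l P v := by
  have h1 : ∀ k ≤ H, AA l (fun u => X ^ k * P u) v = X ^ k * AA l P v := by
    intro k
    induction k with
    | zero =>
      intro _
      simp
    | succ k ih =>
      intro hk
      have h2 := ih (by omega)
      have h3 : AA l (fun u => X ^ (k + 1) * P u) v =
          X * AA l (fun u => X ^ k * P u) v + C (rho l P v (X ^ k)) := by
        unfold AA rho
        rw [map_sum, Finset.mul_sum, ← Finset.sum_add_distrib]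
        refine Finset.sum_congr rfl fun u _ => ?_
        beta_reduce
        rw [pow_succ', mul_assoc, dd_X_mul, mul_comm (P u)]
      rw [h3, h2, hρ k (by omega), map_zero, add_zero, pow_succ']
      ring
  have h4 : ∀ p : ℚ[X], p = ∑ i ∈ Finset.range (p.natDegree + 1), C (p.coeff i) * X ^ i :=
    fun p => p.as_sum_range_C_mul_X_pow
  have h5 : ∀ u, dd (l u v) (h * P u) =
      ∑ i ∈ Finset.range (h.natDegree + 1), C (h.coeff i) * dd (l u v) (X ^ i * P u) := by
    intro u
    conv_lhs => rw [h4 h]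
    rw [Finset.sum_mul, map_sum]
    refine Finset.sum_congr rfl fun i _ => ?_
    rw [mul_assoc, ← smul_eq_C_mul, map_smul, smul_eq_C_mul]
  have h6 : AA l (fun u => h * P u) v =
      ∑ i ∈ Finset.range (h.natDegree + 1), C (h.coeff i) * AA l (fun u => X ^ i * P u) v := by
    unfold AA
    rw [Finset.sum_congr rfl (fun u _ => h5 u), Finset.sum_comm]
    refine Finset.sum_congr rfl fun i _ => ?_
    rw [Finset.mul_sum]
  rw [h6]
  conv_rhs => rw [h4 h]
  rw [Finset.sum_mul]
  refine Finset.sum_congr rfl fun i hi => ?_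
  have hi' : i ≤ H := by
    have := Finset.mem_range.mp hi
    omega
  rw [h1 i hi']
  ring

end MPe54452.Exp2
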