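import Pool.Agent.Lib.MP_e54452_nt.DF.RkC2

/-!
# The semilinear connection on pairs, two trees
-/

set_option autoImplicit false

open Polynomial Module

namespace MPe54452.Exp2

open MPe54452.Exp (KK pe DK Gop dd gam gb sg nab sum_Gop DK_mul DK_pe DK_noAnti elimination
  rk9_Gop_add rk9_Gop_smul rk9_Gop_neg rk9_DK_one rk9_Gop_root rk9_Gop_zero rk9perp rk9_mem_perp
  rk9_adj rk9_perp_ne rk9_perp_stable)

variable {ι κ : Type} [Fintype ι] [DecidableEq ι] [Fintype κ] [DecidableEq κ]

/-- The underlying function of the semilinear connection on pairs. -/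
noncomputable def NabFun (T : Exp.Tree ι) (T' : Exp.Tree κ) (l : ι → κ → ℚ[X] →ₗ[ℚ] ℚ) (R : (ι → KK) × (κ → KK)) :
    (ι → KK) × (κ → KK) :=
  (fun w => -DK (R.1 w) + Gop T (fun b => pe (gam b)) R.1 w,
    fun v => -DK (R.2 v) + (T'.par v).elim 0 (fun x => pe (gb x.1) * R.2 x.2) -
      ∑ u, pe (C (kap T T' l u v)) * R.1 u)

/-- ROW rk-9 (with the next three). -/
theorem NabFun_add (T : Exp.Tree ι) (T' : Exp.Tree κ) (l : ι → κ → ℚ[X] →ₗ[ℚ] ℚ) (R S : (ι → KK) × (κ → KK)) :
    NabFun T T' l (R + S) = NabFun T T' l R + NabFun T T' l S := by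
  refine Prod.ext ?_ ?_
  · funext w
    change -DK ((R.1 + S.1) w) + Gop T (fun b => pe (gam b)) (R.1 + S.1) w =
      (-DK (R.1 w) + Gop T (fun b => pe (gam b)) R.1 w) +
        (-DK (S.1 w) + Gop T (fun b => pe (gam b)) S.1 w)
    rw [rk9_Gop_add, Pi.add_apply, map_add]
    ring
  · funext v
    change -DK ((R.2 + S.2) v) + (T'.par v).elim 0 (fun x => pe (gb x.1) * (R.2 + S.2) x.2) -
      ∑ u, pe (C (kap T T' l u v)) * (R.1 + S.1) u =
      (-DK (R.2 v) + (T'.par v).elim 0 (fun x => pe (gb x.1) * R.2 x.2) -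
        ∑ u, pe (C (kap T T' l u v)) * R.1 u) +
      (-DK (S.2 v) + (T'.par v).elim 0 (fun x => pe (gb x.1) * S.2 x.2) -
        ∑ u, pe (C (kap T T' l u v)) * S.1 u)
    rw [Pi.add_apply, map_add]
    have h1 : (T'.par v).elim 0 (fun x => pe (gb x.1) * (R.2 + S.2) x.2) =
        (T'.par v).elim 0 (fun x => pe (gb x.1) * R.2 x.2) +
        (T'.par v).elim 0 (fun x => pe (gb x.1) * S.2 x.2) := by
      cases T'.par v with
      | none => simp
      | some x => simp only [Option.elim_some, Pi.add_apply, mul_add]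
    have h2 : ∑ u, pe (C (kap T T' l u v)) * (R.1 + S.1) u =
        ∑ u, pe (C (kap T T' l u v)) * R.1 u + ∑ u, pe (C (kap T T' l u v)) * S.1 u := by
      rw [← Finset.sum_add_distrib]
      exact Finset.sum_congr rfl fun u _ => by rw [Pi.add_apply, mul_add]
    rw [h1, h2]
    ring

/-- The semilinear connection on pairs. -/
noncomputable def Nab (T : Exp.Tree ι) (T' : Exp.Tree κ) (l : ι → κ → ℚ[X] →ₗ[ℚ] ℚ) :
    ((ι → KK) × (κ → KK)) →+ ((ι → KK) × (κ → KK)) :=
  AddMonoidHom.mk' (NabFun T T' l) (NabFun_add T T' l)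



-- PART 2 (after the definition of Nab)
/-- ROW rk-9. -/
theorem Nab_smul (T : Exp.Tree ι) (T' : Exp.Tree κ) (l : ι → κ → ℚ[X] →ₗ[ℚ] ℚ) (f : KK) (R : (ι → KK) × (κ → KK)) :
    Nab T T' l (f • R) = f • Nab T T' l R - DK f • R := by
  refine Prod.ext ?_ ?_
  · funext w
    change -DK (f * R.1 w) + Gop T (fun b => pe (gam b)) (f • R.1) w =
      f * (-DK (R.1 w) + Gop T (fun b => pe (gam b)) R.1 w) - DK f * R.1 w
    rw [rk9_Gop_smul, DK_mul]
    ring
  · funext v
    change -DK (f * R.2 v) + (T'.par v).elim 0 (fun x => pe (gb x.1) * (f • R.2) x.2) -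
      ∑ u, pe (C (kap T T' l u v)) * (f • R.1) u =
      f * (-DK (R.2 v) + (T'.par v).elim 0 (fun x => pe (gb x.1) * R.2 x.2) -
        ∑ u, pe (C (kap T T' l u v)) * R.1 u) - DK f * R.2 v
    have h1 : (T'.par v).elim 0 (fun x => pe (gb x.1) * (f • R.2) x.2) =
        f * (T'.par v).elim 0 (fun x => pe (gb x.1) * R.2 x.2) := by
      cases T'.par v with
      | none => simp
      | some x => simp only [Option.elim_some, Pi.smul_apply, smul_eq_mul]; ring
    have h2 : ∑ u, pe (C (kap T T' l u v)) * (f • R.1) u =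
        f * ∑ u, pe (C (kap T T' l u v)) * R.1 u := by
      rw [Finset.mul_sum]
      exact Finset.sum_congr rfl fun u _ => by rw [Pi.smul_apply, smul_eq_mul]; ring
    rw [h1, h2, DK_mul]
    ring

/-- ROW rk-9. Let Y₁ = projection of Y to the first components (Submodule.map). Y₁ ≠ ⊥ and it is stable under
c ↦ DK c + Gop T (-γ) c (minus the first component of Nab), so `elimination` with g = fun b => -pe (gam b)
(hg from DK_noAnti: DK f = -α z - β(1-z) = pe (C (-β) * (1-X) + C (-α) * X)) gives (e_root, A*) ∈ Y for some A*.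
Nab (e_root, A*) = (0, A1) ∈ Y: the first component vanishes since DK 0 = DK 1 = 0 and T.par root = none;
A1 root = -DK (A* root) - pe (C (kap root root)) = 1 - DK (A* root), as kap root root = -l root root 1 = -1;
A1 root ≠ 0 by DK_noAnti (1 = C 1 * (1-X) + C 1 * X). ZZ = {A | (0,A) ∈ Y} is a submodule, A1 ∈ ZZ, stable under
A ↦ (v ↦ -DK (A v) + (par v).elim 0 (pe (gb a) * A v')) (Nab of (0,A)). If ZZ ≠ ⊤ there is a nonzero linear
functional vanishing on ZZ (`Submodule.exists_dual_map_eq_bot_of_lt_top` or `Submodule.exists_le_ker_of_lt_top`),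
i.e. nonzero c with ∑ c v * A v = 0 for A ∈ ZZ. S = {c | ∀ A ∈ ZZ, ∑ v, c v * A v = 0} is stable under
c ↦ DK c + Gop T γ̄ c : apply DK to ∑ c_v A_v = 0 and use ∑ c_v (-DK A_v + [γ̄ A_v']) = 0 and
∑_v c_v (par v).elim 0 (γ̄_a A_v') = ∑_w (Gop T γ̄ c w) A_w. So `elimination` with g = fun b => pe (gb b) gives
e_root ∈ S, A1 root = 0: contradiction. -/
theorem zz_top (T : Exp.Tree ι) (T' : Exp.Tree κ) (l : ι → κ → ℚ[X] →ₗ[ℚ] ℚ) (hN : l T.root T'.root 1 = 1)
    (Y : Submodule KK ((ι → KK) × (κ → KK))) (hY : ∀ y ∈ Y, Nab T T' l y ∈ Y)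
    (hne : ∃ y ∈ Y, y.1 ≠ 0) (A : κ → KK) : ((0, A) : (ι → KK) × (κ → KK)) ∈ Y := by
  have hC : ∀ r : ℚ, pe (C r) = pe (C r) := fun _ => rfl
  -- step A
  have hA : (Pi.single T.root 1 : ι → KK) ∈ Submodule.map (LinearMap.fst KK (ι → KK) (κ → KK)) Y := by
    refine elimination T (fun b => -pe (gam b)) ?_ _ ?_ ?_
    · intro f α β hf
      have h1 : DK f = pe (C (-β) * (1 - X) + C (-α) * X) := by
        rw [hf]
        simp only [gam, if_true, map_add, map_mul, map_neg, map_sub, map_one, Bool.false_eq_true,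
          if_false]
        ring
      have h2 := DK_noAnti f _ _ h1
      exact ⟨by linarith [h2.2], by linarith [h2.1]⟩
    · obtain ⟨y, hy, hy1⟩ := hne
      intro h0
      have : y.1 ∈ Submodule.map (LinearMap.fst KK (ι → KK) (κ → KK)) Y := ⟨y, hy, rfl⟩
      rw [h0, Submodule.mem_bot] at this
      exact hy1 this
    · rintro c ⟨y, hy, rfl⟩
      refine ⟨-Nab T T' l y, Submodule.neg_mem _ (hY y hy), ?_⟩
      funext w
      change -(-DK (y.1 w) + Gop T (fun b => pe (gam b)) y.1 w) =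
        DK (y.1 w) + Gop T (fun b => -pe (gam b)) y.1 w
      rw [rk9_Gop_neg]
      ring
  obtain ⟨y, hy, hy1⟩ := hA
  have hy1' : y.1 = Pi.single T.root 1 := hy1
  -- step B
  have hB1 : (Nab T T' l y).1 = 0 := by
    funext w
    change -DK (y.1 w) + Gop T (fun b => pe (gam b)) y.1 w = 0
    rw [hy1', rk9_Gop_root, add_zero]
    by_cases hw : w = T.root
    · rw [hw, Pi.single_eq_same, rk9_DK_one, neg_zero]
    · rw [Pi.single_eq_of_ne hw, map_zero, neg_zero]
  have hB2 : (Nab T T' l y).2 T'.root = -DK (y.2 T'.root) + 1 := by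
    change -DK (y.2 T'.root) + (T'.par T'.root).elim 0 (fun x => pe (gb x.1) * y.2 x.2) -
      ∑ u, pe (C (kap T T' l u T'.root)) * y.1 u = -DK (y.2 T'.root) + 1
    rw [hy1', Finset.sum_eq_single T.root]
    · rw [Pi.single_eq_same, mul_one]
      have hk : kap T T' l T.root T'.root = -1 := by
        unfold kap
        rw [T.par_root, T'.par_root, hN]
        simp
      rw [hk, T'.par_root]
      simp only [Option.elim_none, map_neg, map_one]
      ring
    · intro u _ hu
      rw [Pi.single_eq_of_ne hu, mul_zero]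
    · intro h; exact absurd (Finset.mem_univ _) h
  have hB3 : (Nab T T' l y).2 T'.root ≠ 0 := by
    rw [hB2]
    intro h0
    have h1 : DK (y.2 T'.root) = pe (C 1 * (1 - X) + C 1 * X) := by
      have h2 : DK (y.2 T'.root) = 1 := by linear_combination -h0
      rw [h2, ← map_one pe]
      congr 1
      rw [map_one]
      ring
    exact one_ne_zero (DK_noAnti _ _ _ h1).1
  have hZmem : ∀ B : κ → KK, B ∈ Submodule.comap (LinearMap.inr KK (ι → KK) (κ → KK)) Y ↔
      ((0, B) : (ι → KK) × (κ → KK)) ∈ Y := fun B => Iff.rfl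
  have hB4 : (Nab T T' l y).2 ∈ Submodule.comap (LinearMap.inr KK (ι → KK) (κ → KK)) Y := by
    rw [hZmem, ← hB1]
    exact hY y hy
  have hst : ∀ B ∈ Submodule.comap (LinearMap.inr KK (ι → KK) (κ → KK)) Y,
      (fun v => -DK (B v) + (T'.par v).elim 0 (fun x => pe (gb x.1) * B x.2)) ∈
        Submodule.comap (LinearMap.inr KK (ι → KK) (κ → KK)) Y := by
    intro B hB
    rw [hZmem] at hB ⊢
    have h1 := hY _ hB
    have h2 : Nab T T' l ((0, B) : (ι → KK) × (κ → KK)) =
        (0, fun v => -DK (B v) + (T'.par v).elim 0 (fun x => pe (gb x.1) * B x.2)) := by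
      refine Prod.ext ?_ ?_
      · funext w
        change -DK 0 + Gop T (fun b => pe (gam b)) 0 w = 0
        rw [rk9_Gop_zero, map_zero, neg_zero, add_zero]
      · funext v
        change -DK (B v) + (T'.par v).elim 0 (fun x => pe (gb x.1) * B x.2) -
          ∑ u, pe (C (kap T T' l u v)) * (0 : ι → KK) u =
          -DK (B v) + (T'.par v).elim 0 (fun x => pe (gb x.1) * B x.2)
        simp
    rw [h2] at h1
    exact h1
  by_contra hcon
  have hZ : Submodule.comap (LinearMap.inr KK (ι → KK) (κ → KK)) Y ≠ ⊤ := by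
    intro htop
    apply hcon
    rw [← hZmem, htop]
    exact Submodule.mem_top
  have hfin : (Pi.single T'.root 1 : κ → KK) ∈
      rk9perp (Submodule.comap (LinearMap.inr KK (ι → KK) (κ → KK)) Y) := by
    refine elimination T' (fun b => pe (gb b)) ?_ _ (rk9_perp_ne _ hZ) ?_
    · intro f α β hf
      refine DK_noAnti f α β ?_
      rw [hf]
      simp only [gb, if_true, map_add, map_mul, map_sub, map_one, Bool.false_eq_true, if_false]
    · exact rk9_perp_stable T' (fun b => pe (gb b)) _ hst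
  have h5 := hfin _ hB4
  rw [Finset.sum_eq_single T'.root] at h5
  · rw [Pi.single_eq_same, one_mul] at h5
    exact hB3 h5
  · intro u _ hu
    rw [Pi.single_eq_of_ne hu, zero_mul]
  · intro h; exact absurd (Finset.mem_univ _) h

end MPe54452.Exp2
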