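import Pool.Agent.Lib.MP_e54452_nt.DF.RkD2

/-!
# The rank lemma, two trees
-/

set_option autoImplicit false

open Polynomial Module

namespace MPe54452.Exp2

open MPe54452.Exp (KK pe DK Gop dd gam gb sg nab sum_Gop DK_mul DK_pe DK_noAnti pe_injective
  pe_elim pe_Gop natDegree_iter_le cyclic syzygy)

variable {ι κ : Type} [Fintype ι] [DecidableEq ι] [Fintype κ] [DecidableEq κ]

omit [DecidableEq ι] [Fintype κ] [DecidableEq κ] in
/-- `rho` as a linear map -/
lemma rho_zero_of_deg (l : ι → κ → ℚ[X] →ₗ[ℚ] ℚ) (P : ι → ℚ[X]) (v : κ) (m : ℕ)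
    (h : ∀ j ≤ m, rho l P v (X ^ j) = 0) (f : ℚ[X]) (hf : f.natDegree ≤ m) : rho l P v f = 0 := by
  have hadd : ∀ f g : ℚ[X], rho l P v (f + g) = rho l P v f + rho l P v g := by
    intro f g
    simp only [rho, mul_add, map_add, Finset.sum_add_distrib]
  have hsmul : ∀ (c : ℚ) (g : ℚ[X]), rho l P v (c • g) = c * rho l P v g := by
    intro c g
    simp only [rho, mul_smul_comm, map_smul, smul_eq_mul, Finset.mul_sum]
  let L : ℚ[X] →ₗ[ℚ] ℚ :=
    { toFun := rho l P v
      map_add' := hadd
      map_smul' := fun c g => by simpa using hsmul c g }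
  change L f = 0
  rw [f.as_sum_range' (m + 1) (by omega), map_sum]
  refine Finset.sum_eq_zero (fun j hj => ?_)
  have hj' : j ≤ m := by
    have := Finset.mem_range.mp hj
    omega
  rw [← Polynomial.smul_X_eq_monomial, map_smul]
  have : L (X ^ j) = 0 := h j hj'
  rw [this, smul_zero]

lemma rho_iter (T : Exp.Tree ι) (T' : Exp.Tree κ) (l : ι → κ → ℚ[X] →ₗ[ℚ] ℚ) (hE : RelE T T' l) (P : ι → ℚ[X]) (n : ℕ)
    (h : ∀ v, ∀ j ≤ n, rho l P v (X ^ j) = 0) (i : ℕ) :
    ∀ v, ∀ j, i + j ≤ n → rho l ((nab T)^[i] P) v (X ^ j) = 0 := by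
  induction i with
  | zero => intro v j hj; exact h v j (by omega)
  | succ i ih =>
    intro v j hj
    rw [Function.iterate_succ', Function.comp_apply, rho_nab T T' l hE]
    have key : ∀ v', ∀ f : ℚ[X], f.natDegree ≤ j + 1 → rho l ((nab T)^[i] P) v' f = 0 := by
      intro v' f hf
      exact rho_zero_of_deg l _ v' (j + 1) (fun k hk => ih v' k (by omega)) f hf
    rw [key v _ ?_, zero_add]
    · cases T'.par v with
      | none => rfl
      | some x =>
        simp only [Option.elim_some]
        refine key _ _ ?_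
        refine natDegree_mul_le.trans ?_
        have h1 : (gb x.1).natDegree ≤ 1 := by
          unfold gb
          split_ifs
          · simp
          · exact (natDegree_sub_le _ _).trans (by simp)
        have h2 : (X ^ j : ℚ[X]).natDegree ≤ j := natDegree_X_pow_le j
        omega
    · refine (natDegree_derivative_le _).trans ?_
      have h1 : (X * (1 - X) : ℚ[X]).natDegree ≤ 2 := by
        refine natDegree_mul_le.trans ?_
        have h2 : (1 - X : ℚ[X]).natDegree ≤ 1 := (natDegree_sub_le _ _).trans (by simp)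
        have h3 : (X : ℚ[X]).natDegree ≤ 1 := natDegree_X_le
        omega
      have h2 : (X ^ j : ℚ[X]).natDegree ≤ j := natDegree_X_pow_le j
      have h3 : (X * (1 - X) * X ^ j : ℚ[X]).natDegree ≤ 2 + j :=
        natDegree_mul_le.trans (by omega)
      omega

/-- The rows `(P^i, AA (P^i))`. -/
noncomputable def Rw (T : Exp.Tree ι) (T' : Exp.Tree κ) (l : ι → κ → ℚ[X] →ₗ[ℚ] ℚ) (P : ι → ℚ[X]) (i : ℕ) :
    (ι → KK) × (κ → KK) :=
  (fun w => pe ((nab T)^[i] P w), fun v => pe (AA l ((nab T)^[i] P) v))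

lemma Rw_succ (T : Exp.Tree ι) (T' : Exp.Tree κ) (l : ι → κ → ℚ[X] →ₗ[ℚ] ℚ) (hE : RelE T T' l) (P : ι → ℚ[X]) (n : ℕ)
    (h : ∀ v, ∀ j ≤ n, rho l P v (X ^ j) = 0) (i : ℕ) (hi : i ≤ n) :
    Rw T T' l P (i + 1) = Nab T T' l (Rw T T' l P i) := by
  have h0 : ∀ v, rho l ((nab T)^[i] P) v 1 = 0 := by
    intro v
    have := rho_iter T T' l hE P n h i v 0 (by omega)
    simpa using this
  change _ = NabFun T T' l (Rw T T' l P i)
  unfold Rw NabFun
  rw [Function.iterate_succ', Function.comp_apply]
  refine Prod.ext ?_ ?_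
  · funext w
    change pe (nab T ((nab T)^[i] P) w) = _
    rw [nab, map_add, map_neg, pe_Gop, ← DK_pe]
  · funext v
    change pe (AA l (nab T ((nab T)^[i] P)) v) = _
    rw [AA_nab T T' l hE]
    have e : (T'.par v).elim 0 (fun x => sg x.1 * rho l ((nab T)^[i] P) x.2 1) = 0 := by
      cases T'.par v with
      | none => rfl
      | some x => simp [h0]
    rw [h0 v, e, add_zero, C_0, sub_zero, map_sub, map_add, map_neg, ← DK_pe, pe_elim, map_sum]
    simp only [map_mul]

lemma Rw_iter (T : Exp.Tree ι) (T' : Exp.Tree κ) (l : ι → κ → ℚ[X] →ₗ[ℚ] ℚ) (hE : RelE T T' l) (P : ι → ℚ[X]) (n : ℕ)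
    (h : ∀ v, ∀ j ≤ n, rho l P v (X ^ j) = 0) (i : ℕ) (hi : i ≤ n) :
    (Nab T T' l)^[i] (Rw T T' l P 0) = Rw T T' l P i := by
  induction i with
  | zero => rfl
  | succ i ih =>
    rw [Function.iterate_succ', Function.comp_apply, ih (by omega),
      Rw_succ T T' l hE P n h i (by omega)]

/-- RANK LEMMA (helper87 does this one). -/
theorem rank_lemma (T : Exp.Tree ι) (T' : Exp.Tree κ) (l : ι → κ → ℚ[X] →ₗ[ℚ] ℚ) (hE : RelE T T' l)
    (hN : l T.root T'.root 1 = 1) (P : ι → ℚ[X]) (hP : P ≠ 0) (a n : ℕ)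
    (ha : ∀ u, (P u).natDegree ≤ a) (hle : Fintype.card ι ≤ Fintype.card κ)
    (hn : a + 2 * (Fintype.card ι + Fintype.card κ) ≤ n) :
    ∃ v, ∃ j ≤ n, ∑ u, l u v (P u * X ^ j) ≠ 0 := by
  by_contra hcon
  push Not at hcon
  have h : ∀ v, ∀ j ≤ n, rho l P v (X ^ j) = 0 := fun v j hj => hcon v j hj
  set R₀ := Rw T T' l P 0 with hR₀
  set Y := Submodule.span KK (Set.range fun i : ℕ => (Nab T T' l)^[i] R₀) with hYdef
  obtain ⟨hstab, hind⟩ := cyclic (Nab T T' l) (Nab_smul T T' l) R₀
  rw [← hYdef] at hstab hind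
  set r := finrank KK Y with hr
  have hq : 0 < Fintype.card ι := Fintype.card_pos_iff.mpr ⟨T.root⟩
  have hrle : r ≤ Fintype.card ι + Fintype.card κ := by
    have h1 := Submodule.finrank_le Y
    rw [Module.finrank_prod, Module.finrank_fintype_fun_eq_card,
      Module.finrank_fintype_fun_eq_card] at h1
    omega
  have hR₀Y : R₀ ∈ Y := Submodule.subset_span ⟨0, rfl⟩
  have hne : ∃ y ∈ Y, y.1 ≠ 0 := by
    refine ⟨R₀, hR₀Y, fun h0 => hP ?_⟩
    funext w
    have := congrFun h0 w
    change pe (P w) = 0 at this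
    exact pe_injective (by rw [this, Pi.zero_apply, map_zero])
  have hzz := zz_top T T' l hN Y hstab hne
  -- dimension of the projection
  let S : Submodule KK (ι → KK) := Y.map (LinearMap.fst KK (ι → KK) (κ → KK))
  have hrS : r = finrank KK S + Fintype.card κ := by
    have h1 := LinearMap.finrank_range_add_finrank_ker
      ((LinearMap.fst KK (ι → KK) (κ → KK)).domRestrict Y)
    have h2 : LinearMap.range ((LinearMap.fst KK (ι → KK) (κ → KK)).domRestrict Y) = S := by
      rw [LinearMap.range_domRestrict]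
    have h3 : finrank KK (LinearMap.ker ((LinearMap.fst KK (ι → KK) (κ → KK)).domRestrict Y)) =
        Fintype.card κ := by
      have e : (κ → KK) ≃ₗ[KK]
          LinearMap.ker ((LinearMap.fst KK (ι → KK) (κ → KK)).domRestrict Y) :=
        { toFun := fun A => ⟨⟨(0, A), hzz A⟩, by simp [LinearMap.mem_ker]⟩
          map_add' := fun A B => by
            apply Subtype.ext
            apply Subtype.ext
            simp
          map_smul' := fun c A => by
            apply Subtype.ext
            apply Subtype.ext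
            simp
          invFun := fun y => y.1.1.2
          left_inv := fun A => rfl
          right_inv := fun y => by
            apply Subtype.ext
            apply Subtype.ext
            have hy : y.1.1.1 = 0 := by
              have := y.2
              rw [LinearMap.mem_ker] at this
              exact this
            exact Prod.ext hy.symm rfl }
      rw [← e.finrank_eq, Module.finrank_fintype_fun_eq_card]
    rw [h2, h3] at h1
    omega
  have hSle : finrank KK S ≤ Fintype.card ι := by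
    have h1 := Submodule.finrank_le S
    rwa [Module.finrank_fintype_fun_eq_card] at h1
  -- the syzygy
  obtain ⟨g, hg0, hgdeg, hg⟩ := syzygy S (a + r) (a + r) r
    (fun i w => (nab T)^[(i : ℕ)] P w)
    (fun i w => (natDegree_iter_le T P a ha i w).trans (by have := i.2; omega))
    (fun i => by
      refine ⟨(Nab T T' l)^[(i : ℕ)] R₀, Submodule.subset_span ⟨i, rfl⟩, ?_⟩
      rw [Rw_iter T T' l hE P n h i (by have := i.2; omega)]
      rfl)
    (by
      rcases Nat.eq_zero_or_pos (finrank KK S) with h0 | h0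
      · rw [h0]
        have : 0 < r := by omega
        nlinarith
      · nlinarith)
  have hAA : ∀ v, ∑ i, g i * AA l ((nab T)^[(i : ℕ)] P) v = 0 := by
    intro v
    have h1 : ∀ i : Fin r, g i * AA l ((nab T)^[(i : ℕ)] P) v =
        AA l (fun u => g i * (nab T)^[(i : ℕ)] P u) v := by
      intro i
      refine (AA_smul l _ v (g i) (a + r) (hgdeg i) (fun j hj => ?_)).symm
      exact rho_iter T T' l hE P n h i v j (by have := i.2; omega)
    rw [Finset.sum_congr rfl (fun i _ => h1 i)]
    unfold AA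
    rw [Finset.sum_comm]
    refine Finset.sum_eq_zero (fun u _ => ?_)
    rw [← map_sum, hg u, map_zero]
  have hlin : ∑ i : Fin r, pe (g i) • (Nab T T' l)^[(i : ℕ)] R₀ = 0 := by
    have h1 : ∀ i : Fin r, (Nab T T' l)^[(i : ℕ)] R₀ = Rw T T' l P i := by
      intro i
      exact Rw_iter T T' l hE P n h i (by have := i.2; omega)
    rw [Finset.sum_congr rfl (fun i _ => by rw [h1 i])]
    refine Prod.ext ?_ ?_
    · rw [Prod.fst_sum]
      funext w
      rw [Finset.sum_apply]
      change ∑ i : Fin r, pe (g i) * pe ((nab T)^[(i : ℕ)] P w) = 0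
      rw [Finset.sum_congr rfl (fun i _ => (map_mul pe (g i) _).symm), ← map_sum, hg w, map_zero]
    · rw [Prod.snd_sum]
      funext v
      rw [Finset.sum_apply]
      change ∑ i : Fin r, pe (g i) * pe (AA l ((nab T)^[(i : ℕ)] P) v) = 0
      rw [Finset.sum_congr rfl (fun i _ => (map_mul pe (g i) _).symm), ← map_sum, hAA v, map_zero]
  have hz := Fintype.linearIndependent_iff.mp hind (fun i => pe (g i)) hlin
  apply hg0
  funext i
  exact pe_injective (by rw [hz i]; simp)


end MPe54452.Exp2
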