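import Pool.Agent.Lib.MP_e54452_nt.DG.SIc
import Pool.Agent.Lib.MP_e54452_nt.DG.LAb
import Pool.Agent.Lib.MP_e54452_nt.DF.Defs
import Pool.Agent.Lib.MP_e54452_nt.DF.N1
import Pool.Agent.Lib.MP_e54452_nt.DF.N2

/-!
# Many small auxiliary functions
-/

set_option autoImplicit false

namespace MZG

open Finset Module
open scoped ENNReal Nat Polynomial

theorem small_onF {F : Finset (List Bool)} {s : ℕ} (q μ n : ℕ) (hs : 1 ≤ s)
    (hq : 300 * s ≤ q) (hq2 : q ≤ 2 ^ s) (hμ : μ ^ 2 ≤ q * s) (J : Finset (IdF F n))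
    (hJ : J.card = q / 4 * (n + 1)) :
    ∃ t ∈ TF F s μ n, t ≠ 0 ∧ ∀ x, x ∉ J → t x = 0 := by
  classical
  set m : ℕ := μ * (n + 1) with hm
  set X : ℕ := ⌊Real.exp (12 * s * ((n + 1 : ℕ) : ℝ))⌋₊ with hX
  have hJc : Fintype.card J = q / 4 * (n + 1) := by
    rw [Fintype.card_coe, hJ]
  have hnum := pigeon_num s q μ (n + 1) hs (Nat.succ_le_succ (Nat.zero_le n)) hq hq2 hμ
  obtain ⟨t, ht0, htX, htA⟩ := pigeonhole_real (ι := J) m X (8 ^ m)
    (fun k x => ((cc x.1.1 x.1.2 (k : ℕ) : ℚ) : ℝ))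
    (fun k x => by exact_mod_cast SIc_cc_nonneg _ _ _)
    (fun k x => by exact_mod_cast SIc_cc_le_one _ _ _)
    (by rw [hJc]; exact hnum)
  set T : IdF F n → ℚ := fun x => if h : x ∈ J then ((t ⟨x, h⟩ : ℤ) : ℚ) else 0 with hT
  have hTout : ∀ x, x ∉ J → T x = 0 := by
    intro x hx
    simp only [hT]
    rw [dif_neg hx]
  have hTin : ∀ x : J, T x.1 = ((t x : ℤ) : ℚ) := by
    intro x
    simp only [hT]
    rw [dif_pos x.2]
  have hXle : (X : ℝ) ≤ Real.exp (12 * s * ((n + 1 : ℕ) : ℝ)) := Nat.floor_le (Real.exp_pos _).le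
  refine ⟨T, ⟨?_, ?_, ?_⟩, ?_, hTout⟩
  · intro x
    by_cases hx : x ∈ J
    · exact ⟨t ⟨x, hx⟩, hTin ⟨x, hx⟩⟩
    · exact ⟨0, by rw [hTout x hx]; simp⟩
  · intro k hk
    have h1 : cF T k = ∑ x : J, T x.1 * cc x.1.1 x.1.2 k := by
      unfold cF
      rw [← Finset.sum_subset (Finset.subset_univ J)
        (fun x _ hx => by rw [hTout x hx, zero_mul])]
      exact (Finset.sum_coe_sort J (fun x => T x * cc x.1 x.2 k)).symm
    have h2 := htA ⟨k, hk⟩
    have h3 : ((cF T k : ℚ) : ℝ) = ∑ x : J, ((cc x.1.1 x.1.2 k : ℚ) : ℝ) * (t x : ℝ) := by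
      rw [h1]
      push_cast
      refine Finset.sum_congr rfl fun x _ => ?_
      rw [hTin x]
      push_cast
      ring
    rw [h3, le_div_iff₀ (by positivity)]
    have h4 : (((8 ^ m : ℕ) : ℕ) : ℝ) = 8 ^ m := by push_cast; rfl
    rw [h4] at h2
    exact h2
  · intro x
    by_cases hx : x ∈ J
    · have h1 := hTin ⟨x, hx⟩
      have h2 : (T x : ℝ) = ((t ⟨x, hx⟩ : ℤ) : ℝ) := by
        have : T x = ((t ⟨x, hx⟩ : ℤ) : ℚ) := h1
        rw [this]; push_cast; rfl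
      rw [h2]
      refine le_trans ?_ hXle
      have h3 := htX ⟨x, hx⟩
      exact_mod_cast h3
    · rw [hTout x hx]
      simp only [Rat.cast_zero, abs_zero]
      exact (Real.exp_pos _).le
  · intro h0
    apply ht0
    ext x
    have h1 := hTin x
    rw [h0] at h1
    have h2 : ((t x : ℤ) : ℚ) = 0 := h1.symm
    exact_mod_cast h2

theorem card_IdF (F : Finset (List Bool)) (n : ℕ) : Fintype.card (IdF F n) = F.card * (n + 1) := by
  rw [Fintype.card_prod, Fintype.card_fin, Fintype.card_coe]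

theorem codim_TF {F : Finset (List Bool)} {s : ℕ} (q μ n : ℕ) (hs : 1 ≤ s)
    (hq : 300 * s ≤ q) (hq2 : q ≤ 2 ^ s) (hμ : μ ^ 2 ≤ q * s) :
    Fintype.card (IdF F n) <
      finrank ℚ (Submodule.span ℚ (TF F s μ n)) + q / 4 * (n + 1) := by
  classical
  by_contra hcon
  push Not at hcon
  obtain ⟨J, hJ, hJ2⟩ := coord_compl (Submodule.span ℚ (TF F s μ n)) _ hcon
  obtain ⟨t, ht, ht0, htJ⟩ := small_onF q μ n hs hq hq2 hμ J hJ
  exact ht0 (hJ2 t (Submodule.subset_span ht) htJ)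

end MZG
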