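import Pool.Agent.Lib.MP_e54452_nt.DF.FIF
import Pool.Agent.Lib.MP_e54452_nt.DG.BRb

/-!
# Theorem 0: prefixes and suffixes
-/

set_option autoImplicit false

namespace MZG

open Finset Module
open scoped ENNReal Nat Polynomial

/-- reverse complement -/
def rc (w : List Bool) : List Bool := (w.map (fun b => !b)).reverse

theorem rc_cons (a : Bool) (w : List Bool) : rc (a :: w) = rc w ++ [!a] := by
  simp [rc]

theorem rc_append (x y : List Bool) : rc (x ++ y) = rc y ++ rc x := by
  simp [rc]

theorem rc_rc (w : List Bool) : rc (rc w) = w := by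
  unfold rc
  rw [List.map_reverse, List.reverse_reverse, List.map_map]
  have h : ((fun b : Bool => !b) ∘ fun b => !b) = id := by
    funext b
    cases b <;> rfl
  rw [h, List.map_id]

theorem rc_nil : rc [] = [] := rfl

theorem rc_length (w : List Bool) : (rc w).length = w.length := by simp [rc]

theorem dual_eq (v w : List Bool) : dual v w = rc v ++ w := by
  induction v generalizing w with
  | nil => simp [dual, rc]
  | cons a v ih =>
    rw [dual, ih, rc_cons]
    simp

theorem good_iff (w : List Bool) : good w = true ↔ (w = [] ∨ w.getLast? = some true) := by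
  induction w with
  | nil => simp [good]
  | cons a w ih =>
    cases w with
    | nil => cases a <;> simp [good]
    | cons b w =>
      have h : good (a :: b :: w) = good (b :: w) := rfl
      rw [h, ih]
      simp

theorem adm_iff (w : List Bool) :
    adm w = true ↔ (w = [] ∨ (w.head? = some false ∧ w.getLast? = some true)) := by
  cases w with
  | nil => simp [adm]
  | cons a w =>
    have h : adm (a :: w) = (!a && good (a :: w)) := rfl
    rw [h, Bool.and_eq_true, good_iff]
    cases a <;> simp

theorem Ce_symm (u v : List Bool) : Ce u v = Ce v u := by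
  unfold Ce
  rw [ENNReal.tsum_comm]
  refine tsum_congr fun m => tsum_congr fun n => ?_
  rw [ct_symm, mul_comm (ce u n) (ce v m)]

theorem ze_dual_symm (u v : List Bool) (hu : good u = true) (hv : good v = true) (hu0 : u ≠ [])
    (hv0 : v ≠ []) : ze (dual v u) = ze (dual u v) := by
  rw [← Ce_dual v u hu0 hv, ← Ce_dual u v hv0 hu, Ce_symm]

theorem good_single : good [true] = true := rfl

/-- duality for the words `rc v ++ u` -/
theorem ze_dual (u v : List Bool) (hu : good u = true) (hv : good v = true)
    (h : adm (dual v u) = true) : ze (dual v u) = ze (dual u v) ∧ adm (dual u v) = true := by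
  by_cases hv0 : v = []
  · subst hv0
    cases u with
    | nil => exact ⟨rfl, h⟩
    | cons a u' =>
      have h1 : adm (a :: u') = true := h
      cases a with
      | true => simp [adm] at h1
      | false =>
        have hne := good_false_ne u' hu
        have hg := good_tail _ _ hu
        have e1 : dual (false :: u') [] = dual u' [true] := rfl
        have e2 : dual [] (false :: u') = dual [true] u' := rfl
        rw [e1, e2]
        exact ⟨ze_dual_symm u' [true] hg rfl hne (by simp),
          dual_adm u' [true] hne hg (by simp) rfl⟩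
  · by_cases hu0 : u = []
    · subst hu0
      have h1 : adm (rc v ++ []) = true := by rw [← dual_eq]; exact h
      rw [List.append_nil] at h1
      cases v with
      | nil => exact absurd rfl hv0
      | cons a v' =>
        cases a with
        | true =>
          rw [rc_cons, adm_iff] at h1
          rcases h1 with h1 | h1
          · simp at h1
          · have := h1.2
            simp at this
        | false =>
          have hne := good_false_ne v' hv
          have hg := good_tail _ _ hv
          have e1 : dual (false :: v') [] = dual v' [true] := rfl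
          have e2 : dual [] (false :: v') = dual [true] v' := rfl
          rw [e1, e2]
          refine ⟨ze_dual_symm [true] v' rfl hg (by simp) hne, ?_⟩
          show adm (false :: v') = true
          simp only [adm, Bool.not_false, Bool.true_and]
          exact hv
    · exact ⟨ze_dual_symm u v hu hv hu0 hv0, dual_adm u v hu0 hu hv0 hv⟩

/-- the span of the values of the words `x y`, `x ∈ P`, `y ∈ S` -/
noncomputable def PS (P S : Finset (List Bool)) : Submodule ℚ ℝ :=
  Submodule.span ℚ {t : ℝ | ∃ x ∈ P, ∃ y ∈ S,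
    (x ++ y = [] ∨ ((x ++ y).head? = some false ∧ (x ++ y).getLast? = some true)) ∧
    t = MPe54452.mzv (comp 0 (x ++ y))}

theorem fam_S (s : ℕ) (S : Finset (List Bool)) (h0 : [] ∈ S) (h1 : ∀ a y, a :: y ∈ S → y ∈ S)
    (h2 : ∀ y ∈ S, y = [] ∨ y.getLast? = some true) (h3 : ∀ y ∈ S, y.length ≤ s) : Fam S s where
  nil := h0
  tail := h1
  good := fun w hw => (good_iff w).2 (h2 w hw)
  len := h3

theorem fam_P (s : ℕ) (P : Finset (List Bool)) (h0 : [] ∈ P) (h1 : ∀ a x, x ++ [a] ∈ P → x ∈ P)
    (h2 : ∀ x ∈ P, x = [] ∨ x.head? = some false) (h3 : ∀ x ∈ P, x.length ≤ s) :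
    Fam (P.image rc) s where
  nil := Finset.mem_image.2 ⟨[], h0, rfl⟩
  tail := by
    intro a w h
    obtain ⟨x, hx, hxa⟩ := Finset.mem_image.1 h
    have e : x = rc w ++ [!a] := by rw [← rc_cons, ← hxa, rc_rc]
    rw [e] at hx
    exact Finset.mem_image.2 ⟨rc w, h1 _ _ hx, rc_rc w⟩
  good := by
    intro w h
    obtain ⟨x, hx, rfl⟩ := Finset.mem_image.1 h
    rw [good_iff]
    rcases h2 x hx with h | h
    · left; rw [h]; rfl
    · right
      cases x with
      | nil => simp at h
      | cons a x =>
        rw [rc_cons]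
        simp only [List.head?_cons, Option.some.injEq] at h
        rw [h]
        simp
  len := by
    intro w h
    obtain ⟨x, hx, rfl⟩ := Finset.mem_image.1 h
    rw [rc_length]
    exact h3 x hx

theorem rc_injective : Function.Injective rc := by
  intro x y h
  rw [← rc_rc x, h, rc_rc]

theorem MP_le_PS (s : ℕ) (P S : Finset (List Bool)) (hS : Fam S s) (hP : Fam (P.image rc) s) :
    MP (VW S (P.image rc)) ≤ PS P S := by
  unfold MP PS
  apply Submodule.span_mono
  rintro t ⟨z, ⟨hz, u, hu, v, hv, rfl⟩, rfl⟩
  obtain ⟨x, hx, rfl⟩ := Finset.mem_image.1 hv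
  have e : dual (rc x) u = x ++ u := by rw [dual_eq, rc_rc]
  rw [e] at hz ⊢
  exact ⟨x, hx, u, hu, (adm_iff _).1 hz, zr_eq_mzv _ hz⟩

theorem MP_le_PS' (s : ℕ) (P S : Finset (List Bool)) (hS : Fam S s) (hP : Fam (P.image rc) s) :
    MP (VW (P.image rc) S) ≤ PS P S := by
  unfold MP PS
  apply Submodule.span_mono
  rintro t ⟨z, ⟨hz, u, hu, v, hv, rfl⟩, rfl⟩
  obtain ⟨x, hx, rfl⟩ := Finset.mem_image.1 hu
  have h1 := ze_dual (rc x) v (hP.good _ hu) (hS.good _ hv) hz
  have e : dual (rc x) v = x ++ v := by rw [dual_eq, rc_rc]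
  have h2 : zr (dual v (rc x)) = zr (x ++ v) := by
    unfold zr
    rw [h1.1, e]
  rw [h2]
  have h3 := h1.2
  rw [e] at h3
  exact ⟨x, hx, v, hv, (adm_iff _).1 h3, zr_eq_mzv _ h3⟩

theorem PS_finite (P S : Finset (List Bool)) : FiniteDimensional ℚ (PS P S) := by
  unfold PS
  apply FiniteDimensional.span_of_finite
  apply ((P ×ˢ S).finite_toSet.image (fun p => MPe54452.mzv (comp 0 (p.1 ++ p.2)))).subset
  rintro t ⟨x, hx, y, hy, _, rfl⟩
  exact ⟨(x, y), by simp [hx, hy], rfl⟩

/-- THEOREM 0 -/
theorem depth0 (s : ℕ) (hs : 1 ≤ s) (P S : Finset (List Bool)) (hP0 : [] ∈ P)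
    (hP1 : ∀ a x, x ++ [a] ∈ P → x ∈ P) (hP2 : ∀ x ∈ P, x = [] ∨ x.head? = some false)
    (hP3 : ∀ x ∈ P, x.length ≤ s) (hS0 : [] ∈ S) (hS1 : ∀ a y, a :: y ∈ S → y ∈ S)
    (hS2 : ∀ y ∈ S, y = [] ∨ y.getLast? = some true) (hS3 : ∀ y ∈ S, y.length ≤ s) :
    Real.sqrt ((min P.card S.card : ℕ) / s) ≤ 74 * finrank ℚ (PS P S) := by
  have fS := fam_S s S hS0 hS1 hS2 hS3
  have fP := fam_P s P hP0 hP1 hP2 hP3
  have hc : (P.image rc).card = P.card := Finset.card_image_of_injective _ rc_injective
  haveI := PS_finite P S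
  rcases le_total S.card P.card with h | h
  · rw [min_eq_right h]
    have h1 := main_fam fS fP (by rw [hc]; exact h) hs
    have h2 : (finrank ℚ (MP (VW S (P.image rc))) : ℝ) ≤ finrank ℚ (PS P S) := by
      exact_mod_cast Submodule.finrank_mono (MP_le_PS s P S fS fP)
    linarith
  · rw [min_eq_left h]
    have h1 := main_fam fP fS (by rw [hc]; exact h) hs
    rw [hc] at h1
    have h2 : (finrank ℚ (MP (VW (P.image rc) S)) : ℝ) ≤ finrank ℚ (PS P S) := by
      exact_mod_cast Submodule.finrank_mono (MP_le_PS' s P S fS fP)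
    linarith

end MZG
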